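import Pool.Agent.Work.MP_8eaa9c_co.Red.Hits
import Pool.Agent.Work.MP_8eaa9c_co.Count

/-!
Module CONV: if `F` has exponential behaviour then dense balanced matrices hit `F`.

`count_le'` (the proof of `count_le` in Count.lean for an arbitrary finite set `𝓑` of functions with
values in `blocks`): `b ↦ (ρ b, {ρ b x + idx (b x)})` is injective.

`conv`: a dense balanced matrix not hitting `F` contains, by a greedy choice of columns, many partial
injective functions (`family`); those with a given domain `Z` give a restricted set of permutations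
of `Z`.
-/

namespace Pool.Agent.Work.MP_8eaa9c_co

open Finset

lemma count_le' {n I : ℕ} {β : Type} [LinearOrder β] (blocks : Finset β)
    (hI : blocks.card ≤ I) (𝓑 : Finset (Fin n → β)) (hS : ∀ b ∈ 𝓑, ∀ x, b x ∈ blocks)
    (ρ : (Fin n → β) → Equiv.Perm (Fin n))
    (hρ : ∀ b x y, ρ b x < ρ b y ↔ toLex (b x, x) < toLex (b y, y)) :
    𝓑.card ≤ (𝓑.image ρ).card * 2 ^ (n + I) := by
  classical
  let idx : β → ℕ := fun c => (blocks.filter (fun d => d < c)).card
  have idx_lt : ∀ c ∈ blocks, idx c < I := by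
    intro c hc
    refine lt_of_lt_of_le ?_ hI
    apply card_lt_card
    rw [filter_ssubset]
    exact ⟨c, hc, lt_irrefl c⟩
  have idx_le : ∀ c d, c ≤ d → idx c ≤ idx d := by
    intro c d h
    apply card_le_card
    intro x hx
    rw [mem_filter] at hx ⊢
    exact ⟨hx.1, lt_of_lt_of_le hx.2 h⟩
  have idx_mono : ∀ c ∈ blocks, ∀ d, c < d → idx c < idx d := by
    intro c hc d h
    apply card_lt_card
    rw [ssubset_iff_of_subset]
    · refine ⟨c, by rw [mem_filter]; exact ⟨hc, h⟩, ?_⟩
      rw [mem_filter]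
      exact fun h => lt_irrefl c h.2
    · intro x hx
      rw [mem_filter] at hx ⊢
      exact ⟨hx.1, hx.2.trans h⟩
  have idx_inj : ∀ c ∈ blocks, ∀ d ∈ blocks, idx c = idx d → c = d := by
    intro c hc d hd h
    rcases lt_trichotomy c d with h1 | h1 | h1
    · exact absurd h (idx_mono c hc d h1).ne
    · exact h1
    · exact absurd h (idx_mono d hd c h1).ne'
  let g : (Fin n → β) → Fin n → ℕ := fun b r => (r : ℕ) + idx (b ((ρ b).symm r))
  have g_mono : ∀ b, StrictMono (g b) := by
    intro b r r' h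
    have h1 : ρ b ((ρ b).symm r) < ρ b ((ρ b).symm r') := by simpa using h
    rw [hρ, Prod.Lex.toLex_lt_toLex] at h1
    have h2 : b ((ρ b).symm r) ≤ b ((ρ b).symm r') := by
      rcases h1 with h1 | h1
      · exact h1.le
      · exact h1.1.le
    have h3 := idx_le _ _ h2
    have h4 : (r : ℕ) < r' := h
    simp only [g]
    omega
  have key : 𝓑.card ≤ ((𝓑.image ρ) ×ˢ (range (n + I)).powerset).card := by
    apply card_le_card_of_injOn (fun b => (ρ b, univ.image (g b)))
    · intro b hb
      rw [mem_coe] at hb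
      rw [mem_coe, mem_product]
      refine ⟨mem_image_of_mem _ hb, ?_⟩
      rw [mem_powerset]
      intro y hy
      obtain ⟨r, -, rfl⟩ := mem_image.1 hy
      rw [mem_range]
      have h1 := idx_lt (b ((ρ b).symm r)) (hS _ hb _)
      have h2 := r.2
      simp only [g]
      omega
    · intro b hb b' hb' h
      rw [mem_coe] at hb hb'
      simp only [Prod.mk.injEq] at h
      obtain ⟨h1, h2⟩ := h
      have h3 : g b = g b' := by
        rw [← StrictMono.range_inj (g_mono b) (g_mono b')]
        have := congrArg (fun s : Finset ℕ => (s : Set ℕ)) h2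
        simpa using this
      funext x
      have h4 := congrFun h3 (ρ b x)
      simp only [g, ← h1, Equiv.symm_apply_apply] at h4
      apply idx_inj _ (hS _ hb _) _ (hS _ hb' _)
      omega
  rw [card_product, card_powerset, card_range] at key
  exact key

/-- Greedy choice of many injective partial choice functions. -/
private lemma family {m : ℕ} (S : Fin m → Finset (Fin m)) (C : Finset (Fin m)) (k R : ℕ)
    (hk : 1 ≤ k) (hS : ∀ x ∈ C, 2 * k ≤ (S x).card)
    (hrow : ∀ r, (C.filter (fun x => r ∈ S x)).card ≤ R * k) (t : ℕ)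
    (ht : ∀ s < t, (R + 1) * s < C.card) :
    ∃ T : Finset (Finset (Fin m) × (Fin m → Fin m)), k ^ t ≤ T.card ∧
      (∀ p ∈ T, p.1.card = t ∧ Set.InjOn p.2 p.1 ∧ ∀ x ∈ p.1, p.2 x ∈ S x) ∧
      (∀ p ∈ T, ∀ q ∈ T, p ≠ q → ∃ x ∈ p.1, x ∈ q.1 ∧ p.2 x ≠ q.2 x) := by
  classical
  induction t with
  | zero =>
    refine ⟨{(∅, id)}, by simp, ?_, ?_⟩
    · intro p hp
      rw [mem_singleton] at hp
      subst hp
      simp
    · intro p hp q hq hpq
      rw [mem_singleton] at hp hq
      exact absurd (hp.trans hq.symm) hpq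
  | succ t ih =>
    obtain ⟨T, hT1, hT2, hT3⟩ := ih (fun s hs => ht s (by omega))
    have htt := ht t (by omega)
    -- the choice of the next column
    have hx : ∀ p ∈ T, ∃ x ∈ C, x ∉ p.1 ∧ k ≤ (S x \ p.1.image p.2).card := by
      intro p hp
      obtain ⟨hp1, hp2, hp3⟩ := hT2 p hp
      set U := p.1.image p.2 with hU
      have hUc : U.card ≤ t := hp1 ▸ card_image_le
      set Bad := C.filter (fun x => k < (S x ∩ U).card) with hBad
      have h1 : Bad.card * k ≤ ∑ x ∈ C, (S x ∩ U).card := by
        calc Bad.card * k = ∑ x ∈ Bad, k := by rw [sum_const, smul_eq_mul]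
          _ ≤ ∑ x ∈ Bad, (S x ∩ U).card := sum_le_sum fun x hx => ((mem_filter.1 hx).2).le
          _ ≤ ∑ x ∈ C, (S x ∩ U).card := sum_le_sum_of_subset (filter_subset _ _)
      have h2 : ∑ x ∈ C, (S x ∩ U).card = ∑ r ∈ U, (C.filter (fun x => r ∈ S x)).card := by
        have e1 : ∀ x, (S x ∩ U).card = ∑ r ∈ U, if r ∈ S x then 1 else 0 := by
          intro x
          rw [inter_comm, ← filter_mem_eq_inter, card_filter]
        simp_rw [e1, card_filter]
        rw [sum_comm]
      have h3 : ∑ r ∈ U, (C.filter (fun x => r ∈ S x)).card ≤ t * (R * k) := by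
        calc ∑ r ∈ U, (C.filter (fun x => r ∈ S x)).card ≤ ∑ r ∈ U, R * k :=
              sum_le_sum fun r _ => hrow r
          _ = U.card * (R * k) := by rw [sum_const, smul_eq_mul]
          _ ≤ t * (R * k) := Nat.mul_le_mul_right _ hUc
      have h4 : Bad.card ≤ R * t := by
        have : Bad.card * k ≤ (R * t) * k := by
          calc Bad.card * k ≤ t * (R * k) := h1.trans (h2 ▸ h3)
            _ = (R * t) * k := by ring
        exact Nat.le_of_mul_le_mul_right this (by omega)
      have h5 : (Bad ∪ p.1).card < C.card := by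
        calc (Bad ∪ p.1).card ≤ Bad.card + p.1.card := card_union_le _ _
          _ ≤ R * t + t := by omega
          _ = (R + 1) * t := by ring
          _ < C.card := htt
      obtain ⟨x, hxC, hx⟩ := exists_mem_notMem_of_card_lt_card h5
      rw [mem_union, not_or] at hx
      refine ⟨x, hxC, hx.2, ?_⟩
      have h6 : (S x ∩ U).card ≤ k := by
        by_contra h
        exact hx.1 (mem_filter.2 ⟨hxC, by omega⟩)
      have h7 := card_sdiff_add_card_inter (S x) U
      have h8 := hS x hxC
      omega
    obtain ⟨x₀, -⟩ : C.Nonempty := card_pos.1 (by omega)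
    have : Nonempty (Fin m) := ⟨x₀⟩
    choose! X hXC hXn hXk using hx
    let ext : Finset (Fin m) × (Fin m → Fin m) → Fin m → Finset (Fin m) × (Fin m → Fin m) :=
      fun p r => (insert (X p) p.1, Function.update p.2 (X p) r)
    have hext : ∀ p ∈ T, ∀ r, ∀ x ∈ p.1, x ∈ (ext p r).1 ∧ (ext p r).2 x = p.2 x := by
      intro p hp r x hx
      have : x ≠ X p := fun h => hXn p hp (h ▸ hx)
      exact ⟨mem_insert_of_mem hx, Function.update_of_ne this _ _⟩
    have hextX : ∀ p r, X p ∈ (ext p r).1 ∧ (ext p r).2 (X p) = r := by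
      intro p r
      exact ⟨mem_insert_self _ _, Function.update_self _ _ _⟩
    refine ⟨T.biUnion (fun p => (S (X p) \ p.1.image p.2).image (ext p)), ?_, ?_, ?_⟩
    · rw [card_biUnion]
      · calc k ^ (t + 1) = k ^ t * k := pow_succ _ _
          _ ≤ T.card * k := Nat.mul_le_mul_right _ hT1
          _ = ∑ p ∈ T, k := by rw [sum_const, smul_eq_mul]
          _ ≤ _ := by
            apply sum_le_sum
            intro p hp
            rw [card_image_of_injective]
            · exact hXk p hp
            · intro r r' h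
              have h1 := (hextX p r).2
              have h2 := (hextX p r').2
              rw [← h1, ← h2, h]
      · intro p hp q hq hpq
        rw [Function.onFun, disjoint_left]
        intro y hy hy'
        rw [mem_image] at hy hy'
        obtain ⟨r, -, rfl⟩ := hy
        obtain ⟨r', -, h⟩ := hy'
        obtain ⟨x, hxp, hxq, hne⟩ := hT3 p hp q hq hpq
        apply hne
        rw [← (hext p hp r x hxp).2, ← (hext q hq r' x hxq).2, h]
    · intro p' hp'
      rw [mem_biUnion] at hp'
      obtain ⟨p, hp, hp'⟩ := hp'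
      rw [mem_image] at hp'
      obtain ⟨r, hr, rfl⟩ := hp'
      rw [mem_sdiff] at hr
      obtain ⟨hp1, hp2, hp3⟩ := hT2 p hp
      refine ⟨?_, ?_, ?_⟩
      · show (insert (X p) p.1).card = t + 1
        rw [card_insert_of_notMem (hXn p hp), hp1]
      · intro x hx y hy hxy
        have hx' : x = X p ∨ x ∈ p.1 := mem_insert.1 (mem_coe.1 hx)
        have hy' : y = X p ∨ y ∈ p.1 := mem_insert.1 (mem_coe.1 hy)
        rcases hx' with rfl | hx'
        · rcases hy' with rfl | hy'
          · rfl
          · exfalso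
            rw [(hextX p r).2, (hext p hp r y hy').2] at hxy
            exact hr.2 (hxy ▸ mem_image_of_mem _ hy')
        · rcases hy' with rfl | hy'
          · exfalso
            rw [(hextX p r).2, (hext p hp r x hx').2] at hxy
            exact hr.2 (hxy ▸ mem_image_of_mem _ hx')
          · rw [(hext p hp r x hx').2, (hext p hp r y hy').2] at hxy
            exact hp2 hx' hy' hxy
      · intro x hx
        have hx' : x = X p ∨ x ∈ p.1 := mem_insert.1 hx
        rcases hx' with rfl | hx'
        · rw [(hextX p r).2]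
          exact hr.1
        · rw [(hext p hp r x hx').2]
          exact hp3 x hx'
    · intro p' hp' q' hq' hne
      rw [mem_biUnion] at hp' hq'
      obtain ⟨p, hp, hp'⟩ := hp'
      obtain ⟨q, hq, hq'⟩ := hq'
      rw [mem_image] at hp' hq'
      obtain ⟨r, hr, rfl⟩ := hp'
      obtain ⟨r', hr', rfl⟩ := hq'
      by_cases hpq : p = q
      · subst hpq
        refine ⟨X p, (hextX p r).1, (hextX p r').1, ?_⟩
        rw [(hextX p r).2, (hextX p r').2]
        rintro rfl
        exact hne rfl
      · obtain ⟨x, hxp, hxq, hxne⟩ := hT3 p hp q hq hpq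
        refine ⟨x, (hext p hp r x hxp).1, (hext q hq r' x hxq).1, ?_⟩
        rw [(hext p hp r x hxp).2, (hext q hq r' x hxq).2]
        exact hxne

/-- The number of choice functions with a given domain. -/
private lemma fibre {N m z : ℕ} (F : Set (Set (Equiv.Perm (Fin N)))) (c : ℝ)
    (hc : ∀ n : ℕ, ∀ P : Finset (Equiv.Perm (Fin n)),
      Restricted F (P : Set (Equiv.Perm (Fin n))) → (P.card : ℝ) ≤ c ^ n)
    (M : Finset (Fin m × Fin m)) (hM : ¬ Hits M F) (Z : Finset (Fin m)) (hZ : Z.card = z)
    (B : Finset (Fin m → Fin m)) (hB1 : ∀ b ∈ B, Set.InjOn b Z)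
    (hB2 : ∀ b ∈ B, ∀ x ∈ Z, (x, b x) ∈ M)
    (hB3 : ∀ b ∈ B, ∀ b' ∈ B, (∀ x ∈ Z, b x = b' x) → b = b') :
    (B.card : ℝ) ≤ |c| ^ z * 2 ^ (z + m) := by
  classical
  let e : Fin z ↪o Fin m := Z.orderEmbOfFin hZ
  have he : ∀ i, e i ∈ Z := fun i => Z.orderEmbOfFin_mem hZ i
  have hsurj : ∀ x ∈ Z, ∃ i, e i = x := by
    intro x hx
    have := Z.range_orderEmbOfFin hZ
    have h2 : x ∈ Set.range (Z.orderEmbOfFin hZ) := by rw [this]; exact hx
    exact h2
  have hrk : ∀ b : Fin z → Fin m, ∃ π : Equiv.Perm (Fin z),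
      ∀ x y, π x < π y ↔ toLex (b x, x) < toLex (b y, y) := by
    intro b
    apply exists_rank (fun x => toLex (b x, x))
    intro x y h
    have := (Prod.ext_iff.1 (toLex.injective h)).2
    exact this
  choose ρ hρ using hrk
  let B' : Finset (Fin z → Fin m) := B.image (fun b i => b (e i))
  have hB' : B'.card = B.card := by
    apply card_image_of_injOn
    intro b hb b' hb' h
    apply hB3 b hb b' hb'
    intro x hx
    obtain ⟨i, rfl⟩ := hsurj x hx
    exact congrFun h i
  have hcount := count_le' (univ : Finset (Fin m)) (by simp : (univ : Finset (Fin m)).card ≤ m)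
    B' (fun _ _ _ => mem_univ _) ρ hρ
  have hres : Restricted F ((B'.image ρ : Finset _) : Set (Equiv.Perm (Fin z))) := by
    intro X
    by_contra hcon
    push Not at hcon
    apply hM
    refine ⟨X.trans e, ?_⟩
    intro A hA
    obtain ⟨τ, hτ, π, hπ, hres⟩ := hcon A hA
    rw [mem_coe, mem_image] at hπ
    obtain ⟨b', hb', rfl⟩ := hπ
    obtain ⟨b, hb, rfl⟩ := mem_image.1 hb'
    refine ⟨τ, hτ, fun a => b (e (X a)), ?_, ?_⟩
    · intro a
      exact hB2 b hb _ (he _)
    · intro a a'
      rw [hres a a', hρ, Prod.Lex.toLex_lt_toLex]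
      constructor
      · rintro (h | ⟨h, h'⟩)
        · exact h
        · exfalso
          have := e.injective (hB1 b hb (he _) (he _) h)
          exact absurd h' (by simp [this])
      · intro h
        exact Or.inl h
  have h1 := hc z _ hres
  have h2 : ((B'.image ρ).card : ℝ) ≤ |c| ^ z := h1.trans ((le_abs_self _).trans (abs_pow c z).le)
  calc (B.card : ℝ) = (B'.card : ℝ) := by rw [hB']
    _ ≤ (((B'.image ρ).card * 2 ^ (z + m) : ℕ) : ℝ) := by exact_mod_cast hcount
    _ = ((B'.image ρ).card : ℝ) * 2 ^ (z + m) := by push_cast; rfl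
    _ ≤ |c| ^ z * 2 ^ (z + m) := by gcongr

theorem conv {N : ℕ} (F : Set (Set (Equiv.Perm (Fin N)))) (h : ExponentialBehaviour F) (D : ℕ) :
    ∃ k : ℕ, 1 ≤ k ∧ DenseHits D k F := by
  classical
  obtain ⟨c, hc⟩ := h
  let A : ℕ := 2 * D * (4 * D + 1)
  obtain ⟨k, hk⟩ := exists_nat_gt (|c| * 2 ^ (1 + 2 * A))
  have hk0 : (0 : ℝ) < k := lt_of_le_of_lt (by positivity) hk
  have hk1 : 1 ≤ k := by exact_mod_cast hk0
  refine ⟨4 * k, by omega, ?_⟩
  intro m hm M hdeg hcard
  by_contra hM
  let S : Fin m → Finset (Fin m) := fun x => univ.filter (fun r => (x, r) ∈ M)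
  have hScard : ∀ x, (S x).card = (M.filter (fun p => p.1 = x)).card := by
    intro x
    apply card_bij (fun r _ => (x, r))
    · intro r hr
      exact mem_filter.2 ⟨(mem_filter.1 hr).2, rfl⟩
    · intro r _ r' _ h
      exact (Prod.ext_iff.1 h).2
    · rintro ⟨y, r⟩ hp
      rw [mem_filter] at hp
      obtain ⟨hp1, hp2⟩ := hp
      simp only at hp2
      subst hp2
      exact ⟨r, mem_filter.2 ⟨mem_univ _, hp1⟩, rfl⟩
  let C : Finset (Fin m) := univ.filter (fun x => 2 * k ≤ (S x).card)
  have hsum : M.card = ∑ x, (S x).card := by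
    rw [card_eq_sum_card_fiberwise (f := fun p : Fin m × Fin m => p.1) (t := univ)
      (fun _ _ => mem_coe.2 (mem_univ _))]
    exact sum_congr rfl fun x _ => (hScard x).symm
  have hmC : m ≤ 2 * D * C.card := by
    have h1 : ∑ x, (S x).card ≤ ∑ x : Fin m, ((if x ∈ C then D * (4 * k) else 0) + 2 * k) := by
      apply sum_le_sum
      intro x _
      by_cases hx : x ∈ C
      · rw [if_pos hx, hScard]
        have := hdeg.1 x
        omega
      · rw [if_neg hx]
        have : ¬ 2 * k ≤ (S x).card := fun h => hx (mem_filter.2 ⟨mem_univ _, h⟩)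
        omega
    rw [sum_add_distrib, sum_ite_mem, univ_inter, sum_const, sum_const, smul_eq_mul, smul_eq_mul,
      card_univ, Fintype.card_fin] at h1
    have h2 : 4 * k * m ≤ C.card * (D * (4 * k)) + m * (2 * k) := by
      rw [hsum] at hcard
      exact hcard.trans h1
    have h3 : (2 * k) * m ≤ (2 * k) * (2 * D * C.card) := by nlinarith
    exact Nat.le_of_mul_le_mul_left h3 (by omega)
  obtain ⟨z, hz1, hz2⟩ : ∃ z, C.card ≤ (4 * D + 1) * z ∧ ∀ t < z, (4 * D + 1) * t < C.card := by
    have hex : ∃ z, C.card ≤ (4 * D + 1) * z := ⟨C.card, by nlinarith⟩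
    refine ⟨Nat.find hex, Nat.find_spec hex, fun t ht => ?_⟩
    have := Nat.find_min hex ht
    omega
  have hmz : m ≤ A * z := by
    calc m ≤ 2 * D * C.card := hmC
      _ ≤ 2 * D * ((4 * D + 1) * z) := Nat.mul_le_mul_left _ hz1
      _ = A * z := by simp only [A]; ring
  have hz0 : z ≠ 0 := by
    rintro rfl
    rw [mul_zero] at hmz
    omega
  obtain ⟨T, hT1, hT2, hT3⟩ := family S C k (4 * D) hk1 (fun x hx => (mem_filter.1 hx).2) (by
    intro r
    have h1 : (C.filter (fun x => r ∈ S x)).card ≤ (M.filter (fun p => p.2 = r)).card := by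
      apply card_le_card_of_injOn (fun x => (x, r))
      · intro x hx
        rw [mem_coe, mem_filter] at hx
        rw [mem_coe, mem_filter]
        exact ⟨(mem_filter.1 hx.2).2, rfl⟩
      · intro x _ y _ h
        exact (Prod.ext_iff.1 h).1
    have h2 := hdeg.2 r
    nlinarith) z hz2
  -- bound the number of elements of `T`
  have hTZ : ∀ Z ∈ (univ : Finset (Finset (Fin m))),
      ((T.filter (fun p => p.1 = Z)).card : ℝ) ≤ |c| ^ z * 2 ^ (z + m) := by
    intro Z _
    by_cases hZ : Z.card = z
    · have h1 : (T.filter (fun p => p.1 = Z)).card =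
          ((T.filter (fun p => p.1 = Z)).image (fun p => p.2)).card := by
        rw [card_image_of_injOn]
        intro p hp q hq h
        rw [mem_coe, mem_filter] at hp hq
        exact Prod.ext (hp.2.trans hq.2.symm) h
      rw [h1]
      apply fibre F c hc M hM Z hZ
      · intro b hb
        obtain ⟨p, hp, rfl⟩ := mem_image.1 hb
        rw [mem_filter] at hp
        rw [← hp.2]
        exact (hT2 p hp.1).2.1
      · intro b hb x hx
        obtain ⟨p, hp, rfl⟩ := mem_image.1 hb
        rw [mem_filter] at hp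
        rw [← hp.2] at hx
        exact (mem_filter.1 ((hT2 p hp.1).2.2 x hx)).2
      · intro b hb b' hb' hbb
        obtain ⟨p, hp, rfl⟩ := mem_image.1 hb
        obtain ⟨q, hq, rfl⟩ := mem_image.1 hb'
        rw [mem_filter] at hp hq
        by_contra hne
        obtain ⟨x, hxp, -, hx⟩ := hT3 p hp.1 q hq.1 (fun h => hne (by rw [h]))
        rw [hp.2] at hxp
        exact hx (hbb x hxp)
    · have : T.filter (fun p => p.1 = Z) = ∅ := by
        rw [filter_eq_empty_iff]
        intro p hp h
        exact hZ (h ▸ (hT2 p hp).1)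
      rw [this, card_empty, Nat.cast_zero]
      positivity
  have hT4 : (T.card : ℝ) ≤ 2 ^ m * (|c| ^ z * 2 ^ (z + m)) := by
    rw [card_eq_sum_card_fiberwise (f := fun p : Finset (Fin m) × (Fin m → Fin m) => p.1)
      (t := univ) (fun _ _ => mem_coe.2 (mem_univ _))]
    push_cast
    refine (sum_le_sum hTZ).trans ?_
    rw [sum_const, card_univ, Fintype.card_finset, Fintype.card_fin, nsmul_eq_mul]
    push_cast
    exact le_rfl
  have hfin : (k : ℝ) ^ z ≤ (|c| * 2 ^ (1 + 2 * A)) ^ z := by
    calc (k : ℝ) ^ z = ((k ^ z : ℕ) : ℝ) := by push_cast; rfl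
      _ ≤ (T.card : ℝ) := by exact_mod_cast hT1
      _ ≤ 2 ^ m * (|c| ^ z * 2 ^ (z + m)) := hT4
      _ = |c| ^ z * 2 ^ (z + 2 * m) := by ring
      _ ≤ |c| ^ z * 2 ^ (z + 2 * (A * z)) := by
        gcongr
        · norm_num
      _ = (|c| * 2 ^ (1 + 2 * A)) ^ z := by
        rw [mul_pow, ← pow_mul]
        ring_nf
  have := lt_of_lt_of_le (pow_lt_pow_left₀ hk (by positivity) hz0) hfin
  exact lt_irrefl _ this

end Pool.Agent.Work.MP_8eaa9c_co
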