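import Pool.Agent.Work.MP_8eaa9c_co.Defs

/-!
Dense balanced 0-1 matrices hitting a collection of sets of patterns.
-/

namespace Pool.Agent.Work.MP_8eaa9c_co

open Finset

/-- The set `M` of entries (columns times rows) hits `F`: there are `N` columns `X` such that every
member of `F` has a pattern `τ` realised by entries of `M` in these columns, in distinct rows. -/
def Hits {N m : ℕ} (M : Finset (Fin m × Fin m)) (F : Set (Set (Equiv.Perm (Fin N)))) : Prop :=
  ∃ X : Fin N ↪o Fin m, ∀ A ∈ F, ∃ τ ∈ A, ∃ r : Fin N → Fin m,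
    (∀ a, (X a, r a) ∈ M) ∧ ∀ a b, τ a < τ b ↔ r a < r b

/-- `M` has at most `d` entries in every column and in every row. -/
def MaxDeg {m : ℕ} (d : ℕ) (M : Finset (Fin m × Fin m)) : Prop :=
  (∀ x, (M.filter (fun p => p.1 = x)).card ≤ d) ∧ ∀ r, (M.filter (fun p => p.2 = r)).card ≤ d

/-- Every `m × m` matrix with at least `k m` entries, at most `D k` of them in each row and each
column, hits `F`. -/
def DenseHits {N : ℕ} (D k : ℕ) (F : Set (Set (Equiv.Perm (Fin N)))) : Prop :=
  ∀ m : ℕ, 1 ≤ m → ∀ M : Finset (Fin m × Fin m), MaxDeg (D * k) M → k * m ≤ M.card → Hits M F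

end Pool.Agent.Work.MP_8eaa9c_co
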