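import Pool.Agent.Work.MP_8eaa9c_co.Red.NShape
import Pool.Agent.Work.MP_8eaa9c_co.Red.Hits

/-!
Module RUNS: collections each of whose members contains an up-down-up pattern and a down-up-down
pattern are hit by all dense matrices.

Take `K` from `es N`, `C` from `nshape K`, `k = 2 C + 1`.  A matrix `M` (columns × rows) with at least
`k m` entries has more than `C (n + R)` entries (`n, R ≤ m`), so it has an N-shape `y, p, q, r` of size `K`
(letters = columns; map rows to `ℕ`); `es` gives `e` with `y ∘ e` increasing or decreasing.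
Increasing: `X = y ∘ e`.  For `A ∈ F` take `σ ∈ A` with `UDU σ`, cut points `i ≤ j`, and the rows
`r a = p (e a)` if `σ a < i`, `q (e a)` if `i ≤ σ a < j`, `r (e a)` if `j ≤ σ a`.
Decreasing: `X a = y (e (rev a))`, same with `DUD σ` and `p (e (rev a))` etc.
-/

namespace Pool.Agent.Work.MP_8eaa9c_co

open Finset

/-- The word `σ⁻¹(1), ..., σ⁻¹(N)` consists of an increasing, a decreasing and an increasing part
(possibly empty). -/
def UpDownUp {N : ℕ} (σ : Equiv.Perm (Fin N)) : Prop :=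
  ∃ i j : ℕ, i ≤ j ∧ (∀ v w : Fin N, v < w → (w : ℕ) < i → σ.symm v < σ.symm w) ∧
    (∀ v w : Fin N, v < w → i ≤ v → (w : ℕ) < j → σ.symm w < σ.symm v) ∧
    ∀ v w : Fin N, v < w → j ≤ v → σ.symm v < σ.symm w

/-- The word `σ⁻¹(1), ..., σ⁻¹(N)` consists of a decreasing, an increasing and a decreasing part
(possibly empty). -/
def DownUpDown {N : ℕ} (σ : Equiv.Perm (Fin N)) : Prop :=
  ∃ i j : ℕ, i ≤ j ∧ (∀ v w : Fin N, v < w → (w : ℕ) < i → σ.symm w < σ.symm v) ∧
    (∀ v w : Fin N, v < w → i ≤ v → (w : ℕ) < j → σ.symm v < σ.symm w) ∧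
    ∀ v w : Fin N, v < w → j ≤ v → σ.symm w < σ.symm v

/-- the common part of the two cases -/
private theorem runs_aux {N K m : ℕ} (M : Finset (Fin m × Fin m)) (y : Fin K → Fin m)
    (p q r : Fin K → Fin m) (hp : ∀ i j, i < j → p i < p j) (hq : ∀ i j, i < j → q j < q i)
    (hr : ∀ i j, i < j → r i < r j) (hpq : ∀ i j, p i < q j) (hqr : ∀ i j, q i < r j)
    (hpM : ∀ i, (y i, p i) ∈ M) (hqM : ∀ i, (y i, q i) ∈ M) (hrM : ∀ i, (y i, r i) ∈ M)
    (f : Fin N → Fin K) (σ : Equiv.Perm (Fin N)) (i j : ℕ) (hij : i ≤ j)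
    (h1 : ∀ v w : Fin N, v < w → (w : ℕ) < i → f (σ.symm v) < f (σ.symm w))
    (h2 : ∀ v w : Fin N, v < w → i ≤ v → (w : ℕ) < j → f (σ.symm w) < f (σ.symm v))
    (h3 : ∀ v w : Fin N, v < w → j ≤ v → f (σ.symm v) < f (σ.symm w)) :
    ∃ R : Fin N → Fin m, (∀ a, (y (f a), R a) ∈ M) ∧ ∀ a b, σ a < σ b ↔ R a < R b := by
  have hpr : ∀ a b, p a < r b := fun a b => (hpq a a).trans (hqr a b)
  let R : Fin N → Fin m := fun a =>
    if (σ a : ℕ) < i then p (f a) else if (σ a : ℕ) < j then q (f a) else r (f a)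
  have hmono : ∀ a b, σ a < σ b → R a < R b := by
    intro a b hab
    have hab' : (σ a : ℕ) < σ b := hab
    simp only [R]
    by_cases a1 : (σ a : ℕ) < i
    · rw [if_pos a1]
      by_cases b1 : (σ b : ℕ) < i
      · rw [if_pos b1]
        apply hp
        have := h1 _ _ hab b1
        rwa [Equiv.symm_apply_apply, Equiv.symm_apply_apply] at this
      · rw [if_neg b1]
        by_cases b2 : (σ b : ℕ) < j
        · rw [if_pos b2]
          exact hpq _ _
        · rw [if_neg b2]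
          exact hpr _ _
    · rw [if_neg a1]
      have b1 : ¬ (σ b : ℕ) < i := by omega
      rw [if_neg b1]
      by_cases a2 : (σ a : ℕ) < j
      · rw [if_pos a2]
        by_cases b2 : (σ b : ℕ) < j
        · rw [if_pos b2]
          apply hq
          have := h2 _ _ hab (by omega) b2
          rwa [Equiv.symm_apply_apply, Equiv.symm_apply_apply] at this
        · rw [if_neg b2]
          exact hqr _ _
      · rw [if_neg a2]
        have b2 : ¬ (σ b : ℕ) < j := by omega
        rw [if_neg b2]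
        apply hr
        have := h3 _ _ hab (by omega)
        rwa [Equiv.symm_apply_apply, Equiv.symm_apply_apply] at this
  refine ⟨R, fun a => ?_, fun a b => ⟨hmono a b, fun h => ?_⟩⟩
  · simp only [R]
    split_ifs
    · exact hpM _
    · exact hqM _
    · exact hrM _
  · by_contra hc
    rcases (not_lt.1 hc).lt_or_eq with h4 | h4
    · exact absurd (hmono b a h4) (not_lt.2 h.le)
    · have := σ.injective h4
      subst this
      exact lt_irrefl _ h

theorem runs_hit {N : ℕ} (F : Set (Set (Equiv.Perm (Fin N))))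
    (h : ∀ A ∈ F, (∃ σ ∈ A, UpDownUp σ) ∧ ∃ σ ∈ A, DownUpDown σ) :
    ∃ k : ℕ, 1 ≤ k ∧ ∀ m : ℕ, 1 ≤ m → ∀ M : Finset (Fin m × Fin m), k * m ≤ M.card → Hits M F := by
  classical
  obtain ⟨K, hK⟩ := Red.es N
  obtain ⟨C, hC⟩ := Red.nshape K
  refine ⟨2 * C + 1, by omega, ?_⟩
  intro m hm M hM
  let M' : Finset (Fin m × ℕ) := M.image fun x => (x.1, (x.2 : ℕ))
  have hcard : M'.card = M.card := by
    apply Finset.card_image_of_injective
    rintro ⟨a, b⟩ ⟨a', b'⟩ hab
    simp only [Prod.mk.injEq] at hab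
    rw [Prod.mk.injEq]
    exact ⟨hab.1, Fin.ext hab.2⟩
  have c1 : (M'.image Prod.fst).card ≤ m := by
    have := Finset.card_le_univ (M'.image Prod.fst)
    simpa using this
  have c2 : (M'.image Prod.snd).card ≤ m := by
    have h1 : M'.image Prod.snd ⊆ Finset.range m := by
      intro x hx
      simp only [M', Finset.mem_image] at hx
      obtain ⟨a, ⟨b, hb, rfl⟩, rfl⟩ := hx
      rw [Finset.mem_range]
      exact b.2.2
    have := Finset.card_le_card h1
    simpa using this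
  obtain ⟨y, hy, p, q, r, hp, hq, hr, hpq, hqr, hmem⟩ := hC M' (by
    rw [hcard]
    calc C * ((M'.image Prod.fst).card + (M'.image Prod.snd).card) ≤ C * (m + m) :=
          Nat.mul_le_mul le_rfl (by omega)
      _ < (2 * C + 1) * m := by nlinarith
      _ ≤ M.card := hM)
  have hex : ∀ i t, (y i, t) ∈ M' → ∃ s : Fin m, (y i, s) ∈ M ∧ (s : ℕ) = t := by
    intro i t ht
    simp only [M', Finset.mem_image, Prod.mk.injEq] at ht
    obtain ⟨⟨a, b⟩, hb, h1, h2⟩ := ht
    simp only at h1 h2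
    subst h1
    exact ⟨b, hb, h2⟩
  choose p' hp1 hp2 using fun i => hex i (p i) (hmem i).1
  choose q' hq1 hq2 using fun i => hex i (q i) (hmem i).2.1
  choose r' hr1 hr2 using fun i => hex i (r i) (hmem i).2.2
  have gp : ∀ i j, i < j → p' i < p' j := fun i j hij => by
    rw [Fin.lt_def, hp2, hp2]
    exact hp hij
  have gq : ∀ i j, i < j → q' j < q' i := fun i j hij => by
    rw [Fin.lt_def, hq2, hq2]
    exact hq hij
  have gr : ∀ i j, i < j → r' i < r' j := fun i j hij => by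
    rw [Fin.lt_def, hr2, hr2]
    exact hr hij
  have gpq : ∀ i j, p' i < q' j := fun i j => by
    rw [Fin.lt_def, hp2, hq2]
    exact hpq i j
  have gqr : ∀ i j, q' i < r' j := fun i j => by
    rw [Fin.lt_def, hq2, hr2]
    exact hqr i j
  obtain ⟨e, he, hmon⟩ := hK (fun i => (y i : ℕ)) (fun i j hij => hy (Fin.ext hij))
  rcases hmon with hmon | hmon
  · refine ⟨OrderEmbedding.ofStrictMono (fun a => y (e a)) (fun a b hab => hmon hab), ?_⟩
    intro A hA
    obtain ⟨⟨σ, hσ, i, j, hij, h1, h2, h3⟩, -⟩ := h A hA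
    obtain ⟨R, hR1, hR2⟩ := runs_aux M y p' q' r' gp gq gr gpq gqr hp1 hq1 hr1 e σ i j hij
      (fun v w hvw hw => he (h1 v w hvw hw)) (fun v w hvw hv hw => he (h2 v w hvw hv hw))
      (fun v w hvw hv => he (h3 v w hvw hv))
    exact ⟨σ, hσ, R, hR1, hR2⟩
  · refine ⟨OrderEmbedding.ofStrictMono (fun a => y (e (Fin.rev a)))
      (fun a b hab => hmon (Fin.rev_lt_rev.2 hab)), ?_⟩
    intro A hA
    obtain ⟨-, ⟨σ, hσ, i, j, hij, h1, h2, h3⟩⟩ := h A hA
    obtain ⟨R, hR1, hR2⟩ := runs_aux M y p' q' r' gp gq gr gpq gqr hp1 hq1 hr1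
      (fun a => e (Fin.rev a)) σ i j hij
      (fun v w hvw hw => he (Fin.rev_lt_rev.2 (h1 v w hvw hw)))
      (fun v w hvw hv hw => he (Fin.rev_lt_rev.2 (h2 v w hvw hv hw)))
      (fun v w hvw hv => he (Fin.rev_lt_rev.2 (h3 v w hvw hv)))
    exact ⟨σ, hσ, R, hR1, hR2⟩

end Pool.Agent.Work.MP_8eaa9c_co
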