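import Pool.Agent.Work.MP_8eaa9c_co.Red.Plant
import Pool.Agent.Work.MP_8eaa9c_co.Red.Hits

/-!
Module COPIES: many disjoint hitting tuples bound the number `V` of realised index vectors.

Setting: `Q` is restricted for `F`; `A`, `B ⊆ Y` sets of positions, `A` disjoint from `Y`;
`σ : A → Fin t → Perm`, `t = 4 k`.  Entry `(x, l)` has row `row B x (σ x l) ≤ |B| < m`.
Let `deg γ = #{(x, l) | row = γ}`, call `γ` light if `deg γ ≤ 64 k`, and for `A' ⊆ A` let
`M(A') = {(x, γ) | x ∈ A', γ light, ∃ l, row B x (σ x l) = γ}`, `ones(A') = |M(A')|`.  Every column has at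
most `t = 4 k ≤ 64 k` ones, every row at most `64 k`.

1. `ones(A) ≥ t |A| - Coll - Pairs / (64 k)`: the number of values of a function on a set `S` is at
   least `|S| - #{l < l' | equal values}`, and the number of entries in heavy rows is at most
   `∑_{(x,l)} deg(row) / (64 k) = Pairs / (64 k)`.
2. For `A' ⊆ A` let `V(A')` be the number of `j : A → Fin t` which vanish (have value `0`) outside `A'` and
   for which some `π ∈ Q` has `gapS Y x π (σ x (j x))` for all `x ∈ A'`.  Claim:
   `V(A') ≤ t^|A'| θ^((ones(A') - k m) / (t N))`, `θ = 1 - t^(-N)`.  Strong induction on `|A'|`.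
   If `ones(A') < k m` it is trivial (`θ ≤ 1`, negative exponent).  Otherwise embed the columns `A'`
   (increasingly) and the rows into `Fin m` and apply `DenseHits`: there are `N` columns `X` in `A'`
   hitting `F`.  Let `𝒜 ∈ F` be the member forbidden at `X` (as positions in `Fin n`) for `Q`, take
   `τ ∈ 𝒜` and rows `r a`, and indices `l a` with `row B (X a) (σ (X a) (l a)) = r a`.  No `π ∈ Q` has
   `gapS Y (X a) π (σ (X a) (l a))` for all `a`: otherwise `row B (X a) π = r a` (as `B ⊆ Y`) and
   `r a < r b` implies `π (X a) < π (X b)`, so `π` would have restriction `τ` at `X`.  With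
   `A'' = A' \ X` the map `j ↦ (j` restricted to `A''`, `j` restricted to `X)` is injective and its second
   component avoids one of `t^N` values, so `V(A') ≤ V(A'') (t^N - 1) = V(A'') t^N θ`;
   `ones(A'') ≥ ones(A') - t N`.
3. Take `A' = A` and logarithms.
-/

namespace Pool.Agent.Work.MP_8eaa9c_co.Red

open Finset

/-- the light entries in the columns `S` -/
private def copiesM {ι : Type*} [Fintype ι] [DecidableEq ι] {t m : ℕ} (K : ℕ)
    (ρ : ι × Fin t → Fin m) (S : Finset ι) : Finset (ι × Fin m) :=
  ((S ×ˢ (univ : Finset (Fin t))).filter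
    (fun p => (univ.filter (fun p' => ρ p' = ρ p)).card ≤ K)).image (fun p => (p.1, ρ p))

private lemma copies_mem {ι : Type*} [Fintype ι] [DecidableEq ι] {t m : ℕ} {K : ℕ}
    {ρ : ι × Fin t → Fin m} {S : Finset ι} {q : ι × Fin m} :
    q ∈ copiesM K ρ S ↔ ∃ l : Fin t, q.1 ∈ S ∧
      (univ.filter (fun p' => ρ p' = ρ (q.1, l))).card ≤ K ∧ ρ (q.1, l) = q.2 := by
  unfold copiesM
  rw [mem_image]
  constructor
  · rintro ⟨p, hp, rfl⟩
    rw [mem_filter, mem_product] at hp
    exact ⟨p.2, hp.1.1, hp.2, rfl⟩
  · rintro ⟨l, h1, h2, h3⟩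
    refine ⟨(q.1, l), ?_, ?_⟩
    · rw [mem_filter, mem_product]
      exact ⟨⟨h1, mem_univ _⟩, h2⟩
    · rw [h3]

/-- at least `t |ι| - Coll - Pairs / K` light entries -/
private lemma copies_ones {ι : Type*} [Fintype ι] [DecidableEq ι] {t m : ℕ} (K : ℕ)
    (ρ : ι × Fin t → Fin m) :
    K * (Fintype.card ι * t) ≤ K * (copiesM K ρ univ).card +
      K * (univ.filter (fun p : ι × Fin t × Fin t =>
        p.2.1 < p.2.2 ∧ ρ (p.1, p.2.1) = ρ (p.1, p.2.2))).card +
      (univ.filter (fun p : (ι × Fin t) × (ι × Fin t) => ρ p.1 = ρ p.2)).card := by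
  classical
  set E : Finset (ι × Fin t) := univ with hE
  set deg : ι × Fin t → ℕ := fun p => (univ.filter (fun p' => ρ p' = ρ p)).card with hdeg
  have hEc : E.card = Fintype.card ι * t := by
    rw [hE, card_univ, Fintype.card_prod, Fintype.card_fin]
  set C : Finset (ι × Fin t × Fin t) := univ.filter (fun p : ι × Fin t × Fin t =>
        p.2.1 < p.2.2 ∧ ρ (p.1, p.2.1) = ρ (p.1, p.2.2)) with hC
  -- light and heavy
  have h1 : (E.filter (fun p => deg p ≤ K)).card + (E.filter (fun p => ¬ deg p ≤ K)).card =
      E.card := card_filter_add_card_filter_not _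
  -- heavy
  have h2 : K * (E.filter (fun p => ¬ deg p ≤ K)).card ≤
      (univ.filter (fun p : (ι × Fin t) × (ι × Fin t) => ρ p.1 = ρ p.2)).card := by
    have h3 : (univ.filter (fun p : (ι × Fin t) × (ι × Fin t) => ρ p.1 = ρ p.2)).card =
        ∑ p : ι × Fin t, deg p := by
      rw [card_filter, ← univ_product_univ, sum_product_right]
      refine sum_congr rfl fun p _ => ?_
      rw [hdeg]
      simp only
      rw [card_filter]
    rw [h3]
    calc K * (E.filter (fun p => ¬ deg p ≤ K)).card
        = ∑ p ∈ E.filter (fun p => ¬ deg p ≤ K), K := by rw [sum_const, smul_eq_mul, mul_comm]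
      _ ≤ ∑ p ∈ E.filter (fun p => ¬ deg p ≤ K), deg p :=
          sum_le_sum fun p hp => (not_le.1 (mem_filter.1 hp).2).le
      _ ≤ ∑ p ∈ E, deg p := sum_le_sum_of_subset (filter_subset _ _)
  -- first occurrences
  set Fst : Finset (ι × Fin t) := (E.filter (fun p => deg p ≤ K)).filter
    (fun p => ∀ l, l < p.2 → ρ (p.1, l) ≠ ρ p) with hFst
  set Nf : Finset (ι × Fin t) := (E.filter (fun p => deg p ≤ K)).filter
    (fun p => ¬ ∀ l, l < p.2 → ρ (p.1, l) ≠ ρ p) with hNf
  have h4 : Fst.card + Nf.card = (E.filter (fun p => deg p ≤ K)).card :=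
    card_filter_add_card_filter_not _
  have h5 : Nf.card ≤ C.card := by
    have h6 : Nf ⊆ C.image (fun p => (p.1, p.2.2)) := by
      intro p hp
      rw [hNf, mem_filter] at hp
      obtain ⟨_, hp⟩ := hp
      push Not at hp
      obtain ⟨l, hl, hl'⟩ := hp
      rw [mem_image]
      refine ⟨(p.1, l, p.2), ?_, rfl⟩
      rw [hC, mem_filter]
      exact ⟨mem_univ _, hl, hl'⟩
    exact (card_le_card h6).trans card_image_le
  have h7 : Fst.card ≤ (copiesM K ρ univ).card := by
    refine card_le_card_of_injOn (fun p => (p.1, ρ p)) ?_ ?_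
    · intro p hp
      have hp' := mem_coe.1 hp
      rw [hFst, mem_filter, mem_filter] at hp'
      rw [mem_coe, copies_mem]
      exact ⟨p.2, mem_univ _, hp'.1.2, rfl⟩
    · intro p hp q hq hpq
      have hp' := mem_coe.1 hp
      have hq' := mem_coe.1 hq
      rw [hFst, mem_filter, mem_filter] at hp' hq'
      simp only [Prod.mk.injEq] at hpq
      obtain ⟨hx, hρ⟩ := hpq
      apply Prod.ext hx
      rcases lt_trichotomy p.2 q.2 with h | h | h
      · exfalso
        refine hq'.2 p.2 h ?_
        rw [← hx]
        exact hρ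
      · exact h
      · exfalso
        refine hp'.2 q.2 h ?_
        rw [hx]
        exact hρ.symm
  have h8 : E.card ≤ (copiesM K ρ univ).card + C.card + (E.filter (fun p => ¬ deg p ≤ K)).card := by
    omega
  calc K * (Fintype.card ι * t) = K * E.card := by rw [hEc]
    _ ≤ K * ((copiesM K ρ univ).card + C.card + (E.filter (fun p => ¬ deg p ≤ K)).card) :=
        Nat.mul_le_mul_left _ h8
    _ = K * (copiesM K ρ univ).card + K * C.card +
        K * (E.filter (fun p => ¬ deg p ≤ K)).card := by ring
    _ ≤ _ := by omega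

/-- removing `N` columns removes at most `t N` entries -/
private lemma copies_sdiff {ι : Type*} [Fintype ι] [DecidableEq ι] {t m N : ℕ} (K : ℕ)
    (ρ : ι × Fin t → Fin m) (S : Finset ι) (x : Fin N → ι) :
    (copiesM K ρ S).card ≤ (copiesM K ρ (S \ univ.image x)).card + t * N := by
  classical
  have h1 : copiesM K ρ S ⊆ copiesM K ρ (S \ univ.image x) ∪
      (univ : Finset (Fin t × Fin N)).image (fun p => (x p.2, ρ (x p.2, p.1))) := by
    intro q hq
    rw [copies_mem] at hq
    obtain ⟨l, h1, h2, h3⟩ := hq
    rw [mem_union]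
    by_cases h : q.1 ∈ univ.image x
    · right
      rw [mem_image] at h
      obtain ⟨a, _, ha⟩ := h
      rw [mem_image]
      refine ⟨(l, a), mem_univ _, ?_⟩
      simp only
      rw [ha, h3]
    · left
      rw [copies_mem]
      exact ⟨l, mem_sdiff.2 ⟨h1, h⟩, h2, h3⟩
  refine (card_le_card h1).trans ((card_union_le _ _).trans ?_)
  have h2 : ((univ : Finset (Fin t × Fin N)).image
      (fun p => (x p.2, ρ (x p.2, p.1)))).card ≤ t * N := by
    refine card_image_le.trans ?_
    rw [card_univ, Fintype.card_prod, Fintype.card_fin, Fintype.card_fin]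
  omega

/-- a set of functions not depending on the coordinates `x a` -/
private lemma copies_indep {ι : Type*} [Fintype ι] [DecidableEq ι] {t N : ℕ}
    (J : Finset (ι → Fin t)) (x : Fin N → ι) (l : Fin N → Fin t)
    (hx : Function.Injective x)
    (hJ : ∀ j j' : ι → Fin t, (∀ y, y ∉ (univ : Finset (Fin N)).image x → j y = j' y) →
      j ∈ J → j' ∈ J) :
    J.card ≤ (J.filter (fun j => ∀ a, j (x a) = l a)).card * t ^ N := by
  classical
  have h1 : ((J.filter (fun j => ∀ a, j (x a) = l a)) ×ˢ
      (univ : Finset (Fin N → Fin t))).card =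
      (J.filter (fun j => ∀ a, j (x a) = l a)).card * t ^ N := by
    rw [card_product, card_univ, Fintype.card_fun, Fintype.card_fin, Fintype.card_fin]
  rw [← h1]
  -- overwrite
  let ow : (ι → Fin t) → (ι → Fin t) := fun j y =>
    if h : ∃ a, x a = y then l h.choose else j y
  have how1 : ∀ j a, ow j (x a) = l a := by
    intro j a
    have h : ∃ b, x b = x a := ⟨a, rfl⟩
    have h2 : h.choose = a := hx h.choose_spec
    show (if h : ∃ b, x b = x a then l h.choose else j (x a)) = l a
    rw [dif_pos h, h2]
  have how2 : ∀ j y, y ∉ (univ : Finset (Fin N)).image x → ow j y = j y := by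
    intro j y hy
    have h : ¬ ∃ a, x a = y := by
      rintro ⟨a, ha⟩
      exact hy (mem_image.2 ⟨a, mem_univ _, ha⟩)
    exact dif_neg h
  refine card_le_card_of_injOn (fun j => (ow j, fun a => j (x a))) ?_ ?_
  · intro j hj
    rw [mem_coe, mem_product, mem_filter]
    refine ⟨⟨hJ j (ow j) (fun y hy => (how2 j y hy).symm) (mem_coe.1 hj), fun a => how1 j a⟩,
      mem_univ _⟩
  · intro j _ j' _ hjj
    simp only [Prod.mk.injEq] at hjj
    funext y
    by_cases h : y ∈ (univ : Finset (Fin N)).image x
    · obtain ⟨a, _, ha⟩ := mem_image.1 h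
      rw [← ha]
      exact congrFun hjj.2 a
    · rw [← how2 j y h, ← how2 j' y h, hjj.1]

/-- the induction -/
private lemma copies_ind {ι : Type*} [Fintype ι] [DecidableEq ι] {t m N : ℕ} (K km : ℕ)
    (hN : 1 ≤ N) (ht : 2 ≤ t)
    (ρ : ι × Fin t → Fin m) (J : Finset ι → Finset (ι → Fin t))
    (hanti : ∀ S S', S ⊆ S' → J S' ⊆ J S)
    (hdep : ∀ S (j j' : ι → Fin t), (∀ y ∈ S, j y = j' y) → j ∈ J S → j' ∈ J S)
    (hstep : ∀ S, km ≤ (copiesM K ρ S).card → ∃ x : Fin N → ι, Function.Injective x ∧
      (∀ a, x a ∈ S) ∧ ∃ l : Fin N → Fin t, ∀ j ∈ J S, ∃ a, j (x a) ≠ l a) :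
    ∀ (c : ℕ) (S : Finset ι), S.card = c → 0 < (J S).card →
      (-Real.log (1 - 1 / (t : ℝ) ^ N)) / (t * N) * (((copiesM K ρ S).card : ℝ) - km) ≤
        Real.log ((t : ℝ) ^ Fintype.card ι / (J S).card) := by
  classical
  have ht0 : (0 : ℝ) < t := by
    have : (2 : ℝ) ≤ t := by exact_mod_cast ht
    linarith
  have htN : (1 : ℝ) < (t : ℝ) ^ N := by
    have h2 : (2 : ℝ) ≤ t := by exact_mod_cast ht
    exact one_lt_pow₀ (by linarith) (by omega)
  have hθ1 : 0 < 1 - 1 / (t : ℝ) ^ N := by
    rw [sub_pos, div_lt_one (by linarith)]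
    exact htN
  have hθ2 : 1 - 1 / (t : ℝ) ^ N < 1 := by
    have : 0 < 1 / (t : ℝ) ^ N := by positivity
    linarith
  have hL : 0 < -Real.log (1 - 1 / (t : ℝ) ^ N) := by
    have := Real.log_neg hθ1 hθ2
    linarith
  have hN0 : (0 : ℝ) < N := by exact_mod_cast hN
  set L : ℝ := -Real.log (1 - 1 / (t : ℝ) ^ N) with hLdef
  intro c
  induction c using Nat.strong_induction_on with
  | _ c ih =>
  intro S hS hpos
  have hpos' : (0 : ℝ) < (J S).card := by exact_mod_cast hpos
  have hcard : ((J S).card : ℝ) ≤ (t : ℝ) ^ Fintype.card ι := by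
    have h1 : (J S).card ≤ t ^ Fintype.card ι := by
      refine (card_le_univ _).trans ?_
      rw [Fintype.card_fun, Fintype.card_fin]
    exact_mod_cast h1
  by_cases hk : km ≤ (copiesM K ρ S).card
  · obtain ⟨x, hx, hxS, l, hl⟩ := hstep S hk
    set S' := S \ univ.image x with hS'
    have hS'S : S' ⊆ S := sdiff_subset
    have hlt : S'.card < c := by
      rw [← hS]
      apply card_lt_card
      rw [ssubset_iff_of_subset hS'S]
      refine ⟨x ⟨0, hN⟩, hxS _, ?_⟩
      rw [hS', mem_sdiff, not_and_not_right]
      intro _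
      exact mem_image_of_mem _ (mem_univ _)
    have hpos2 : 0 < (J S').card := lt_of_lt_of_le hpos (card_le_card (hanti _ _ hS'S))
    have h1 := ih _ hlt S' rfl hpos2
    have hpos2' : (0 : ℝ) < (J S').card := by exact_mod_cast hpos2
    -- the count
    have h2 := copies_indep (J S') x l hx (fun j j' h => hdep S' j j' (fun y hy => h y (by
      rw [hS', mem_sdiff] at hy
      exact hy.2)))
    have h3 : J S ⊆ (J S').filter (fun j => ¬ ∀ a, j (x a) = l a) := by
      intro j hj
      rw [mem_filter]
      refine ⟨hanti _ _ hS'S hj, ?_⟩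
      push Not
      exact hl j hj
    have h4 : ((J S').filter (fun j => ∀ a, j (x a) = l a)).card +
        ((J S').filter (fun j => ¬ ∀ a, j (x a) = l a)).card = (J S').card :=
      card_filter_add_card_filter_not _
    have h5 : ((J S).card : ℝ) ≤ (J S').card * (1 - 1 / (t : ℝ) ^ N) := by
      have h6 : ((J S').card : ℝ) ≤
          (((J S').filter (fun j => ∀ a, j (x a) = l a)).card : ℝ) * (t : ℝ) ^ N := by
        exact_mod_cast h2
      have h7 : ((J S').card : ℝ) * (1 / (t : ℝ) ^ N) ≤
          (((J S').filter (fun j => ∀ a, j (x a) = l a)).card : ℝ) := by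
        rw [mul_one_div, div_le_iff₀ (by positivity)]
        exact h6
      have h8 : (((J S').filter (fun j => ∀ a, j (x a) = l a)).card : ℝ) +
        (((J S').filter (fun j => ¬ ∀ a, j (x a) = l a)).card : ℝ) = (J S').card := by
        exact_mod_cast h4
      have h9 : ((J S).card : ℝ) ≤
          (((J S').filter (fun j => ¬ ∀ a, j (x a) = l a)).card : ℝ) := by
        exact_mod_cast card_le_card h3
      linarith
    have h10 : Real.log ((J S).card : ℝ) ≤ Real.log ((J S').card : ℝ) - L := by
      have h11 := Real.log_le_log hpos' h5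
      rw [Real.log_mul hpos2'.ne' hθ1.ne'] at h11
      rw [hLdef]
      linarith
    have h12 : ((copiesM K ρ S).card : ℝ) ≤ (copiesM K ρ S').card + t * N := by
      exact_mod_cast copies_sdiff K ρ S x
    rw [Real.log_div (by positivity) hpos2'.ne'] at h1
    rw [Real.log_div (by positivity) hpos'.ne']
    have h13 : L / (t * N) * (((copiesM K ρ S).card : ℝ) - km) ≤
        L / (t * N) * (((copiesM K ρ S').card : ℝ) - km) + L := by
      have h14 : L / (t * N) * (t * N) = L := div_mul_cancel₀ _ (by positivity)
      have h15 : 0 ≤ L / (t * N) := by positivity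
      have h16 := mul_le_mul_of_nonneg_left h12 h15
      rw [mul_add, h14] at h16
      rw [mul_sub, mul_sub]
      linarith
    linarith
  · rw [not_le] at hk
    have h1 : (((copiesM K ρ S).card : ℝ) - km) ≤ 0 := by
      have : ((copiesM K ρ S).card : ℝ) < km := by exact_mod_cast hk
      linarith
    have h2 : 0 ≤ L / (t * N) := by positivity
    have h3 : 0 ≤ Real.log ((t : ℝ) ^ Fintype.card ι / (J S).card) := by
      apply Real.log_nonneg
      rw [one_le_div hpos']
      exact hcard
    have h5 : L / (t * N) * (((copiesM K ρ S).card : ℝ) - km) ≤ 0 :=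
      mul_nonpos_of_nonneg_of_nonpos h2 h1
    linarith

theorem copies {N n k m : ℕ} (hN : 1 ≤ N) (hk : 1 ≤ k) (F : Set (Set (Equiv.Perm (Fin N))))
    (hD : DenseHits 64 k F) (Q : Finset (Equiv.Perm (Fin n)))
    (hQ : Restricted F (Q : Set (Equiv.Perm (Fin n)))) (Y A B : Finset (Fin n)) (hB : B ⊆ Y)
    (hYA : Disjoint Y A) (hA : A.card ≤ m) (hBm : B.card + 1 ≤ m)
    (σ : A → Fin (4 * k) → Equiv.Perm (Fin n))
    (hV : 0 < V Q (fun x : A => gapS Y x) (4 * k) σ) :
    (-Real.log (1 - 1 / (4 * k : ℝ) ^ N)) / (4 * k * N) *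
        (4 * k * A.card - (Coll (fun x : A => row B x) (4 * k) σ : ℝ) -
          (Pairs (fun x : A => row B x) (4 * k) σ : ℝ) / (64 * k) - k * m) ≤
      Real.log ((4 * k : ℝ) ^ A.card / (V Q (fun x : A => gapS Y x) (4 * k) σ : ℝ)) := by
  classical
  have hm : 1 ≤ m := by omega
  have hrow : ∀ x π, row B x π < m := fun x π =>
    lt_of_le_of_lt (card_filter_le _ _) (by omega)
  let ρ : A × Fin (4 * k) → Fin m := fun p => ⟨row B p.1 (σ p.1 p.2), hrow _ _⟩
  have hρ : ∀ p p', ρ p = ρ p' ↔ row B p.1 (σ p.1 p.2) = row B p'.1 (σ p'.1 p'.2) :=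
    fun p p' => Fin.ext_iff
  let J : Finset A → Finset (A → Fin (4 * k)) := fun S =>
    univ.filter (fun j => ∃ π ∈ Q, ∀ x ∈ S, gapS Y (x : Fin n) π (σ x (j x)))
  have hJ : ∀ S j, j ∈ J S ↔ ∃ π ∈ Q, ∀ x ∈ S, gapS Y (x : Fin n) π (σ x (j x)) := by
    intro S j
    rw [mem_filter]
    exact ⟨fun h => h.2, fun h => ⟨mem_univ _, h⟩⟩
  -- the embedding of the columns
  let e : A ↪o Fin m := (A.orderIsoOfFin rfl).symm.toOrderEmbedding.trans (Fin.castLEOrderEmb hA)
  have heinj : Function.Injective e := e.injective
  have hanti : ∀ S S', S ⊆ S' → J S' ⊆ J S := by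
    intro S S' hSS j hj
    rw [hJ] at hj ⊢
    obtain ⟨π, hπ, h⟩ := hj
    exact ⟨π, hπ, fun x hx => h x (hSS hx)⟩
  have hdep : ∀ S (j j' : A → Fin (4 * k)), (∀ y ∈ S, j y = j' y) → j ∈ J S → j' ∈ J S := by
    intro S j j' hjj hj
    rw [hJ] at hj ⊢
    obtain ⟨π, hπ, h⟩ := hj
    exact ⟨π, hπ, fun x hx => by rw [← hjj x hx]; exact h x hx⟩
  have hstep : ∀ S, k * m ≤ (copiesM (64 * k) ρ S).card → ∃ x : Fin N → A,
      Function.Injective x ∧ (∀ a, x a ∈ S) ∧ ∃ l : Fin N → Fin (4 * k),
        ∀ j ∈ J S, ∃ a, j (x a) ≠ l a := by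
    intro S hS
    rcases F.eq_empty_or_nonempty with hF | hF
    · -- `F` empty
      exfalso
      have h1 : ¬ N ≤ n := by
        intro h
        obtain ⟨A', hA', _⟩ := hQ (Fin.castLEOrderEmb h)
        rw [hF] at hA'
        exact hA'
      have h2 : (copiesM (64 * k) ρ S).card ≤ n * m := by
        refine (card_le_univ _).trans ?_
        rw [Fintype.card_prod, Fintype.card_fin, Fintype.card_coe]
        exact Nat.mul_le_mul_right _ (card_finset_fin_le A)
      have h3 : k ≤ n := Nat.le_of_mul_le_mul_right (hS.trans h2) hm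
      have h4 : MaxDeg (64 * k) (univ : Finset (Fin k × Fin k)) := by
        constructor
        · intro x
          have : ((univ : Finset (Fin k × Fin k)).filter (fun p => p.1 = x)) ⊆
              (univ : Finset (Fin k)).image (fun y => (x, y)) := by
            intro p hp
            rw [mem_filter] at hp
            rw [mem_image]
            exact ⟨p.2, mem_univ _, Prod.ext hp.2.symm rfl⟩
          refine (card_le_card this).trans (card_image_le.trans ?_)
          rw [card_univ, Fintype.card_fin]
          omega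
        · intro x
          have : ((univ : Finset (Fin k × Fin k)).filter (fun p => p.2 = x)) ⊆
              (univ : Finset (Fin k)).image (fun y => (y, x)) := by
            intro p hp
            rw [mem_filter] at hp
            rw [mem_image]
            exact ⟨p.1, mem_univ _, Prod.ext rfl hp.2.symm⟩
          refine (card_le_card this).trans (card_image_le.trans ?_)
          rw [card_univ, Fintype.card_fin]
          omega
      obtain ⟨X, _⟩ := hD k hk univ h4 (by
        rw [card_univ, Fintype.card_prod, Fintype.card_fin])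
      have h5 := Fintype.card_le_of_injective X X.injective
      rw [Fintype.card_fin, Fintype.card_fin] at h5
      omega
    · let M' : Finset (Fin m × Fin m) :=
        (copiesM (64 * k) ρ S).image (fun q => (e q.1, q.2))
      have hM' : ∀ p, p ∈ M' → ∃ x l, x ∈ S ∧
          (univ.filter (fun p' => ρ p' = ρ (x, l))).card ≤ 64 * k ∧ e x = p.1 ∧ ρ (x, l) = p.2 := by
        intro p hp
        obtain ⟨q, hq, rfl⟩ := mem_image.1 hp
        obtain ⟨l, h1, h2, h3⟩ := copies_mem.1 hq
        exact ⟨q.1, l, h1, h2, rfl, h3⟩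
      have hMcard : M'.card = (copiesM (64 * k) ρ S).card := by
        apply card_image_of_injective
        intro q q' h
        simp only [Prod.mk.injEq] at h
        exact Prod.ext (heinj h.1) h.2
      have hdeg : MaxDeg (64 * k) M' := by
        constructor
        · intro c
          rcases (M'.filter (fun p => p.1 = c)).eq_empty_or_nonempty with h | ⟨p, hp⟩
          · rw [h, card_empty]
            omega
          · rw [mem_filter] at hp
            obtain ⟨x, l, hx, _, hex, _⟩ := hM' p hp.1
            have h1 : M'.filter (fun p => p.1 = c) ⊆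
                (univ : Finset (Fin (4 * k))).image (fun l => (c, ρ (x, l))) := by
              intro p' hp'
              rw [mem_filter] at hp'
              obtain ⟨x', l', hx', _, hex', hρ'⟩ := hM' p' hp'.1
              have hxx : x' = x := heinj (by rw [hex', hp'.2, hex, hp.2])
              rw [mem_image]
              refine ⟨l', mem_univ _, ?_⟩
              rw [← hxx, hρ', ← hp'.2]
            refine (card_le_card h1).trans (card_image_le.trans ?_)
            rw [card_univ, Fintype.card_fin]
            omega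
        · intro r
          rcases (M'.filter (fun p => p.2 = r)).eq_empty_or_nonempty with h | ⟨p, hp⟩
          · rw [h, card_empty]
            omega
          · rw [mem_filter] at hp
            obtain ⟨x, l, hx, hlight, _, hρr⟩ := hM' p hp.1
            have h1 : M'.filter (fun p => p.2 = r) ⊆
                (univ.filter (fun p' => ρ p' = ρ (x, l))).image (fun p' => (e p'.1, r)) := by
              intro p' hp'
              rw [mem_filter] at hp'
              obtain ⟨x', l', hx', _, hex', hρ'⟩ := hM' p' hp'.1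
              rw [mem_image]
              refine ⟨(x', l'), ?_, ?_⟩
              · rw [mem_filter]
                exact ⟨mem_univ _, by rw [hρ', hρr, hp'.2, hp.2]⟩
              · simp only
                rw [hex', ← hp'.2]
            exact (card_le_card h1).trans (card_image_le.trans hlight)
      obtain ⟨X, hX⟩ := hD m hm M' hdeg (by rw [hMcard]; exact hS)
      obtain ⟨A₀, hA₀⟩ := hF
      have hcol : ∀ a, ∃ x ∈ S, e x = X a := by
        intro a
        obtain ⟨τ, _, r, hr, _⟩ := hX A₀ hA₀
        obtain ⟨x, l, hx, _, hex, _⟩ := hM' _ (hr a)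
        exact ⟨x, hx, hex⟩
      choose x hxS hxe using hcol
      have hxlt : ∀ a b, a < b → x a < x b := by
        intro a b hab
        rw [← e.lt_iff_lt, hxe, hxe]
        exact X.lt_iff_lt.2 hab
      have hxinj : Function.Injective x := by
        intro a b hab
        apply X.injective
        rw [← hxe, ← hxe, hab]
      let X' : Fin N ↪o Fin n := OrderEmbedding.ofStrictMono (fun a => (x a : Fin n))
        (fun a b hab => hxlt a b hab)
      have hX' : ∀ a, X' a = (x a : Fin n) := fun a => rfl
      obtain ⟨𝒜, h𝒜, hforb⟩ := hQ X'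
      obtain ⟨τ, hτ, r, hr, hτr⟩ := hX 𝒜 h𝒜
      have hl : ∀ a, ∃ l, ρ (x a, l) = r a := by
        intro a
        obtain ⟨y, l, _, _, hey, hyr⟩ := hM' _ (hr a)
        have : y = x a := heinj (by rw [hey, hxe])
        rw [this] at hyr
        exact ⟨l, hyr⟩
      choose l hl using hl
      refine ⟨x, hxinj, hxS, l, fun j hj => ?_⟩
      by_contra hcon
      push Not at hcon
      obtain ⟨π, hπ, hgap⟩ := (hJ S j).1 hj
      apply hforb τ hτ π hπ
      have hrowr : ∀ a, row B (x a) π = r a := by
        intro a
        have h1 : (row B (x a) (σ (x a) (l a)) : ℕ) = r a := by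
          have := congrArg Fin.val (hl a)
          exact this
        rw [← h1]
        unfold row
        congr 1
        refine filter_congr fun y hy => ?_
        have := hgap (x a) (hxS a) y (hB hy)
        rw [hcon a] at this
        exact this
      have hmono : ∀ a b, r a < r b → π (x a) < π (x b) := by
        intro a b hab
        by_contra h
        rw [not_lt] at h
        have h1 : row B (x b) π ≤ row B (x a) π := by
          unfold row
          refine card_le_card fun y hy => ?_
          rw [mem_filter] at hy ⊢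
          exact ⟨hy.1, hy.2.trans_le h⟩
        rw [hrowr, hrowr] at h1
        have h2 : (r a : ℕ) < r b := hab
        omega
      intro a b
      rw [hX', hX']
      constructor
      · intro h
        exact hmono a b ((hτr a b).1 h)
      · intro h
        rcases lt_trichotomy (τ a) (τ b) with h' | h' | h'
        · exact h'
        · have : a = b := τ.injective h'
          rw [this] at h
          exact absurd h (lt_irrefl _)
        · have := hmono b a ((hτr b a).1 h')
          exact absurd h (lt_asymm this)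
  have hVJ : V Q (fun x : A => gapS Y x) (4 * k) σ = (J univ).card := by
    unfold V
    congr 1
    ext j
    rw [hJ, mem_filter]
    constructor
    · rintro ⟨_, π, hπ, h⟩
      exact ⟨π, hπ, fun x _ => h x⟩
    · rintro ⟨π, hπ, h⟩
      refine ⟨?_, π, hπ, fun x => h x (mem_univ _)⟩
      exact @Finset.mem_univ _ (_) j
  have hmain := copies_ind (64 * k) (k * m) hN (by omega : 2 ≤ 4 * k) ρ J hanti hdep hstep _
    univ rfl (by rw [← hVJ]; exact hV)
  rw [← hVJ, Fintype.card_coe] at hmain
  have hones := copies_ones (64 * k) ρ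
  have hColl : Coll (fun x : A => row B x) (4 * k) σ =
      (univ.filter (fun p : A × Fin (4 * k) × Fin (4 * k) =>
        p.2.1 < p.2.2 ∧ ρ (p.1, p.2.1) = ρ (p.1, p.2.2))).card := by
    unfold Coll
    congr 1
    ext p
    rw [mem_filter, mem_filter, hρ]
  have hPairs : Pairs (fun x : A => row B x) (4 * k) σ =
      (univ.filter (fun p : (A × Fin (4 * k)) × (A × Fin (4 * k)) => ρ p.1 = ρ p.2)).card := by
    unfold Pairs
    congr 1
    ext p
    rw [mem_filter, mem_filter, hρ]
  rw [← hColl, ← hPairs, Fintype.card_coe] at hones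
  push_cast at hmain
  refine le_trans (mul_le_mul_of_nonneg_left ?_ ?_) hmain
  · have hk0 : (0 : ℝ) < k := by exact_mod_cast hk
    have h1 : (64 * k : ℝ) * (A.card * (4 * k)) ≤ 64 * k * (copiesM (64 * k) ρ univ).card +
        64 * k * (Coll (fun x : A => row B x) (4 * k) σ : ℝ) +
        (Pairs (fun x : A => row B x) (4 * k) σ : ℝ) := by
      exact_mod_cast hones
    have h2 : (Pairs (fun x : A => row B x) (4 * k) σ : ℝ) / (64 * k) * (64 * k) =
        Pairs (fun x : A => row B x) (4 * k) σ := div_mul_cancel₀ _ (by positivity)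
    have h3 : (64 * k : ℝ) * (4 * k * A.card - (Coll (fun x : A => row B x) (4 * k) σ : ℝ) -
          (Pairs (fun x : A => row B x) (4 * k) σ : ℝ) / (64 * k)) ≤
        64 * k * (copiesM (64 * k) ρ univ).card := by
      nlinarith
    have h4 := le_of_mul_le_mul_left h3 (by positivity)
    linarith
  · have hk1 : (1 : ℝ) ≤ k := by exact_mod_cast hk
    have h1 : (1 : ℝ) ≤ (4 * k : ℝ) ^ N := one_le_pow₀ (by linarith)
    have h2 : 0 ≤ 1 - 1 / (4 * k : ℝ) ^ N := by
      rw [sub_nonneg, div_le_one (by linarith)]
      exact h1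
    have h3 : 1 - 1 / (4 * k : ℝ) ^ N ≤ 1 := by
      have : 0 ≤ 1 / (4 * k : ℝ) ^ N := by positivity
      linarith
    have h4 := Real.log_nonpos h2 h3
    apply div_nonneg
    · linarith
    · positivity

end Pool.Agent.Work.MP_8eaa9c_co.Red
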