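import Pool.Agent.Work.MP_8eaa9c_co.Red.Ent

/-!
Module GAP: the gap of `x` with respect to a larger set `Z ∪ V`, given the gap with respect to `Z`.

`gap_refine`: apply `J_cond` with `g = patS (Z ∪ V) ⊓ gapS Z x`, `f = gapS (Z ∪ V) x` and
`b π = 1 + nbr Z V x π`, then `log (1 + m) ≤ m`.
-/

namespace Pool.Agent.Work.MP_8eaa9c_co.Red

open Finset

variable {n : ℕ}

private lemma gt_iff_aux {π π' : Equiv.Perm (Fin n)} {x b : Fin n}
    (h : π b < π x ↔ π' b < π' x) : π x < π b ↔ π' x < π' b := by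
  by_cases hbx : b = x
  · subst hbx
    simp
  · have h1 : π b ≠ π x := fun e => hbx (π.injective e)
    have h2 : π' b ≠ π' x := fun e => hbx (π'.injective e)
    constructor
    · intro h3
      have h4 : ¬ π' b < π' x := fun h5 => lt_asymm h3 (h.2 h5)
      exact lt_of_le_of_ne (not_lt.1 h4) h2.symm
    · intro h3
      have h4 : ¬ π b < π x := fun h5 => lt_asymm h3 (h.1 h5)
      exact lt_of_le_of_ne (not_lt.1 h4) h1.symm

lemma patS_insert_iff (Y : Finset (Fin n)) (x : Fin n) (π π' : Equiv.Perm (Fin n)) :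
    patS (insert x Y) π π' ↔ patS Y π π' ∧ gapS Y x π π' := by
  constructor
  · intro h
    exact ⟨fun a ha b hb => h a (mem_insert_of_mem ha) b (mem_insert_of_mem hb),
      fun y hy => h y (mem_insert_of_mem hy) x (mem_insert_self _ _)⟩
  · rintro ⟨h1, h2⟩ a ha b hb
    rcases mem_insert.1 ha with rfl | ha'
    · rcases mem_insert.1 hb with rfl | hb'
      · simp
      · exact gt_iff_aux (h2 b hb')
    · rcases mem_insert.1 hb with rfl | hb'
      · exact h2 a ha'
      · exact h1 a ha' b hb'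

lemma patS_insert (Y : Finset (Fin n)) (x : Fin n) : patS (insert x Y) = patS Y ⊓ gapS Y x := by
  ext π π'
  exact patS_insert_iff Y x π π'

lemma patS_mono {Y Z : Finset (Fin n)} (h : Y ⊆ Z) {π π' : Equiv.Perm (Fin n)}
    (hp : patS Z π π') : patS Y π π' :=
  fun a ha b hb => hp a (h ha) b (h hb)

lemma gap_refine (P : Finset (Equiv.Perm (Fin n))) (Z V : Finset (Fin n)) (x : Fin n)
    (hxZ : x ∉ Z) (hxV : x ∉ V) (hZV : Disjoint Z V) :
    J P (patS (Z ∪ V) ⊓ gapS Z x) - J P (patS (Z ∪ V) ⊓ gapS (Z ∪ V) x) ≤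
      ∑ π ∈ P, (nbr Z V x π : ℝ) := by
  classical
  have hcond := J_cond P (patS (Z ∪ V) ⊓ gapS Z x) (gapS (Z ∪ V) x)
    (fun π => 1 + nbr Z V x π) ?_ ?_
  · have h1 : J P (patS (Z ∪ V) ⊓ gapS Z x ⊓ gapS (Z ∪ V) x) ≤
        J P (patS (Z ∪ V) ⊓ gapS (Z ∪ V) x) := by
      apply J_mono
      intro π _ π' _ h
      exact ⟨h.1.1, h.2⟩
    have h2 : ∑ π ∈ P, Real.log ((1 + nbr Z V x π : ℕ) : ℝ) ≤ ∑ π ∈ P, (nbr Z V x π : ℝ) := by
      apply sum_le_sum
      intro π _
      have h3 : (0 : ℝ) < ((1 + nbr Z V x π : ℕ) : ℝ) := by positivity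
      have h4 := Real.log_le_sub_one_of_pos h3
      push_cast at h4 ⊢
      linarith
    linarith
  · intro π _ π' _ h
    have hg : ∀ z ∈ Z, (π z < π x ↔ π' z < π' x) := h.2
    have hp : ∀ a ∈ Z ∪ V, ∀ b ∈ Z ∪ V, (π a < π b ↔ π' a < π' b) := h.1
    show 1 + nbr Z V x π = 1 + nbr Z V x π'
    congr 1
    unfold nbr
    congr 1
    apply filter_congr
    intro y hy
    have : Same Z x y π ↔ Same Z x y π' := by
      unfold Same
      apply forall_congr'
      intro z
      apply imp_congr_right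
      intro hz
      rw [hg z hz, hp z (mem_union_left _ hz) y (mem_union_right _ hy)]
    rw [this]
  · intro α _
    refine ⟨fun π => ((Z ∪ V).filter (fun y => π y < π x)).card, ?_, ?_⟩
    · intro π hπ π' hπ' hΦ
      obtain ⟨-, hπ⟩ := mem_cls.1 hπ
      obtain ⟨-, hπ'⟩ := mem_cls.1 hπ'
      have hp : ∀ a ∈ Z ∪ V, ∀ b ∈ Z ∪ V, (α a < α b ↔ π a < π b) := hπ.1
      have hp' : ∀ a ∈ Z ∪ V, ∀ b ∈ Z ∪ V, (α a < α b ↔ π' a < π' b) := hπ'.1
      have hpp : ∀ a ∈ Z ∪ V, ∀ b ∈ Z ∪ V, (π a < π b ↔ π' a < π' b) :=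
        fun a ha b hb => (hp a ha b hb).symm.trans (hp' a ha b hb)
      -- two initial segments of the same size are equal
      have key : ∀ σ τ : Equiv.Perm (Fin n),
          (∀ a ∈ Z ∪ V, ∀ b ∈ Z ∪ V, (σ a < σ b ↔ τ a < τ b)) →
          ((Z ∪ V).filter (fun y => σ y < σ x)).card = ((Z ∪ V).filter (fun y => τ y < τ x)).card →
          ∀ y ∈ Z ∪ V, σ y < σ x → τ y < τ x := by
        intro σ τ hστ hcard y hy hlt
        by_contra hny
        have hsub : (Z ∪ V).filter (fun y => τ y < τ x) ⊆ (Z ∪ V).filter (fun y => σ y < σ x) := by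
          intro w hw
          rw [mem_filter] at hw ⊢
          refine ⟨hw.1, lt_trans ?_ hlt⟩
          rw [hστ w hw.1 y hy]
          exact lt_of_lt_of_le hw.2 (not_lt.1 hny)
        have heq := eq_of_subset_of_card_le hsub hcard.le
        have hmem : y ∈ (Z ∪ V).filter (fun y => τ y < τ x) := by
          rw [heq]
          exact mem_filter.2 ⟨hy, hlt⟩
        exact hny (mem_filter.1 hmem).2
      intro y hy
      exact ⟨key π π' hpp hΦ y hy, key π' π (fun a ha b hb => (hpp a ha b hb).symm) hΦ.symm y hy⟩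
    · set D : Finset (Fin n) := (Z ∪ V).filter (fun y => (y ∈ Z ∧ α y < α x) ∨
        (∃ z ∈ Z, α y < α z ∧ α z < α x)) with hD
      set Nb : Finset (Fin n) := V.filter (fun y => y ≠ x ∧ Same Z x y α) with hNb
      have hnb : nbr Z V x α = Nb.card := by
        unfold nbr
        rw [hNb]
      have hsub : (cls P (patS (Z ∪ V) ⊓ gapS Z x) α).image
          (fun π => ((Z ∪ V).filter (fun y => π y < π x)).card) ⊆
          Icc D.card (D.card + Nb.card) := by
        intro k hk
        obtain ⟨π, hπ, rfl⟩ := mem_image.1 hk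
        obtain ⟨-, hπ⟩ := mem_cls.1 hπ
        have hp : ∀ a ∈ Z ∪ V, ∀ b ∈ Z ∪ V, (α a < α b ↔ π a < π b) := hπ.1
        have hg : ∀ z ∈ Z, (α z < α x ↔ π z < π x) := hπ.2
        rw [mem_Icc]
        constructor
        · apply card_le_card
          intro y hy
          rw [hD, mem_filter] at hy
          rw [mem_filter]
          refine ⟨hy.1, ?_⟩
          rcases hy.2 with ⟨h1, h2⟩ | ⟨z, hz, h1, h2⟩
          · exact (hg y h1).1 h2
          · exact lt_trans ((hp y hy.1 z (mem_union_left _ hz)).1 h1) ((hg z hz).1 h2)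
        · refine (card_le_card (t := D ∪ Nb) ?_).trans (card_union_le _ _)
          intro y hy
          rw [mem_filter] at hy
          obtain ⟨hy, hlt⟩ := hy
          rw [mem_union]
          rcases mem_union.1 hy with hyZ | hyV
          · left
            rw [hD, mem_filter]
            exact ⟨hy, Or.inl ⟨hyZ, (hg y hyZ).2 hlt⟩⟩
          · by_cases hS : Same Z x y α
            · right
              rw [hNb, mem_filter]
              exact ⟨hyV, fun h => hxV (h ▸ hyV), hS⟩
            · left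
              rw [hD, mem_filter]
              refine ⟨hy, Or.inr ?_⟩
              unfold Same at hS
              push Not at hS
              obtain ⟨z, hz, hS⟩ := hS
              refine ⟨z, hz, ?_⟩
              have hzy : z ≠ y := fun h => (disjoint_left.1 hZV hz) (h ▸ hyV)
              have hzx : z ≠ x := fun h => hxZ (h ▸ hz)
              rcases hS with ⟨h1, h2⟩ | ⟨h1, h2⟩
              · exact ⟨lt_of_le_of_ne h2 (fun e => hzy (α.injective e).symm), h1⟩
              · exfalso
                have h3 : ¬ π z < π x := fun h => absurd ((hg z hz).2 h) (not_lt.2 h1)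
                have h4 : π z < π y := (hp z (mem_union_left _ hz) y hy).1 h2
                exact h3 (h4.trans hlt)
      refine (card_le_card hsub).trans ?_
      rw [Nat.card_Icc, hnb]
      omega

end Pool.Agent.Work.MP_8eaa9c_co.Red
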