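import Pool.Agent.Work.MP_8eaa9c_co.Red.PlantE
import Pool.Agent.Work.MP_8eaa9c_co.Red.Copies
import Pool.Agent.Work.MP_8eaa9c_co.Red.Gap

/-!
Assembly, part 1: lower bound for the total correlation of one colour class.
-/

namespace Pool.Agent.Work.MP_8eaa9c_co.Red

open Finset

variable {Ω : Type*}

/-- Averaging over classes. -/
lemma avg_cls (P : Finset Ω) (r : Setoid Ω) (g : Ω → ℝ) :
    ∑ π ∈ P, (1 / ((cls P r π).card : ℝ)) * ∑ π' ∈ cls P r π, g π' = ∑ π ∈ P, g π := by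
  classical
  have h1 : ∀ π ∈ P, (1 / ((cls P r π).card : ℝ)) * ∑ π' ∈ cls P r π, g π' =
      ∑ π' ∈ P, if r π π' then g π' / ((cls P r π').card : ℝ) else 0 := by
    intro π hπ
    rw [mul_sum, ← sum_filter]
    have : cls P r π = P.filter (fun π' => r π π') := by
      ext x; rw [mem_cls, mem_filter]
    rw [← this]
    apply sum_congr rfl
    intro π' hπ'
    rw [cls_eq (mem_cls.1 hπ').2]
    ring
  rw [sum_congr rfl h1, sum_comm]
  apply sum_congr rfl
  intro π' hπ'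
  rw [← sum_filter]
  have : P.filter (fun π => r π π') = cls P r π' := by
    ext x
    rw [mem_cls, mem_filter]
    exact ⟨fun h => ⟨h.1, r.symm' h.2⟩, fun h => ⟨h.1, r.symm' h.2⟩⟩
  rw [this, sum_const, nsmul_eq_mul]
  have : ((cls P r π').card : ℝ) ≠ 0 := by
    exact_mod_cast (cls_card_pos hπ').ne'
  field_simp

/-- Number of classes. -/
lemma sum_inv_le {T : Type*} [DecidableEq T] (P : Finset Ω) (r : Setoid Ω) (Φ : Ω → T)
    (hΦ : ∀ π ∈ P, ∀ π' ∈ P, Φ π = Φ π' → r π π') :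
    ∑ π ∈ P, 1 / ((cls P r π).card : ℝ) ≤ (P.image Φ).card := by
  classical
  rw [← sum_fiberwise_of_maps_to (fun π hπ => mem_image_of_mem Φ hπ)]
  have : ((P.image Φ).card : ℝ) = ∑ v ∈ P.image Φ, (1 : ℝ) := by simp
  rw [this]
  apply sum_le_sum
  intro v hv
  obtain ⟨π₀, hπ₀, rfl⟩ := mem_image.1 hv
  have h1 : ∀ π ∈ P.filter (fun π => Φ π = Φ π₀), 1 / ((cls P r π).card : ℝ) =
      1 / ((cls P r π₀).card : ℝ) := by
    intro π hπ
    rw [mem_filter] at hπ
    rw [cls_eq (hΦ π hπ.1 π₀ hπ₀ hπ.2)]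
  rw [sum_congr rfl h1, sum_const, nsmul_eq_mul]
  have h2 : ((P.filter (fun π => Φ π = Φ π₀)).card : ℝ) ≤ (cls P r π₀).card := by
    apply Nat.cast_le.2
    apply card_le_card
    intro π hπ
    rw [mem_filter] at hπ
    rw [mem_cls]
    exact ⟨hπ.1, r.symm' (hΦ π hπ.1 π₀ hπ₀ hπ.2)⟩
  have h3 : (0 : ℝ) < (cls P r π₀).card := by exact_mod_cast cls_card_pos hπ₀
  rw [mul_one_div, div_le_one h3]
  exact h2

lemma row_same {n : ℕ} (B : Finset (Fin n)) (x y : Fin n) (π : Equiv.Perm (Fin n))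
    (h : row B x π = row B y π) : Same B x y π := by
  unfold row at h
  rcases le_total (π x) (π y) with hxy | hxy
  · have hsub : B.filter (fun z => π z < π x) ⊆ B.filter (fun z => π z < π y) := by
      intro z hz
      rw [mem_filter] at hz ⊢
      exact ⟨hz.1, lt_of_lt_of_le hz.2 hxy⟩
    have heq := eq_of_subset_of_card_le hsub h.ge
    intro z hz
    have := Finset.ext_iff.1 heq z
    simpa [hz] using this
  · have hsub : B.filter (fun z => π z < π y) ⊆ B.filter (fun z => π z < π x) := by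
      intro z hz
      rw [mem_filter] at hz ⊢
      exact ⟨hz.1, lt_of_lt_of_le hz.2 hxy⟩
    have heq := eq_of_subset_of_card_le hsub h.le
    intro z hz
    have := Finset.ext_iff.1 heq z
    simpa [hz] using this.symm

lemma SS_le_prs' {ι : Type} [Fintype ι] {n : ℕ} (A B : Finset (Fin n)) (f : ι → Fin n)
    (hf : Function.Injective f) (hfA : ∀ x, f x ∈ A) (π : Equiv.Perm (Fin n)) :
    SS (fun x : ι => row B (f x)) π ≤ prs B A π := by
  classical
  unfold SS prs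
  apply card_le_card_of_injOn (fun p => (f p.1, f p.2))
  · intro p hp
    have hp := mem_coe.1 hp
    rw [mem_filter] at hp
    rw [mem_coe, mem_filter, mem_product]
    refine ⟨⟨hfA _, hfA _⟩, ?_, row_same B _ _ π hp.2.2⟩
    intro h
    exact hp.2.1 (hf h)
  · intro p _ p' _ h
    simp only [Prod.mk.injEq] at h
    exact Prod.ext (hf h.1) (hf h.2)

lemma SS_le_prs {n : ℕ} (A B : Finset (Fin n)) (π : Equiv.Perm (Fin n)) :
    SS (fun x : A => row B x) π ≤ prs B A π :=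
  SS_le_prs' A B (fun x : A => (x : Fin n)) Subtype.val_injective (fun x => x.2) π

/-- A positive planted weight gives a realised index vector. -/
lemma V_pos {ι : Type} [Fintype ι] (Q : Finset Ω) (s : ι → Setoid Ω) (t : ℕ) (π₀ : Ω)
    (hπ₀ : π₀ ∈ Q) (σ : ι → Fin t → Ω) (hw0 : 0 < ∏ x, wt Q (s x) t π₀ (σ x)) :
    0 < V Q s t σ := by
  classical
  unfold V
  rw [card_pos]
  have : ∀ x, ∃ l, s x π₀ (σ x l) := by
    intro x
    by_contra hno
    push Not at hno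
    have h0 : wt Q (s x) t π₀ (σ x) = 0 := by
      unfold wt
      have : (univ.filter (fun l => s x π₀ (σ x l))) = ∅ := by
        rw [filter_eq_empty_iff]
        intro l _
        exact hno l
      rw [this]
      simp
    exact hw0.ne' (prod_eq_zero (mem_univ x) h0)
  choose j hj using this
  exact ⟨j, by rw [mem_filter]; exact ⟨mem_univ _, π₀, hπ₀, hj⟩⟩

lemma row_of_gap {n : ℕ} {Y B : Finset (Fin n)} (hB : B ⊆ Y) (x : Fin n)
    (π π' : Equiv.Perm (Fin n)) (h : gapS Y x π π') : row B x π = row B x π' := by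
  unfold row
  congr 1
  apply filter_congr
  intro y hy
  exact h y (hB hy)

/-- The per class bound. -/
lemma class_bound {N n k : ℕ} (hN : 1 ≤ N) (hk : 1 ≤ k) (F : Set (Set (Equiv.Perm (Fin N))))
    (hD : DenseHits 64 k F) (Q : Finset (Equiv.Perm (Fin n)))
    (hQ : Restricted F (Q : Set (Equiv.Perm (Fin n)))) (Y A B : Finset (Fin n)) (hB : B ⊆ Y)
    (hYA : Disjoint Y A) :
    (-Real.log (1 - 1 / (4 * k : ℝ) ^ N)) / (4 * k * N) *
      ((Q.card : ℝ) * (4 * k * A.card - k * (A.card + B.card + 1)) -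
        (4 * k : ℝ) ^ 2 * ∑ x ∈ A, collQ Q (row B x) -
        ((4 * k : ℝ) * A.card * Q.card + (4 * k : ℝ) ^ 2 * ∑ x ∈ A, collQ Q (row B x) +
          (4 * k : ℝ) ^ 2 * A.card * Q.card + ((4 * k : ℝ) ^ 2 + 1) * ∑ π ∈ Q, (prs B A π : ℝ)) /
          (64 * k)) ≤
      ∑ π ∈ Q, (Real.log ((cls Q (gapsS Y A) π).card : ℝ) - Real.log (Q.card : ℝ) -
        ∑ x ∈ A, (Real.log ((cls Q (gapS Y x) π).card : ℝ) - Real.log (Q.card : ℝ))) := by
  classical
  set s : A → Setoid (Equiv.Perm (Fin n)) := fun x => gapS Y x with hs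
  set ρ : A → Equiv.Perm (Fin n) → ℕ := fun x => row B x with hρ
  have ht : 1 ≤ 4 * k := by omega
  have hkr : (1 : ℝ) ≤ k := by exact_mod_cast hk
  have hNr : (1 : ℝ) ≤ N := by exact_mod_cast hN
  have hρs : ∀ x, ∀ π ∈ Q, ∀ π' ∈ Q, s x π π' → ρ x π = ρ x π' :=
    fun x π _ π' _ h => row_of_gap hB x π π' h
  set c₁ : ℝ := (-Real.log (1 - 1 / (4 * k : ℝ) ^ N)) / (4 * k * N) with hc₁
  have hc₁0 : 0 ≤ c₁ := by
    apply div_nonneg _ (by positivity)
    rw [Left.nonneg_neg_iff]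
    apply Real.log_nonpos
    · rw [sub_nonneg, div_le_one (by positivity)]
      exact one_le_pow₀ (by linarith)
    · have : (0 : ℝ) ≤ 1 / (4 * k : ℝ) ^ N := by positivity
      linarith
  have hplant := plant Q s (4 * k) ht
  have hone := exp_one Q s (4 * k) ht
  have hcoll := exp_coll Q s (4 * k) ht ρ hρs
  have hpairs := exp_pairs Q s (4 * k) ht ρ hρs
  have hcard : Fintype.card A = A.card := Fintype.card_coe A
  rw [hcard] at hplant hpairs
  -- the right side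
  have hall : ∀ π₀, cls Q (allS s) π₀ = cls Q (gapsS Y A) π₀ := by
    intro π₀
    ext x
    rw [mem_cls, mem_cls]
    constructor
    · rintro ⟨h1, h2⟩
      exact ⟨h1, fun a ha y hy => h2 ⟨a, ha⟩ y hy⟩
    · rintro ⟨h1, h2⟩
      exact ⟨h1, fun a y hy => h2 a a.2 y hy⟩
  have hR : ∑ π₀ ∈ Q, (Real.log ((cls Q (allS s) π₀).card : ℝ) - Real.log (Q.card : ℝ) -
        ∑ x, (Real.log ((cls Q (s x) π₀).card : ℝ) - Real.log (Q.card : ℝ))) =
      ∑ π ∈ Q, (Real.log ((cls Q (gapsS Y A) π).card : ℝ) - Real.log (Q.card : ℝ) -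
        ∑ x ∈ A, (Real.log ((cls Q (gapS Y x) π).card : ℝ) - Real.log (Q.card : ℝ))) := by
    apply sum_congr rfl
    intro π₀ _
    rw [hall]
    congr 1
    rw [← sum_coe_sort A (fun x =>
      Real.log ((cls Q (gapS Y x) π₀).card : ℝ) - Real.log (Q.card : ℝ))]
  rw [hR] at hplant
  refine le_trans ?_ hplant
  -- the left side
  have hterm : ∀ π₀ ∈ Q, ∀ σ ∈ fam (ι := A) Q (4 * k),
      (∏ x, wt Q (s x) (4 * k) π₀ (σ x)) * (c₁ * (4 * k * A.card - (Coll ρ (4 * k) σ : ℝ) -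
        (Pairs ρ (4 * k) σ : ℝ) / (64 * k) - k * (A.card + B.card + 1))) ≤
      (∏ x, wt Q (s x) (4 * k) π₀ (σ x)) *
        Real.log (((4 * k : ℕ) : ℝ) ^ A.card / (V Q s (4 * k) σ : ℝ)) := by
    intro π₀ hπ₀ σ _
    have hw : 0 ≤ ∏ x, wt Q (s x) (4 * k) π₀ (σ x) := prod_nonneg fun x _ => wt_nonneg _ _ _ _ _
    rcases hw.eq_or_lt with hw0 | hw0
    · rw [← hw0]; simp
    · apply mul_le_mul_of_nonneg_left _ hw
      have hV : 0 < V Q s (4 * k) σ := V_pos Q s (4 * k) π₀ hπ₀ σ hw0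
      have := copies (m := A.card + B.card + 1) hN hk F hD Q hQ Y A B hB hYA (by omega) (by omega)
        σ hV
      push_cast at this ⊢
      exact this
  have hsum : ∑ π₀ ∈ Q, ∑ σ ∈ fam (ι := A) Q (4 * k),
      (∏ x, wt Q (s x) (4 * k) π₀ (σ x)) * (c₁ * (4 * k * A.card - (Coll ρ (4 * k) σ : ℝ) -
        (Pairs ρ (4 * k) σ : ℝ) / (64 * k) - k * (A.card + B.card + 1))) =
      c₁ * ((Q.card : ℝ) * (4 * k * A.card - k * (A.card + B.card + 1)) -
        (∑ π₀ ∈ Q, ∑ σ ∈ fam (ι := A) Q (4 * k),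
          (∏ x, wt Q (s x) (4 * k) π₀ (σ x)) * (Coll ρ (4 * k) σ : ℝ)) -
        (∑ π₀ ∈ Q, ∑ σ ∈ fam (ι := A) Q (4 * k),
          (∏ x, wt Q (s x) (4 * k) π₀ (σ x)) * (Pairs ρ (4 * k) σ : ℝ)) / (64 * k)) := by
    rw [← hone, sum_mul, sum_div, ← sum_sub_distrib, ← sum_sub_distrib, mul_sum]
    apply sum_congr rfl
    intro π₀ _
    rw [sum_mul, sum_div, ← sum_sub_distrib, ← sum_sub_distrib, mul_sum]
    apply sum_congr rfl
    intro σ _
    ring
  refine le_trans ?_ (sum_le_sum fun π₀ h₀ => sum_le_sum fun σ hσ => hterm π₀ h₀ σ hσ)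
  rw [hsum]
  apply mul_le_mul_of_nonneg_left _ hc₁0
  have hC : ∑ x : A, collQ Q (ρ x) = ∑ x ∈ A, collQ Q (row B x) :=
    sum_coe_sort A (fun x => collQ Q (row B x))
  rw [hC] at hcoll hpairs
  push_cast at hcoll hpairs
  have hSS : ∑ π ∈ Q, (SS ρ π : ℝ) ≤ ∑ π ∈ Q, (prs B A π : ℝ) := by
    apply sum_le_sum
    intro π _
    exact_mod_cast SS_le_prs A B π
  have h1 : ((4 * k : ℝ) ^ 2 + 1) * ∑ π ∈ Q, (SS ρ π : ℝ) ≤
      ((4 * k : ℝ) ^ 2 + 1) * ∑ π ∈ Q, (prs B A π : ℝ) :=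
    mul_le_mul_of_nonneg_left hSS (by positivity)
  have h2 := div_le_div_of_nonneg_right (hpairs.trans (add_le_add le_rfl h1))
    (by positivity : (0 : ℝ) ≤ 64 * k)
  linarith

end Pool.Agent.Work.MP_8eaa9c_co.Red
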