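import Pool.Agent.Work.MP_8eaa9c_co.Red.Asm1

/-!
Assembly, part 2: lower bound for one colouring.
-/

namespace Pool.Agent.Work.MP_8eaa9c_co.Red

open Finset

variable {Ω : Type*}

lemma cls_cls {P : Finset Ω} {r s : Setoid Ω} {π π' : Ω} (h : π' ∈ cls P r π) :
    cls (cls P r π) s π' = cls P (r ⊓ s) π' := by
  ext x
  rw [mem_cls, mem_cls, mem_cls]
  rw [mem_cls] at h
  constructor
  · rintro ⟨⟨hx, h1⟩, h2⟩
    exact ⟨hx, r.trans' (r.symm' h.2) h1, h2⟩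
  · rintro ⟨hx, h1, h2⟩
    exact ⟨⟨hx, r.trans' h.2 h1⟩, h2⟩

lemma restricted_mono {N n : ℕ} {F : Set (Set (Equiv.Perm (Fin N)))}
    {P Q : Set (Equiv.Perm (Fin n))} (h : Restricted F P) (hQ : Q ⊆ P) : Restricted F Q := by
  intro X
  obtain ⟨A, hA, h'⟩ := h X
  exact ⟨A, hA, fun τ hτ π hπ => h' τ hτ π (hQ hπ)⟩

lemma lin_sum (P : Finset Ω) (a b c d e f : ℝ) (S T : Ω → ℝ) :
    ∑ π ∈ P, (a - b * S π - (c + b * S π + d + e * T π) / f) =
      (P.card : ℝ) * a - b * ∑ π ∈ P, S π -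
        (c * P.card + b * (∑ π ∈ P, S π) + d * P.card + e * ∑ π ∈ P, T π) / f := by
  simp only [sum_sub_distrib, ← sum_div, sum_add_distrib, ← mul_sum, sum_const, nsmul_eq_mul]
  ring

lemma col_bound {N n k : ℕ} (hN : 1 ≤ N) (hk : 1 ≤ k) (F : Set (Set (Equiv.Perm (Fin N))))
    (hD : DenseHits 64 k F) (P : Finset (Equiv.Perm (Fin n)))
    (hP : Restricted F (P : Set (Equiv.Perm (Fin n)))) (Y A B : Finset (Fin n)) (hB : B ⊆ Y)
    (hYA : Disjoint Y A) :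
    (-Real.log (1 - 1 / (4 * k : ℝ) ^ N)) / (4 * k * N) *
      ((P.card : ℝ) * (4 * k * A.card - k * (A.card + B.card + 1)) -
        (4 * k : ℝ) ^ 2 * (∑ x ∈ A, ∑ π ∈ P, (((cls P (patS Y) π).filter
          (fun π' => row B x π' = row B x π)).card : ℝ) / ((cls P (patS Y) π).card : ℝ)) -
        ((4 * k : ℝ) * A.card * P.card + (4 * k : ℝ) ^ 2 * (∑ x ∈ A, ∑ π ∈ P,
          (((cls P (patS Y) π).filter
          (fun π' => row B x π' = row B x π)).card : ℝ) / ((cls P (patS Y) π).card : ℝ)) +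
          (4 * k : ℝ) ^ 2 * A.card * P.card + ((4 * k : ℝ) ^ 2 + 1) * ∑ π ∈ P, (prs B A π : ℝ)) /
          (64 * k)) ≤
      ∑ x ∈ A, (J P (patS Y) - J P (patS Y ⊓ gapS Y x)) -
        (J P (patS Y) - J P (patS Y ⊓ gapsS Y A)) := by
  classical
  set c₁ : ℝ := (-Real.log (1 - 1 / (4 * k : ℝ) ^ N)) / (4 * k * N) with hc₁
  set Q : Equiv.Perm (Fin n) → Finset (Equiv.Perm (Fin n)) := fun π => cls P (patS Y) π with hQ
  have hQpos : ∀ π ∈ P, (0 : ℝ) < (Q π).card := fun π hπ => by exact_mod_cast cls_card_pos hπ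
  have hQeq : ∀ π, ∀ π' ∈ Q π, Q π' = Q π := by
    intro π π' hπ'
    exact (cls_eq (mem_cls.1 hπ').2).symm
  set CL : Fin n → Equiv.Perm (Fin n) → ℝ := fun x π => (((Q π).filter
          (fun π' => row B x π' = row B x π)).card : ℝ) / ((Q π).card : ℝ) with hCL
  set tc : Equiv.Perm (Fin n) → ℝ := fun π =>
    Real.log ((cls P (patS Y ⊓ gapsS Y A) π).card : ℝ) - Real.log ((Q π).card : ℝ) -
        ∑ x ∈ A, (Real.log ((cls P (patS Y ⊓ gapS Y x) π).card : ℝ) -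
          Real.log ((Q π).card : ℝ)) with htc
  have hcl := fun π (hπ : π ∈ P) => class_bound hN hk F hD (Q π)
    (restricted_mono hP (by
      intro x hx
      have hx := mem_coe.1 hx
      exact (mem_cls.1 hx).1)) Y A B hB hYA
  -- rewriting both sides of the class bounds
  have hcollQ : ∀ π, ∑ x ∈ A, collQ (Q π) (row B x) = ∑ π' ∈ Q π, ∑ x ∈ A, CL x π' := by
    intro π
    rw [sum_comm]
    apply sum_congr rfl
    intro x _
    unfold collQ
    apply sum_congr rfl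
    intro π' hπ'
    simp only [hCL]
    rw [hQeq π π' hπ']
  have hrhs : ∀ π, ∑ π' ∈ Q π, (Real.log ((cls (Q π) (gapsS Y A) π').card : ℝ) -
        Real.log ((Q π).card : ℝ) -
        ∑ x ∈ A, (Real.log ((cls (Q π) (gapS Y x) π').card : ℝ) - Real.log ((Q π).card : ℝ))) =
      ∑ π' ∈ Q π, tc π' := by
    intro π
    apply sum_congr rfl
    intro π' hπ'
    simp only [htc]
    rw [hQeq π π' hπ', cls_cls hπ']
    congr 1
    apply sum_congr rfl
    intro x _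
    rw [cls_cls hπ']
  have hav : ∀ π ∈ P, c₁ * ((4 * k * A.card - k * (A.card + B.card + 1)) -
        (4 * k : ℝ) ^ 2 * ((1 / ((Q π).card : ℝ)) * ∑ π' ∈ Q π, ∑ x ∈ A, CL x π') -
        ((4 * k : ℝ) * A.card + (4 * k : ℝ) ^ 2 *
          ((1 / ((Q π).card : ℝ)) * ∑ π' ∈ Q π, ∑ x ∈ A, CL x π') +
          (4 * k : ℝ) ^ 2 * A.card + ((4 * k : ℝ) ^ 2 + 1) *
            ((1 / ((Q π).card : ℝ)) * ∑ π' ∈ Q π, (prs B A π' : ℝ))) /
          (64 * k)) ≤ (1 / ((Q π).card : ℝ)) * ∑ π' ∈ Q π, tc π' := by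
    intro π hπ
    have h1 := hcl π hπ
    rw [hcollQ, hrhs, ← hc₁] at h1
    have h2 := mul_le_mul_of_nonneg_left h1 (by positivity : (0 : ℝ) ≤ 1 / ((Q π).card : ℝ))
    refine le_trans (le_of_eq ?_) h2
    have := (hQpos π hπ).ne'
    have hk0 : (k : ℝ) ≠ 0 := by
      have : (1 : ℝ) ≤ k := by exact_mod_cast hk
      linarith
    clear_value c₁
    field_simp
  have hsum := sum_le_sum hav
  rw [← mul_sum, avg_cls P (patS Y) tc] at hsum
  have e1 := avg_cls P (patS Y) (fun π' => ∑ x ∈ A, CL x π')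
  have e2 := avg_cls P (patS Y) (fun π' => (prs B A π' : ℝ))
  have e3 : ∑ π ∈ P, ((4 * k * A.card - k * (A.card + B.card + 1)) -
        (4 * k : ℝ) ^ 2 * ((1 / ((Q π).card : ℝ)) * ∑ π' ∈ Q π, ∑ x ∈ A, CL x π') -
        ((4 * k : ℝ) * A.card + (4 * k : ℝ) ^ 2 *
          ((1 / ((Q π).card : ℝ)) * ∑ π' ∈ Q π, ∑ x ∈ A, CL x π') +
          (4 * k : ℝ) ^ 2 * A.card + ((4 * k : ℝ) ^ 2 + 1) *
            ((1 / ((Q π).card : ℝ)) * ∑ π' ∈ Q π, (prs B A π' : ℝ))) /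
          (64 * k)) =
      (P.card : ℝ) * (4 * k * A.card - k * (A.card + B.card + 1)) -
        (4 * k : ℝ) ^ 2 * (∑ π ∈ P, (1 / ((Q π).card : ℝ)) * ∑ π' ∈ Q π, ∑ x ∈ A, CL x π') -
        ((4 * k : ℝ) * A.card * P.card + (4 * k : ℝ) ^ 2 *
          (∑ π ∈ P, (1 / ((Q π).card : ℝ)) * ∑ π' ∈ Q π, ∑ x ∈ A, CL x π') +
          (4 * k : ℝ) ^ 2 * A.card * P.card + ((4 * k : ℝ) ^ 2 + 1) *
            (∑ π ∈ P, (1 / ((Q π).card : ℝ)) * ∑ π' ∈ Q π, (prs B A π' : ℝ))) /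
          (64 * k) := by
    exact lin_sum P _ _ _ _ _ _ _ _
  rw [e3] at hsum
  simp only [hQ] at hsum
  rw [e1, e2, sum_comm] at hsum
  refine le_trans hsum (le_of_eq ?_)
  simp only [htc, hQ]
  rw [sum_sub_distrib, sum_sub_distrib, sum_comm]
  have e4 : ∀ x ∈ A, ∑ π ∈ P, (Real.log ((cls P (patS Y ⊓ gapS Y x) π).card : ℝ) -
      Real.log ((cls P (patS Y) π).card : ℝ)) = J P (patS Y ⊓ gapS Y x) - J P (patS Y) := by
    intro x _
    rw [sum_sub_distrib]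
    rfl
  rw [sum_congr rfl e4]
  have e5 : ∑ x ∈ A, (J P (patS Y) - J P (patS Y ⊓ gapS Y x)) =
      - ∑ x ∈ A, (J P (patS Y ⊓ gapS Y x) - J P (patS Y)) := by
    rw [← sum_neg_distrib]
    apply sum_congr rfl
    intro x _
    ring
  rw [e5]
  unfold J
  ring

end Pool.Agent.Work.MP_8eaa9c_co.Red
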