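import Pool.Agent.Work.MP_8eaa9c_co.Red.Gap

/-!
Module CHAIN: three chain inequalities for disjoint sets `Y`, `A` of positions.

* `chain_sub`: induction on `A`, `gapsS Y (insert x A) = gapsS Y A ⊓ gapS Y x` and `J_submod`.
* `chain_low` : induction on `A`.  Write `p = patS Y ⊓ gapsS Y A`, `Q = patS (Y ∪ A)` (finer than
  `p`).  `J (p ⊓ gap_x) - J (Q ⊓ gap_x) ≤ J p - J Q` by `J_submod`, and
  `J (Q ⊓ gapS Y x) - J (patS (Y ∪ insert x A)) ≤ ∑ nbr Y A x π` by `gap_refine`.
* `chain_high`: `gap_refine` with `Z = Y`, `V = A.erase x` and telescoping.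
-/

namespace Pool.Agent.Work.MP_8eaa9c_co.Red

open Finset

variable {n : ℕ}

private lemma J_congr' (P : Finset (Equiv.Perm (Fin n))) (r s : Setoid (Equiv.Perm (Fin n)))
    (h : ∀ π π', r π π' ↔ s π π') : J P r = J P s :=
  le_antisymm (J_mono P r s fun π _ π' _ => (h π π').1) (J_mono P s r fun π _ π' _ => (h π π').2)

lemma chain_sub (P : Finset (Equiv.Perm (Fin n))) (Y A : Finset (Fin n)) :
    J P (patS Y) - J P (patS Y ⊓ gapsS Y A) ≤
      ∑ x ∈ A, (J P (patS Y) - J P (patS Y ⊓ gapS Y x)) := by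
  classical
  induction A using Finset.induction_on with
  | empty =>
    have h : J P (patS Y ⊓ gapsS Y ∅) = J P (patS Y) := by
      apply J_congr'
      intro π π'
      constructor
      · exact fun h => h.1
      · exact fun h => ⟨h, fun x hx => absurd hx (notMem_empty x)⟩
    rw [h, sum_empty, sub_self]
  | insert x A hx ih =>
    have h : J P (patS Y ⊓ gapsS Y (insert x A)) = J P (patS Y ⊓ gapsS Y A ⊓ gapS Y x) := by
      apply J_congr'
      intro π π'
      constructor
      · intro h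
        exact ⟨⟨h.1, fun a ha => h.2 a (mem_insert_of_mem ha)⟩, h.2 x (mem_insert_self _ _)⟩
      · intro h
        refine ⟨h.1.1, fun a ha => ?_⟩
        rcases mem_insert.1 ha with rfl | ha
        · exact h.2
        · exact h.1.2 a ha
    rw [h, sum_insert hx]
    have := J_submod P (patS Y) (gapsS Y A) (gapS Y x)
    linarith

private lemma prs_insert (Y A : Finset (Fin n)) (x : Fin n) (hx : x ∉ A)
    (π : Equiv.Perm (Fin n)) : prs Y A π + nbr Y A x π ≤ prs Y (insert x A) π := by
  classical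
  unfold prs nbr
  have h1 : (A.filter (fun y => y ≠ x ∧ Same Y x y π)).card =
      ((A.filter (fun y => y ≠ x ∧ Same Y x y π)).image (fun y => (x, y))).card := by
    rw [card_image_of_injective]
    intro y y' h
    exact (Prod.ext_iff.1 h).2
  rw [h1, ← card_union_of_disjoint]
  · apply card_le_card
    intro p hp
    rw [mem_union] at hp
    rw [mem_filter, mem_product]
    rcases hp with hp | hp
    · rw [mem_filter, mem_product] at hp
      exact ⟨⟨mem_insert_of_mem hp.1.1, mem_insert_of_mem hp.1.2⟩, hp.2⟩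
    · obtain ⟨y, hy, rfl⟩ := mem_image.1 hp
      rw [mem_filter] at hy
      exact ⟨⟨mem_insert_self _ _, mem_insert_of_mem hy.1⟩, fun h => hy.2.1 h.symm, hy.2.2⟩
  · rw [disjoint_left]
    intro p hp hp'
    obtain ⟨y, -, rfl⟩ := mem_image.1 hp'
    rw [mem_filter, mem_product] at hp
    exact hx hp.1.1

lemma chain_low (P : Finset (Equiv.Perm (Fin n))) (Y A : Finset (Fin n)) (h : Disjoint Y A) :
    J P (patS Y ⊓ gapsS Y A) ≤ J P (patS (Y ∪ A)) + ∑ π ∈ P, (prs Y A π : ℝ) := by
  classical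
  induction A using Finset.induction_on with
  | empty =>
    have h1 : J P (patS Y ⊓ gapsS Y ∅) ≤ J P (patS (Y ∪ ∅)) := by
      apply J_mono
      intro π _ π' _ h
      rw [union_empty]
      exact h.1
    have h2 : (0 : ℝ) ≤ ∑ π ∈ P, (prs Y ∅ π : ℝ) := sum_nonneg fun _ _ => Nat.cast_nonneg _
    linarith
  | insert x A hx ih =>
    rw [disjoint_insert_right] at h
    obtain ⟨hxY, hd⟩ := h
    have ih := ih hd
    have e1 : J P (patS Y ⊓ gapsS Y (insert x A)) = J P (patS Y ⊓ gapsS Y A ⊓ gapS Y x) := by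
      apply J_congr'
      intro π π'
      constructor
      · intro h
        exact ⟨⟨h.1, fun a ha => h.2 a (mem_insert_of_mem ha)⟩, h.2 x (mem_insert_self _ _)⟩
      · intro h
        refine ⟨h.1.1, fun a ha => ?_⟩
        rcases mem_insert.1 ha with rfl | ha
        · exact h.2
        · exact h.1.2 a ha
    have e2 : J P (patS Y ⊓ gapsS Y A ⊓ patS (Y ∪ A)) = J P (patS (Y ∪ A)) := by
      apply J_congr'
      intro π π'
      constructor
      · exact fun h => h.2
      · intro h
        refine ⟨⟨patS_mono subset_union_left h, ?_⟩, h⟩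
        intro a ha y hy
        exact h y (mem_union_left _ hy) a (mem_union_right _ ha)
    have e3 : J P (patS Y ⊓ gapsS Y A ⊓ gapS Y x ⊓ patS (Y ∪ A)) =
        J P (patS (Y ∪ A) ⊓ gapS Y x) := by
      apply J_congr'
      intro π π'
      constructor
      · exact fun h => ⟨h.2, h.1.2⟩
      · intro h
        refine ⟨⟨⟨patS_mono subset_union_left h.1, ?_⟩, h.2⟩, h.1⟩
        intro a ha y hy
        exact h.1 y (mem_union_left _ hy) a (mem_union_right _ ha)
    have e4 : patS (Y ∪ insert x A) = patS (Y ∪ A) ⊓ gapS (Y ∪ A) x := by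
      rw [union_insert, patS_insert]
    have hsub := J_submod P (patS Y ⊓ gapsS Y A) (gapS Y x) (patS (Y ∪ A))
    rw [e2, e3] at hsub
    have hgap := gap_refine P Y A x hxY hx hd
    have hprs : ∑ π ∈ P, (prs Y A π : ℝ) + ∑ π ∈ P, (nbr Y A x π : ℝ) ≤
        ∑ π ∈ P, (prs Y (insert x A) π : ℝ) := by
      rw [← sum_add_distrib]
      apply sum_le_sum
      intro π _
      exact_mod_cast prs_insert Y A x hx π
    rw [e1, e4]
    linarith

private lemma sum_nbr (Y A : Finset (Fin n)) (π : Equiv.Perm (Fin n)) :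
    ∑ x ∈ A, nbr Y (A.erase x) x π ≤ prs Y A π := by
  classical
  unfold prs nbr
  rw [← card_sigma]
  apply card_le_card_of_injOn (fun s : (_ : Fin n) × Fin n => (s.1, s.2))
  · rintro ⟨x, y⟩ hs
    simp only [mem_coe, mem_sigma, mem_filter, mem_erase] at hs
    simp only [mem_coe, mem_filter, mem_product]
    exact ⟨⟨hs.1, hs.2.1.2⟩, fun h => hs.2.1.1 h.symm, hs.2.2.2⟩
  · rintro ⟨x, y⟩ _ ⟨x', y'⟩ _ h
    simp only [Prod.mk.injEq] at h
    obtain ⟨rfl, rfl⟩ := h
    rfl

lemma chain_high (P : Finset (Equiv.Perm (Fin n))) (Y A : Finset (Fin n)) (h : Disjoint Y A) :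
    ∑ x ∈ A, (J P (patS ((Y ∪ A).erase x)) -
        J P (patS ((Y ∪ A).erase x) ⊓ gapS ((Y ∪ A).erase x) x)) ≤
      J P (patS Y) - J P (patS (Y ∪ A)) + ∑ π ∈ P, (prs Y A π : ℝ) := by
  classical
  have key : ∀ B ⊆ A, ∑ x ∈ B, (J P (patS ((Y ∪ A).erase x)) -
      J P (patS ((Y ∪ A).erase x) ⊓ gapS Y x)) ≤ J P (patS Y) - J P (patS (Y ∪ B)) := by
    intro B
    induction B using Finset.induction_on with
    | empty =>
      intro _
      rw [sum_empty, union_empty, sub_self]
    | insert x B hx ih =>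
      intro hB
      rw [insert_subset_iff] at hB
      obtain ⟨hxA, hBA⟩ := hB
      have ih := ih hBA
      rw [sum_insert hx]
      have hsubs : Y ∪ B ⊆ (Y ∪ A).erase x := by
        intro y hy
        rw [mem_erase]
        refine ⟨?_, union_subset_union_right hBA hy⟩
        rintro rfl
        rcases mem_union.1 hy with hy | hy
        · exact disjoint_left.1 h hy hxA
        · exact hx hy
      have hsub := J_submod P (patS (Y ∪ B)) (patS ((Y ∪ A).erase x)) (gapS Y x)
      have e1 : J P (patS (Y ∪ B) ⊓ patS ((Y ∪ A).erase x)) = J P (patS ((Y ∪ A).erase x)) := by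
        apply J_congr'
        intro π π'
        exact ⟨fun h => h.2, fun h => ⟨patS_mono hsubs h, h⟩⟩
      have e2 : J P (patS (Y ∪ B) ⊓ patS ((Y ∪ A).erase x) ⊓ gapS Y x) =
          J P (patS ((Y ∪ A).erase x) ⊓ gapS Y x) := by
        apply J_congr'
        intro π π'
        exact ⟨fun h => ⟨h.1.2, h.2⟩, fun h => ⟨⟨patS_mono hsubs h.1, h.1⟩, h.2⟩⟩
      rw [e1, e2] at hsub
      have e3 : J P (patS (Y ∪ insert x B)) ≤ J P (patS (Y ∪ B) ⊓ gapS Y x) := by
        apply J_mono
        intro π _ π' _ h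
        rw [union_insert, patS_insert_iff] at h
        exact ⟨h.1, fun y hy => h.2 y (mem_union_left _ hy)⟩
      linarith
  have hkey := key A (Subset.refl A)
  have h2 : ∀ x ∈ A, J P (patS ((Y ∪ A).erase x)) -
        J P (patS ((Y ∪ A).erase x) ⊓ gapS ((Y ∪ A).erase x) x) ≤
      (J P (patS ((Y ∪ A).erase x)) - J P (patS ((Y ∪ A).erase x) ⊓ gapS Y x)) +
        ∑ π ∈ P, (nbr Y (A.erase x) x π : ℝ) := by
    intro x hx
    have hxY : x ∉ Y := fun hy => disjoint_left.1 h hy hx
    have e : Y ∪ A.erase x = (Y ∪ A).erase x := by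
      rw [erase_union_distrib, erase_eq_of_notMem hxY]
    have := gap_refine P Y (A.erase x) x hxY (notMem_erase x A)
      (h.mono_right (erase_subset _ _))
    rw [e] at this
    linarith
  refine (sum_le_sum h2).trans ?_
  rw [sum_add_distrib]
  have h3 : ∑ x ∈ A, ∑ π ∈ P, (nbr Y (A.erase x) x π : ℝ) ≤ ∑ π ∈ P, (prs Y A π : ℝ) := by
    rw [sum_comm]
    apply sum_le_sum
    intro π _
    exact_mod_cast sum_nbr Y A π
  linarith

end Pool.Agent.Work.MP_8eaa9c_co.Red
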