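import Pool.Agent.Work.MP_8eaa9c_co.Red.Defs
import Pool.Agent.Work.MP_8eaa9c_co.Defs
import Pool.Agent.Work.MP_8eaa9c_co.Count

/-!
Module HERED: restriction of a restricted set of permutations to a set of positions.

Let `e : Fin Y.card ↪o Fin n` be `Y.orderEmbOfFin rfl`; by `exists_rank` (Count.lean) there is for each
`π` a permutation `Φ π` of `Fin Y.card` with `Φ π a < Φ π b ↔ π (e a) < π (e b)`.
-/

namespace Pool.Agent.Work.MP_8eaa9c_co.Red

open Finset

theorem hered {N n : ℕ} (F : Set (Set (Equiv.Perm (Fin N)))) (P : Finset (Equiv.Perm (Fin n)))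
    (hP : Restricted F (P : Set (Equiv.Perm (Fin n)))) (Y : Finset (Fin n)) :
    ∃ Φ : Equiv.Perm (Fin n) → Equiv.Perm (Fin Y.card),
      (∀ π π', Φ π = Φ π' → patS Y π π') ∧
      Restricted F ((P.image Φ : Finset (Equiv.Perm (Fin Y.card))) :
        Set (Equiv.Perm (Fin Y.card))) := by
  classical
  have h1 : ∀ π : Equiv.Perm (Fin n), ∃ ρ : Equiv.Perm (Fin Y.card), ∀ a b, ρ a < ρ b ↔
      π (Y.orderEmbOfFin rfl a) < π (Y.orderEmbOfFin rfl b) := fun π =>
    exists_rank (fun a => π (Y.orderEmbOfFin rfl a))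
      (π.injective.comp (Y.orderEmbOfFin rfl).injective)
  choose Φ hΦ using h1
  refine ⟨Φ, ?_, ?_⟩
  · intro π π' h a ha b hb
    have hr : Set.range (Y.orderEmbOfFin rfl) = (Y : Set (Fin n)) := Y.range_orderEmbOfFin rfl
    obtain ⟨a', rfl⟩ : a ∈ Set.range (Y.orderEmbOfFin rfl) := by rw [hr]; exact ha
    obtain ⟨b', rfl⟩ : b ∈ Set.range (Y.orderEmbOfFin rfl) := by rw [hr]; exact hb
    rw [← hΦ, ← hΦ, h]
  · intro X
    obtain ⟨A, hA, h2⟩ := hP (X.trans (Y.orderEmbOfFin rfl))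
    refine ⟨A, hA, fun τ hτ ρ hρ hres => ?_⟩
    rw [Finset.coe_image] at hρ
    obtain ⟨π, hπ, rfl⟩ := hρ
    refine h2 τ hτ π hπ fun a b => ?_
    rw [hres a b, hΦ]
    rfl

end Pool.Agent.Work.MP_8eaa9c_co.Red
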