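import Pool.Agent.Work.MP_8eaa9c_co.Red.Defs

/-!
Module COLOR: sums over all colourings `c : Fin n → Fin q`.

Counting functions with prescribed allowed values: `Fintype.card_piFinset` /
`Fintype.piFinset`, or a sum over `c` of a product (`Finset.prod_univ_sum`).

* `sum_Ylt`, `sum_Acol`: exchange sums; for each `x` exactly `i * q^(n-1)` colourings have
  `c x < i`.
* `exchange`: exchange sums over `c` and `x`; for fixed `x` the involution of colourings which
  composes the value at `x` with `Equiv.swap i (i+1)` and leaves the other values maps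
  `{c | c x = i + 1}` to `{c | c x = i}`, and `Ylt c (i+1)` (which does not contain `x`) to
  `(Ylt c' (i+1)).erase x`.
* `sum_prs`: for an ordered pair `x ≠ y` with `d = |π x - π y|`, `Same (Ylt c i) x y π` means that no
  `z` strictly between `x` and `y` (in the `π` order, `d - 1` elements) has colour `< i`, as
  `c x = c y = a ≥ i`.  Number of `c`: `(q - i)^(d-1) * q^(n-2-(d-1))`.  For each `x` and each `d`
  there are at most two `y`; `∑_{d ≥ 1} (1 - i/q)^(d-1) ≤ q / i`.
* `sum_run`: for `z ≠ x` the number of `c` with `c x = i` and `c y ≠ 0` for the `d = |π z - π x|`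
  elements `y` between `x` (excluded) and `z` (included) is `(q-1)^d * q^(n-1-d)`;
  `∑_{d ≥ 1} (1 - 1/q)^d ≤ q - 1`.  Total `≤ q^(n-1) (1 + 2 (q - 1)) ≤ 2 q^n`.
-/

namespace Pool.Agent.Work.MP_8eaa9c_co.Red

open Finset

variable {n q : ℕ}

private lemma color_prod (S : Finset (Fin n)) (a : ℕ) :
    ∏ z : Fin n, (if z ∈ S then a else 1) = a ^ S.card := by
  rw [prod_ite_mem, univ_inter, prod_const]

/-- the number of colourings with prescribed values on `S` and values in `T` on `B` -/
private lemma color_count (S B : Finset (Fin n)) (hSB : Disjoint S B) (f : Fin n → Fin q)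
    (T : Finset (Fin q)) :
    ((univ : Finset (Fin n → Fin q)).filter
      (fun c => (∀ z ∈ S, c z = f z) ∧ ∀ z ∈ B, c z ∈ T)).card * q ^ (S.card + B.card) =
      T.card ^ B.card * q ^ n := by
  classical
  have h1 : (univ : Finset (Fin n → Fin q)).filter
      (fun c => (∀ z ∈ S, c z = f z) ∧ ∀ z ∈ B, c z ∈ T) =
      Fintype.piFinset (fun z => if z ∈ S then {f z} else if z ∈ B then T else univ) := by
    ext c
    rw [mem_filter, Fintype.mem_piFinset]
    constructor
    · rintro ⟨_, h2, h3⟩ z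
      by_cases hz : z ∈ S
      · rw [if_pos hz, mem_singleton]
        exact h2 z hz
      · rw [if_neg hz]
        by_cases hz' : z ∈ B
        · rw [if_pos hz']
          exact h3 z hz'
        · rw [if_neg hz']
          exact mem_univ _
    · intro h
      refine ⟨mem_univ _, fun z hz => ?_, fun z hz => ?_⟩
      · have := h z
        rw [if_pos hz, mem_singleton] at this
        exact this
      · have := h z
        rw [if_neg (fun h' => disjoint_left.1 hSB h' hz), if_pos hz] at this
        exact this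
  rw [h1, Fintype.card_piFinset, pow_add, ← color_prod S q, ← color_prod B q,
    ← color_prod B T.card, ← prod_mul_distrib, ← prod_mul_distrib]
  have h2 : (q : ℕ) ^ n = ∏ _z : Fin n, q := by
    rw [prod_const, card_univ, Fintype.card_fin]
  rw [h2, ← prod_mul_distrib]
  refine prod_congr rfl fun z _ => ?_
  by_cases hz : z ∈ S
  · have hz' : z ∉ B := fun h' => disjoint_left.1 hSB hz h'
    simp [hz, hz']
  · by_cases hz' : z ∈ B
    · simp [hz, hz']
    · simp [hz, hz']

private lemma color_card_lt (i : ℕ) (hi : i ≤ q) :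
    ((univ : Finset (Fin q)).filter (fun b : Fin q => (b : ℕ) < i)).card = i := by
  have h : ((univ : Finset (Fin q)).filter (fun b : Fin q => (b : ℕ) < i)).map Fin.valEmbedding =
      range i := by
    ext a
    rw [mem_map, mem_range]
    constructor
    · rintro ⟨b, hb, rfl⟩
      exact (mem_filter.1 hb).2
    · intro ha
      exact ⟨⟨a, by omega⟩, mem_filter.2 ⟨mem_univ _, ha⟩, rfl⟩
  rw [← card_map Fin.valEmbedding, h, card_range]

private lemma color_card_ge (i : ℕ) (hi : i ≤ q) :
    ((univ : Finset (Fin q)).filter (fun b : Fin q => i ≤ (b : ℕ))).card = q - i := by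
  have h1 := color_card_lt (q := q) i hi
  have h2 : ((univ : Finset (Fin q)).filter (fun b : Fin q => (b : ℕ) < i)).card +
      ((univ : Finset (Fin q)).filter (fun b : Fin q => ¬ (b : ℕ) < i)).card =
      (univ : Finset (Fin q)).card := card_filter_add_card_filter_not _
  rw [card_univ, Fintype.card_fin, h1] at h2
  have h3 : (univ : Finset (Fin q)).filter (fun b : Fin q => i ≤ (b : ℕ)) =
      (univ : Finset (Fin q)).filter (fun b : Fin q => ¬ (b : ℕ) < i) :=
    filter_congr fun b _ => not_lt.symm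
  rw [h3]
  omega

lemma sum_Ylt (n q : ℕ) (i : ℕ) (hi : i ≤ q) :
    (q : ℝ) * ∑ c : Fin n → Fin q, ((Ylt c i).card : ℝ) = n * i * (q : ℝ) ^ n := by
  classical
  have h1 : ∑ c : Fin n → Fin q, (Ylt c i).card =
      ∑ x : Fin n, ((univ : Finset (Fin n → Fin q)).filter (fun c => (c x : ℕ) < i)).card := by
    simp only [Ylt, card_filter]
    rw [sum_comm]
  have h2 : ∀ x : Fin n, ((univ : Finset (Fin n → Fin q)).filter (fun c => (c x : ℕ) < i)).card *
      q = i * q ^ n := by
    intro x
    rcases Nat.eq_zero_or_pos q with hq | hq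
    · subst hq
      have hi0 : i = 0 := by omega
      rw [hi0]
      simp
    · have h3 := color_count (∅ : Finset (Fin n)) {x} (disjoint_empty_left _) (fun _ => ⟨0, hq⟩)
        ((univ : Finset (Fin q)).filter (fun b : Fin q => (b : ℕ) < i))
      rw [color_card_lt i hi, card_empty, card_singleton, zero_add, pow_one, pow_one] at h3
      rw [← h3]
      congr 2
      refine filter_congr fun c _ => ?_
      simp
  have h3 : q * ∑ c : Fin n → Fin q, (Ylt c i).card = n * i * q ^ n := by
    rw [h1, mul_sum]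
    have h4 : ∀ x ∈ (univ : Finset (Fin n)), q * ((univ : Finset (Fin n → Fin q)).filter
        (fun c => (c x : ℕ) < i)).card = i * q ^ n := by
      intro x _
      rw [mul_comm]
      exact h2 x
    rw [sum_congr rfl h4, sum_const, card_univ, Fintype.card_fin, smul_eq_mul, mul_assoc]
  exact_mod_cast h3

lemma sum_Acol (n q : ℕ) (i : ℕ) (hi : i < q) :
    (q : ℝ) * ∑ c : Fin n → Fin q, ((Acol c i).card : ℝ) = n * (q : ℝ) ^ n := by
  classical
  have h1 : ∑ c : Fin n → Fin q, (Acol c i).card =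
      ∑ x : Fin n, ((univ : Finset (Fin n → Fin q)).filter (fun c => (c x : ℕ) = i)).card := by
    simp only [Acol, card_filter]
    rw [sum_comm]
  have h2 : ∀ x : Fin n, ((univ : Finset (Fin n → Fin q)).filter (fun c => (c x : ℕ) = i)).card *
      q = q ^ n := by
    intro x
    have h3 := color_count ({x} : Finset (Fin n)) ∅ (disjoint_empty_right _) (fun _ => ⟨i, hi⟩)
        (∅ : Finset (Fin q))
    rw [card_empty, card_singleton, add_zero, pow_one, pow_zero, one_mul] at h3
    rw [← h3]
    congr 2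
    refine filter_congr fun c _ => ?_
    constructor
    · intro h
      refine ⟨fun z hz => ?_, fun z hz => absurd hz (notMem_empty _)⟩
      rw [mem_singleton] at hz
      rw [hz]
      exact Fin.ext h
    · rintro ⟨h, _⟩
      exact congrArg Fin.val (h x (mem_singleton_self x))
  have h3 : q * ∑ c : Fin n → Fin q, (Acol c i).card = n * q ^ n := by
    rw [h1, mul_sum]
    have h4 : ∀ x ∈ (univ : Finset (Fin n)), q * ((univ : Finset (Fin n → Fin q)).filter
        (fun c => (c x : ℕ) = i)).card = q ^ n := by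
      intro x _
      rw [mul_comm]
      exact h2 x
    rw [sum_congr rfl h4, sum_const, card_univ, Fintype.card_fin, smul_eq_mul]
  exact_mod_cast h3

lemma exchange (Φ : Fin n → Finset (Fin n) → ℝ) (i : ℕ) (hi : i + 1 < q) :
    ∑ c : Fin n → Fin q, ∑ x ∈ Acol c (i + 1), Φ x (Ylt c (i + 1)) =
      ∑ c : Fin n → Fin q, ∑ x ∈ Acol c i, Φ x ((Ylt c (i + 1)).erase x) := by
  classical
  have h1 : ∀ (j : ℕ) (Ψ : (Fin n → Fin q) → Fin n → ℝ),
      ∑ c : Fin n → Fin q, ∑ x ∈ Acol c j, Ψ c x =
      ∑ x : Fin n, ∑ c ∈ (univ : Finset (Fin n → Fin q)).filter (fun c => (c x : ℕ) = j), Ψ c x := by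
    intro j Ψ
    simp only [Acol, sum_filter]
    rw [sum_comm]
  rw [h1, h1]
  refine sum_congr rfl fun x _ => ?_
  refine sum_bij' (fun c _ => Function.update c x ⟨i, by omega⟩)
    (fun c _ => Function.update c x ⟨i + 1, hi⟩) ?_ ?_ ?_ ?_ ?_
  · intro c _
    rw [mem_filter]
    refine ⟨mem_univ _, ?_⟩
    rw [Function.update_self]
  · intro c _
    rw [mem_filter]
    refine ⟨mem_univ _, ?_⟩
    rw [Function.update_self]
  · intro c hc
    rw [mem_filter] at hc
    rw [Function.update_idem]
    have : c x = ⟨i + 1, hi⟩ := Fin.ext hc.2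
    rw [← this, Function.update_eq_self]
  · intro c hc
    rw [mem_filter] at hc
    rw [Function.update_idem]
    have : c x = ⟨i, by omega⟩ := Fin.ext hc.2
    rw [← this, Function.update_eq_self]
  · intro c hc
    rw [mem_filter] at hc
    congr 1
    ext y
    rw [mem_erase]
    unfold Ylt
    rw [mem_filter, mem_filter]
    by_cases hy : y = x
    · subst hy
      constructor
      · rintro ⟨_, h⟩
        omega
      · rintro ⟨h, _⟩
        exact absurd rfl h
    · rw [Function.update_of_ne hy]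
      constructor
      · rintro ⟨h1, h2⟩
        exact ⟨hy, h1, h2⟩
      · rintro ⟨_, h1, h2⟩
        exact ⟨h1, h2⟩

/-- one side -/
private lemma color_right (u : Fin n) (g : ℕ → ℝ) (hg : ∀ d, 0 ≤ g d) :
    ∑ v ∈ (univ : Finset (Fin n)).filter (fun v => u < v), g ((v : ℕ) - u) ≤
      ∑ d ∈ Ico 1 n, g d := by
  rw [← sum_image (f := g) (g := fun v : Fin n => (v : ℕ) - u)]
  · refine sum_le_sum_of_subset_of_nonneg ?_ (fun d _ _ => hg d)
    intro d hd
    rw [mem_image] at hd
    obtain ⟨v, hv, rfl⟩ := hd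
    rw [mem_filter] at hv
    have h1 : (u : ℕ) < v := hv.2
    have h2 := v.2
    rw [mem_Ico]
    omega
  · intro v hv w hw hvw
    have hv' := (mem_filter.1 (mem_coe.1 hv)).2
    have hw' := (mem_filter.1 (mem_coe.1 hw)).2
    have h1 : (u : ℕ) < v := hv'
    have h2 : (u : ℕ) < w := hw'
    have h3 : (v : ℕ) - u = w - u := hvw
    apply Fin.ext
    omega

private lemma color_left (u : Fin n) (g : ℕ → ℝ) (hg : ∀ d, 0 ≤ g d) :
    ∑ v ∈ (univ : Finset (Fin n)).filter (fun v => v < u), g ((u : ℕ) - v) ≤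
      ∑ d ∈ Ico 1 n, g d := by
  rw [← sum_image (f := g) (g := fun v : Fin n => (u : ℕ) - v)]
  · refine sum_le_sum_of_subset_of_nonneg ?_ (fun d _ _ => hg d)
    intro d hd
    rw [mem_image] at hd
    obtain ⟨v, hv, rfl⟩ := hd
    rw [mem_filter] at hv
    have h1 : (v : ℕ) < u := hv.2
    have h2 := u.2
    rw [mem_Ico]
    omega
  · intro v hv w hw hvw
    have hv' := (mem_filter.1 (mem_coe.1 hv)).2
    have hw' := (mem_filter.1 (mem_coe.1 hw)).2
    have h1 : (v : ℕ) < u := hv'
    have h2 : (w : ℕ) < u := hw'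
    have h3 : (u : ℕ) - v = u - w := hvw
    apply Fin.ext
    omega

/-- distance in the order of `π` -/
private def colorD (π : Equiv.Perm (Fin n)) (x y : Fin n) : ℕ :=
  ((π x : ℕ) - π y) + ((π y : ℕ) - π x)

/-- sum over the other elements of a function of the distance -/
private lemma color_two (π : Equiv.Perm (Fin n)) (x : Fin n) (g : ℕ → ℝ) (hg : ∀ d, 0 ≤ g d) :
    ∑ y ∈ (univ : Finset (Fin n)).filter (fun y => y ≠ x), g (colorD π x y) ≤
      2 * ∑ d ∈ Ico 1 n, g d := by
  classical
  have h1 : ∑ y ∈ (univ : Finset (Fin n)).filter (fun y => y ≠ x), g (colorD π x y) =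
      ∑ v ∈ (univ : Finset (Fin n)).filter (fun v => v ≠ π x),
        g (((π x : ℕ) - v) + ((v : ℕ) - π x)) := by
    refine sum_bij' (fun y _ => π y) (fun v _ => π.symm v) ?_ ?_ ?_ ?_ ?_
    · intro y hy
      rw [mem_filter] at hy ⊢
      exact ⟨mem_univ _, fun h => hy.2 (π.injective h)⟩
    · intro v hv
      rw [mem_filter] at hv ⊢
      refine ⟨mem_univ _, fun h => hv.2 ?_⟩
      rw [← h, Equiv.apply_symm_apply]
    · intro y _
      exact π.symm_apply_apply y
    · intro v _
      exact π.apply_symm_apply v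
    · intro y _
      rfl
  rw [h1]
  have h2 : (univ : Finset (Fin n)).filter (fun v => v ≠ π x) =
      (univ : Finset (Fin n)).filter (fun v => v < π x) ∪
      (univ : Finset (Fin n)).filter (fun v => π x < v) := by
    ext v
    rw [mem_union, mem_filter, mem_filter, mem_filter]
    constructor
    · rintro ⟨h, h'⟩
      rcases lt_or_gt_of_ne h' with h'' | h''
      · exact Or.inl ⟨h, h''⟩
      · exact Or.inr ⟨h, h''⟩
    · rintro (⟨h, h'⟩ | ⟨h, h'⟩)
      · exact ⟨h, h'.ne⟩
      · exact ⟨h, h'.ne'⟩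
  have h3 : Disjoint ((univ : Finset (Fin n)).filter (fun v => v < π x))
      ((univ : Finset (Fin n)).filter (fun v => π x < v)) := by
    rw [disjoint_left]
    intro v hv hv'
    exact lt_asymm (mem_filter.1 hv).2 (mem_filter.1 hv').2
  rw [h2, sum_union h3, two_mul]
  refine add_le_add ?_ ?_
  · refine le_trans (le_of_eq (sum_congr rfl fun v hv => ?_)) (color_left (π x) g hg)
    have h4 : (v : ℕ) < π x := (mem_filter.1 hv).2
    congr 1
    omega
  · refine le_trans (le_of_eq (sum_congr rfl fun v hv => ?_)) (color_right (π x) g hg)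
    have h4 : (π x : ℕ) < v := (mem_filter.1 hv).2
    congr 1
    omega

private lemma color_card_between (π : Equiv.Perm (Fin n)) (x y : Fin n) :
    ((univ : Finset (Fin n)).filter (fun z => π x < π z ∧ π z < π y)).card =
      (π y : ℕ) - π x - 1 := by
  have h : ((univ : Finset (Fin n)).filter (fun z => π x < π z ∧ π z < π y)).map
      π.toEmbedding = Ioo (π x) (π y) := by
    ext v
    rw [mem_map, mem_Ioo]
    constructor
    · rintro ⟨z, hz, rfl⟩
      exact (mem_filter.1 hz).2
    · intro hv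
      refine ⟨π.symm v, mem_filter.2 ⟨mem_univ _, ?_⟩, π.apply_symm_apply v⟩
      rw [π.apply_symm_apply]
      exact hv
  rw [← card_map π.toEmbedding, h, Fin.card_Ioo]

private lemma color_card_run (π : Equiv.Perm (Fin n)) (x z : Fin n) :
    ((univ : Finset (Fin n)).filter (fun y => π x < π y ∧ π y ≤ π z)).card =
      (π z : ℕ) - π x := by
  have h : ((univ : Finset (Fin n)).filter (fun y => π x < π y ∧ π y ≤ π z)).map
      π.toEmbedding = Ioc (π x) (π z) := by
    ext v
    rw [mem_map, mem_Ioc]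
    constructor
    · rintro ⟨z, hz, rfl⟩
      exact (mem_filter.1 hz).2
    · intro hv
      refine ⟨π.symm v, mem_filter.2 ⟨mem_univ _, ?_⟩, π.apply_symm_apply v⟩
      rw [π.apply_symm_apply]
      exact hv
  rw [← card_map π.toEmbedding, h, Fin.card_Ioc]

private lemma color_card_run' (π : Equiv.Perm (Fin n)) (x z : Fin n) :
    ((univ : Finset (Fin n)).filter (fun y => π z ≤ π y ∧ π y < π x)).card =
      (π x : ℕ) - π z := by
  have h : ((univ : Finset (Fin n)).filter (fun y => π z ≤ π y ∧ π y < π x)).map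
      π.toEmbedding = Ico (π z) (π x) := by
    ext v
    rw [mem_map, mem_Ico]
    constructor
    · rintro ⟨z, hz, rfl⟩
      exact (mem_filter.1 hz).2
    · intro hv
      refine ⟨π.symm v, mem_filter.2 ⟨mem_univ _, ?_⟩, π.apply_symm_apply v⟩
      rw [π.apply_symm_apply]
      exact hv
  rw [← card_map π.toEmbedding, h, Fin.card_Ico]

private lemma color_geom (r : ℝ) (h0 : 0 ≤ r) (m : ℕ) :
    (1 - r) * ∑ d ∈ range m, r ^ d ≤ 1 := by
  have h := mul_neg_geom_sum r m
  rw [h]
  have := pow_nonneg h0 m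
  linarith

/-- a count as a real number -/
private lemma color_real {C s b t : ℕ} (hq : 0 < q) (h : C * q ^ (s + b) ≤ t ^ b * q ^ n) :
    (C : ℝ) ≤ (q : ℝ) ^ n / (q : ℝ) ^ s * ((t : ℝ) / q) ^ b := by
  have hq' : (0 : ℝ) < q := by exact_mod_cast hq
  have h1 : (C : ℝ) * (q : ℝ) ^ (s + b) ≤ (t : ℝ) ^ b * (q : ℝ) ^ n := by exact_mod_cast h
  rw [pow_add] at h1
  have h2 : (q : ℝ) ^ n / (q : ℝ) ^ s * ((t : ℝ) / q) ^ b =
      ((t : ℝ) ^ b * (q : ℝ) ^ n) / ((q : ℝ) ^ s * (q : ℝ) ^ b) := by
    rw [div_pow]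
    field_simp
  rw [h2, le_div_iff₀ (by positivity)]
  exact h1

private lemma color_same (π : Equiv.Perm (Fin n)) {i a : ℕ} (hi : 1 ≤ i)
    (hia : i ≤ a) (ha : a < q) {x y : Fin n} (hxy : π x < π y) :
    (((univ : Finset (Fin n → Fin q)).filter (fun c => (c x : ℕ) = a ∧ (c y : ℕ) = a ∧
      ∀ z ∈ Ylt c i, (π z < π x ↔ π z < π y))).card : ℝ) ≤
      (q : ℝ) ^ n / (q : ℝ) ^ 2 * (((q - i : ℕ) : ℝ) / q) ^ (colorD π x y - 1) := by
  classical
  have hne : x ≠ y := fun h => (by rw [h] at hxy; exact lt_irrefl _ hxy)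
  have h1 := color_count ({x, y} : Finset (Fin n))
    ((univ : Finset (Fin n)).filter (fun z => π x < π z ∧ π z < π y)) (by
      rw [disjoint_left]
      intro z hz hz'
      rw [mem_insert, mem_singleton] at hz
      rw [mem_filter] at hz'
      rcases hz with rfl | rfl
      · exact lt_irrefl _ hz'.2.1
      · exact lt_irrefl _ hz'.2.2) (fun _ => (⟨a, ha⟩ : Fin q))
    ((univ : Finset (Fin q)).filter (fun b : Fin q => i ≤ (b : ℕ)))
  rw [color_card_ge i (by omega), color_card_between, card_pair hne] at h1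
  have h2 : (π y : ℕ) - π x - 1 = colorD π x y - 1 := by
    unfold colorD
    have : (π x : ℕ) < π y := hxy
    omega
  rw [h2] at h1
  refine color_real (by omega) (le_trans (Nat.mul_le_mul_right _ (card_le_card ?_)) h1.le)
  intro c hc
  rw [mem_filter] at hc ⊢
  obtain ⟨_, hx, hy, hs⟩ := hc
  refine ⟨mem_univ _, fun z hz => ?_, fun z hz => ?_⟩
  · rw [mem_insert, mem_singleton] at hz
    rcases hz with rfl | rfl
    · exact Fin.ext hx
    · exact Fin.ext hy
  · rw [mem_filter] at hz ⊢
    refine ⟨mem_univ _, ?_⟩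
    by_contra hcon
    have h3 : z ∈ Ylt c i := mem_filter.2 ⟨mem_univ _, not_le.1 hcon⟩
    exact lt_asymm hz.2.1 ((hs z h3).2 hz.2.2)

lemma sum_prs (π : Equiv.Perm (Fin n)) (i a : ℕ) (hi : 1 ≤ i) (hia : i ≤ a) (ha : a < q) :
    (q : ℝ) * i * ∑ c : Fin n → Fin q, (prs (Ylt c i) (Acol c a) π : ℝ) ≤ 2 * n * (q : ℝ) ^ n := by
  classical
  have hq : 0 < q := by omega
  have hq' : (0 : ℝ) < q := by exact_mod_cast hq
  have hi' : (0 : ℝ) < i := by exact_mod_cast hi
  let P : Fin n → Fin n → ℝ := fun x y =>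
    (((univ : Finset (Fin n → Fin q)).filter (fun c => (c x : ℕ) = a ∧ (c y : ℕ) = a ∧
      ∀ z ∈ Ylt c i, (π z < π x ↔ π z < π y))).card : ℝ)
  have h1 : ∑ c : Fin n → Fin q, (prs (Ylt c i) (Acol c a) π : ℝ) =
      ∑ x : Fin n, ∑ y ∈ (univ : Finset (Fin n)).filter (fun y => y ≠ x), P x y := by
    have h2 : ∀ c : Fin n → Fin q, (prs (Ylt c i) (Acol c a) π : ℝ) =
        ∑ x : Fin n, ∑ y ∈ (univ : Finset (Fin n)).filter (fun y => y ≠ x),
          (if (c x : ℕ) = a ∧ (c y : ℕ) = a ∧
            ∀ z ∈ Ylt c i, (π z < π x ↔ π z < π y) then (1 : ℝ) else 0) := by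
      intro c
      have h3 : prs (Ylt c i) (Acol c a) π =
          ((univ : Finset (Fin n × Fin n)).filter (fun p => p.2 ≠ p.1 ∧ ((c p.1 : ℕ) = a ∧
            (c p.2 : ℕ) = a ∧ ∀ z ∈ Ylt c i, (π z < π p.1 ↔ π z < π p.2)))).card := by
        unfold prs
        congr 1
        ext p
        rw [mem_filter, mem_filter, mem_product]
        unfold Same
        constructor
        · rintro ⟨⟨h1, h2⟩, h3, h4⟩
          exact ⟨mem_univ _, fun h => h3 h.symm, (mem_filter.1 h1).2, (mem_filter.1 h2).2, h4⟩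
        · rintro ⟨_, h1, h2, h3, h4⟩
          exact ⟨⟨mem_filter.2 ⟨mem_univ _, h2⟩, mem_filter.2 ⟨mem_univ _, h3⟩⟩,
            fun h => h1 h.symm, h4⟩
      rw [h3, card_filter, ← univ_product_univ, sum_product]
      push_cast
      refine sum_congr rfl fun x _ => ?_
      rw [sum_filter]
      refine sum_congr rfl fun y _ => ?_
      by_cases hyx : y ≠ x
      · rw [if_pos hyx]
        refine if_congr ?_ rfl rfl
        exact ⟨fun h => h.2, fun h => ⟨hyx, h⟩⟩
      · rw [if_neg hyx, if_neg (fun h => hyx h.1)]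
    rw [sum_congr rfl fun c _ => h2 c, sum_comm]
    refine sum_congr rfl fun x _ => ?_
    rw [sum_comm]
    refine sum_congr rfl fun y _ => ?_
    show _ = P x y
    simp only [P]
    rw [card_filter]
    push_cast
    rfl
  have h2 : ∀ x y, y ≠ x → P x y ≤
      (q : ℝ) ^ n / (q : ℝ) ^ 2 * (((q - i : ℕ) : ℝ) / q) ^ (colorD π x y - 1) := by
    intro x y hyx
    rcases lt_or_gt_of_ne (fun h => hyx (π.injective h) : π y ≠ π x) with h | h
    · have h3 := color_same (q := q) π hi hia ha h
      have h4 : colorD π y x = colorD π x y := by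
        unfold colorD
        omega
      rw [h4] at h3
      refine le_trans (le_of_eq ?_) h3
      simp only [P]
      congr 2
      refine filter_congr fun c _ => ?_
      constructor
      · rintro ⟨h1, h2, h3⟩
        exact ⟨h2, h1, fun z hz => (h3 z hz).symm⟩
      · rintro ⟨h1, h2, h3⟩
        exact ⟨h2, h1, fun z hz => (h3 z hz).symm⟩
    · exact color_same (q := q) π hi hia ha h
  set r : ℝ := ((q - i : ℕ) : ℝ) / q with hr
  have hr0 : 0 ≤ r := by positivity
  have hr1 : 1 - r = i / q := by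
    rw [hr, Nat.cast_sub (by omega)]
    field_simp
    ring
  have h3 : ∑ d ∈ Ico 1 n, r ^ (d - 1) ≤ q / i := by
    rw [sum_Ico_eq_sum_range]
    have h4 := color_geom r hr0 (n - 1)
    rw [hr1] at h4
    have h5 : ∀ d ∈ range (n - 1), r ^ (1 + d - 1) = r ^ d := by
      intro d _
      congr 1
      omega
    rw [sum_congr rfl h5, le_div_iff₀ hi']
    rw [div_mul_eq_mul_div, div_le_one hq'] at h4
    linarith
  have h4 : ∀ x : Fin n, ∑ y ∈ (univ : Finset (Fin n)).filter (fun y => y ≠ x), P x y ≤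
      (q : ℝ) ^ n / (q : ℝ) ^ 2 * (2 * (q / i)) := by
    intro x
    calc ∑ y ∈ (univ : Finset (Fin n)).filter (fun y => y ≠ x), P x y
        ≤ ∑ y ∈ (univ : Finset (Fin n)).filter (fun y => y ≠ x),
          (q : ℝ) ^ n / (q : ℝ) ^ 2 * r ^ (colorD π x y - 1) :=
          sum_le_sum fun y hy => h2 x y (mem_filter.1 hy).2
      _ = (q : ℝ) ^ n / (q : ℝ) ^ 2 * ∑ y ∈ (univ : Finset (Fin n)).filter (fun y => y ≠ x),
          r ^ (colorD π x y - 1) := by rw [mul_sum]
      _ ≤ (q : ℝ) ^ n / (q : ℝ) ^ 2 * (2 * (q / i)) := by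
          refine mul_le_mul_of_nonneg_left ?_ (by positivity)
          refine le_trans (color_two π x (fun d => r ^ (d - 1)) fun d => pow_nonneg hr0 _) ?_
          linarith
  have h5 : ∑ x : Fin n, ∑ y ∈ (univ : Finset (Fin n)).filter (fun y => y ≠ x), P x y ≤
      n * ((q : ℝ) ^ n / (q : ℝ) ^ 2 * (2 * (q / i))) := by
    refine le_trans (sum_le_sum fun x _ => h4 x) ?_
    rw [sum_const, card_univ, Fintype.card_fin, nsmul_eq_mul]
  rw [h1]
  refine le_trans (mul_le_mul_of_nonneg_left h5 (by positivity)) (le_of_eq ?_)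
  field_simp

lemma sum_run (π : Equiv.Perm (Fin n)) (x : Fin n) (i : ℕ) (hi : 1 ≤ i) (hiq : i < q) :
    ∑ c ∈ (univ : Finset (Fin n → Fin q)).filter (fun c => (c x : ℕ) = i),
      ((univ.filter (fun z : Fin n => ∀ y ∈ Ylt c 1, ¬ (π x < π y ∧ π y ≤ π z) ∧
        ¬ (π z ≤ π y ∧ π y < π x))).card : ℝ) ≤ 2 * (q : ℝ) ^ n := by
  classical
  have hq : 0 < q := by omega
  have hq' : (0 : ℝ) < q := by exact_mod_cast hq
  set r : ℝ := ((q - 1 : ℕ) : ℝ) / q with hr
  have hr0 : 0 ≤ r := by positivity
  have hr1 : 1 - r = 1 / q := by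
    rw [hr, Nat.cast_sub (by omega)]
    field_simp
    push_cast
    ring
  let P : Fin n → ℝ := fun z =>
    (((univ : Finset (Fin n → Fin q)).filter (fun c => (c x : ℕ) = i ∧
      ∀ y ∈ Ylt c 1, ¬ (π x < π y ∧ π y ≤ π z) ∧ ¬ (π z ≤ π y ∧ π y < π x))).card : ℝ)
  have h1 : ∑ c ∈ (univ : Finset (Fin n → Fin q)).filter (fun c => (c x : ℕ) = i),
      ((univ.filter (fun z : Fin n => ∀ y ∈ Ylt c 1, ¬ (π x < π y ∧ π y ≤ π z) ∧
        ¬ (π z ≤ π y ∧ π y < π x))).card : ℝ) = ∑ z : Fin n, P z := by
    simp only [card_filter]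
    push_cast
    rw [sum_comm]
    refine sum_congr rfl fun z _ => ?_
    simp only [P]
    rw [← filter_filter, card_filter]
    push_cast
    rfl
  have h2 : ∀ z, P z ≤ (q : ℝ) ^ n / (q : ℝ) ^ 1 * r ^ (colorD π x z) := by
    intro z
    rcases lt_trichotomy (π x) (π z) with h | h | h
    · have h3 := color_count ({x} : Finset (Fin n))
        ((univ : Finset (Fin n)).filter (fun y => π x < π y ∧ π y ≤ π z)) (by
          rw [disjoint_left]
          intro y hy hy'
          rw [mem_singleton] at hy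
          rw [mem_filter] at hy'
          rw [hy] at hy'
          exact lt_irrefl _ hy'.2.1) (fun _ => (⟨i, hiq⟩ : Fin q))
        ((univ : Finset (Fin q)).filter (fun b : Fin q => 1 ≤ (b : ℕ)))
      rw [color_card_ge 1 (by omega), color_card_run, card_singleton] at h3
      have h4 : (π z : ℕ) - π x = colorD π x z := by
        unfold colorD
        have : (π x : ℕ) < π z := h
        omega
      rw [h4] at h3
      refine color_real (by omega) (le_trans (Nat.mul_le_mul_right _ (card_le_card ?_)) h3.le)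
      intro c hc
      rw [mem_filter] at hc ⊢
      obtain ⟨_, hx, hs⟩ := hc
      refine ⟨mem_univ _, fun y hy => ?_, fun y hy => ?_⟩
      · rw [mem_singleton] at hy
        rw [hy]
        exact Fin.ext hx
      · rw [mem_filter] at hy ⊢
        refine ⟨mem_univ _, ?_⟩
        by_contra hcon
        have h5 : y ∈ Ylt c 1 := mem_filter.2 ⟨mem_univ _, not_le.1 hcon⟩
        exact (hs y h5).1 hy.2
    · have h3 := color_count ({x} : Finset (Fin n)) ∅ (disjoint_empty_right _)
        (fun _ => (⟨i, hiq⟩ : Fin q)) ((univ : Finset (Fin q)).filter (fun b : Fin q => 1 ≤ (b : ℕ)))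
      rw [color_card_ge 1 (by omega), card_empty, card_singleton] at h3
      have h4 : 0 = colorD π x z := by
        unfold colorD
        rw [h]
        omega
      rw [h4] at h3
      refine color_real (by omega) (le_trans (Nat.mul_le_mul_right _ (card_le_card ?_)) h3.le)
      intro c hc
      rw [mem_filter] at hc ⊢
      refine ⟨mem_univ _, fun y hy => ?_, fun y hy => absurd hy (notMem_empty _)⟩
      rw [mem_singleton] at hy
      rw [hy]
      exact Fin.ext hc.2.1
    · have h3 := color_count ({x} : Finset (Fin n))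
        ((univ : Finset (Fin n)).filter (fun y => π z ≤ π y ∧ π y < π x)) (by
          rw [disjoint_left]
          intro y hy hy'
          rw [mem_singleton] at hy
          rw [mem_filter] at hy'
          rw [hy] at hy'
          exact lt_irrefl _ hy'.2.2) (fun _ => (⟨i, hiq⟩ : Fin q))
        ((univ : Finset (Fin q)).filter (fun b : Fin q => 1 ≤ (b : ℕ)))
      rw [color_card_ge 1 (by omega), color_card_run', card_singleton] at h3
      have h4 : (π x : ℕ) - π z = colorD π x z := by
        unfold colorD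
        have : (π z : ℕ) < π x := h
        omega
      rw [h4] at h3
      refine color_real (by omega) (le_trans (Nat.mul_le_mul_right _ (card_le_card ?_)) h3.le)
      intro c hc
      rw [mem_filter] at hc ⊢
      obtain ⟨_, hx, hs⟩ := hc
      refine ⟨mem_univ _, fun y hy => ?_, fun y hy => ?_⟩
      · rw [mem_singleton] at hy
        rw [hy]
        exact Fin.ext hx
      · rw [mem_filter] at hy ⊢
        refine ⟨mem_univ _, ?_⟩
        by_contra hcon
        have h5 : y ∈ Ylt c 1 := mem_filter.2 ⟨mem_univ _, not_le.1 hcon⟩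
        exact (hs y h5).2 hy.2
  have h3 : ∑ d ∈ Ico 1 n, r ^ d ≤ q - 1 := by
    rw [sum_Ico_eq_sum_range]
    have h4 := color_geom r hr0 (n - 1)
    rw [hr1] at h4
    have h5 : ∀ d ∈ range (n - 1), r ^ (1 + d) = r * r ^ d := by
      intro d _
      rw [pow_add, pow_one]
    rw [sum_congr rfl h5, ← mul_sum]
    rw [div_mul_eq_mul_div, one_mul, div_le_one hq'] at h4
    calc r * ∑ d ∈ range (n - 1), r ^ d ≤ r * q := mul_le_mul_of_nonneg_left h4 hr0
      _ = q - 1 := by
        rw [hr, Nat.cast_sub (by omega)]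
        field_simp
        push_cast
        ring
  rw [h1, ← add_sum_erase univ P (mem_univ x)]
  have h4 : ∑ z ∈ (univ : Finset (Fin n)).erase x, P z ≤
      (q : ℝ) ^ n / (q : ℝ) ^ 1 * (2 * (q - 1)) := by
    have h5 : (univ : Finset (Fin n)).erase x = (univ : Finset (Fin n)).filter (fun y => y ≠ x) := by
      ext y
      rw [mem_erase, mem_filter]
      exact ⟨fun h => ⟨h.2, h.1⟩, fun h => ⟨h.2, h.1⟩⟩
    rw [h5]
    calc ∑ z ∈ (univ : Finset (Fin n)).filter (fun y => y ≠ x), P z
        ≤ ∑ z ∈ (univ : Finset (Fin n)).filter (fun y => y ≠ x),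
          (q : ℝ) ^ n / (q : ℝ) ^ 1 * r ^ (colorD π x z) := sum_le_sum fun z _ => h2 z
      _ = (q : ℝ) ^ n / (q : ℝ) ^ 1 * ∑ z ∈ (univ : Finset (Fin n)).filter (fun y => y ≠ x),
          r ^ (colorD π x z) := by rw [mul_sum]
      _ ≤ (q : ℝ) ^ n / (q : ℝ) ^ 1 * (2 * (q - 1)) := by
          refine mul_le_mul_of_nonneg_left ?_ (by positivity)
          refine le_trans (color_two π x (fun d => r ^ d) fun d => pow_nonneg hr0 _) ?_
          linarith
  have h5 : P x ≤ (q : ℝ) ^ n / (q : ℝ) ^ 1 := by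
    have h6 := h2 x
    have h7 : colorD π x x = 0 := by
      unfold colorD
      omega
    rw [h7, pow_zero, mul_one] at h6
    exact h6
  have h6 : (q : ℝ) ^ n / (q : ℝ) ^ 1 + (q : ℝ) ^ n / (q : ℝ) ^ 1 * (2 * (q - 1)) ≤
      2 * (q : ℝ) ^ n := by
    have h7 : (q : ℝ) ^ n / (q : ℝ) ^ 1 * q = (q : ℝ) ^ n := by
      rw [pow_one]
      exact div_mul_cancel₀ _ hq'.ne'
    have h8 : 0 ≤ (q : ℝ) ^ n / (q : ℝ) ^ 1 := by positivity
    nlinarith
  linarith

end Pool.Agent.Work.MP_8eaa9c_co.Red
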