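import Pool.Agent.Work.MP_8eaa9c_co.Red.Ent
import Pool.Agent.Work.MP_8eaa9c_co.Red.Gap
import Pool.Agent.Work.MP_8eaa9c_co.Red.Color

/-!
Module SPREAD.

For fixed `c` and `x` of colour `i`, `Y = Ylt c i`, `B = Ylt c 1 ⊆ Y`, `x ∉ Y`.  With
`e = patS (univ.erase x)` (finer than `patS Y`), `coll_mono` bounds the inner sum by
`∑_π N_x(π) / E_x(π)`, `E_x(π) = |cls P e π|`,
`N_x(π) = #{π' ∈ cls P e π | row B x π' = row B x π}`.
Claim: `N_x(π) ≤ #{z | ∀ y ∈ B, ¬ (π x < π y ≤ π z) ∧ ¬ (π z ≤ π y < π x)}`: the map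
`π' ↦ z = π.symm (π' x)` is injective on the class (`π'` is determined by its pattern off `x` and by the
value `π' x`).  If `π x < π z`, i.e. `π' x > π x`, then every `y ≠ x` with `π x < π y ≤ π z` has
`π' y < π' x`, and every `y` with `π y < π x` has `π' y < π' x`; so equality of rows excludes such
`y ∈ B`.  (For `y ≠ x`: `#{w ≠ x | π w < π y} = #{w ≠ x | π' w < π' y}`; the left side is `π y` or `π y - 1`
according to `π y < π x` or not, the right side similarly.)  Same for `π z < π x`.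
Then exchange sums: `∑_x ∑_π (1 / E_x(π)) ∑_{c, c x = i} N ≤ 2 q^n ∑_x ∑_π 1 / E_x(π)` by `sum_run`.
-/

namespace Pool.Agent.Work.MP_8eaa9c_co.Red

open Finset

/-- number of elements other than x below y -/
private def kap {n : ℕ} (x : Fin n) (ρ : Equiv.Perm (Fin n)) (y : Fin n) : ℕ :=
  ((univ.erase x).filter (fun w => ρ w < ρ y)).card

private theorem spr_card {n : ℕ} (ρ : Equiv.Perm (Fin n)) (y : Fin n) :
    (univ.filter (fun w => ρ w < ρ y)).card = (ρ y : ℕ) := by
  have h1 : (univ.filter (fun w => ρ w < ρ y)) = (Finset.Iio (ρ y)).image ρ.symm := by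
    ext w
    simp only [mem_filter, mem_univ, true_and, mem_image, mem_Iio]
    constructor
    · intro h
      exact ⟨ρ w, h, ρ.symm_apply_apply w⟩
    · rintro ⟨a, ha, rfl⟩
      rwa [Equiv.apply_symm_apply]
  rw [h1, card_image_of_injective _ ρ.symm.injective, Fin.card_Iio]

private theorem kap_val {n : ℕ} (x : Fin n) (ρ : Equiv.Perm (Fin n)) (y : Fin n) :
    (ρ y : ℕ) = kap x ρ y + if ρ x < ρ y then 1 else 0 := by
  classical
  rw [← spr_card ρ y]
  have h1 : (univ : Finset (Fin n)) = insert x (univ.erase x) :=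
    (insert_erase (mem_univ x)).symm
  conv_lhs => rw [h1]
  rw [filter_insert]
  unfold kap
  split_ifs with h
  · rw [card_insert_of_notMem (by simp)]
  · rfl

private theorem kap_congr {n : ℕ} (x : Fin n) (π π' : Equiv.Perm (Fin n))
    (h : patS (univ.erase x) π π') (y : Fin n) (hy : y ≠ x) : kap x π y = kap x π' y := by
  unfold kap
  congr 1
  apply filter_congr
  intro w hw
  exact h w hw y (mem_erase.2 ⟨hy, mem_univ _⟩)

private theorem spr_inj {n : ℕ} (x : Fin n) (π π' π'' : Equiv.Perm (Fin n))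
    (h' : patS (univ.erase x) π π') (h'' : patS (univ.erase x) π π'') (hx : π' x = π'' x) :
    π' = π'' := by
  apply Equiv.ext
  intro y
  by_cases hy : y = x
  · rw [hy, hx]
  · have e1 := kap_val x π' y
    have e2 := kap_val x π'' y
    rw [← kap_congr x π π' h' y hy] at e1
    rw [← kap_congr x π π'' h'' y hy] at e2
    have n1 : (π' y : ℕ) ≠ π' x := fun h => hy (π'.injective (Fin.ext h))
    have n2 : (π'' y : ℕ) ≠ π'' x := fun h => hy (π''.injective (Fin.ext h))
    have hx' : (π' x : ℕ) = π'' x := congrArg _ hx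
    simp only [Fin.lt_def] at e1 e2
    apply Fin.ext
    split_ifs at e1 e2 <;> omega

private theorem spr_mem {n : ℕ} (x : Fin n) (π π' : Equiv.Perm (Fin n)) (B : Finset (Fin n))
    (hB : x ∉ B) (h : patS (univ.erase x) π π') (hrow : row B x π' = row B x π) (y : Fin n)
    (hy : y ∈ B) : ¬ (π x < π y ∧ π y ≤ π' x) ∧ ¬ (π' x ≤ π y ∧ π y < π x) := by
  have val : ∀ w, w ≠ x → ((π w : ℕ) = kap x π w + if (π x : ℕ) < π w then 1 else 0) ∧
      ((π' w : ℕ) = kap x π w + if (π' x : ℕ) < π' w then 1 else 0) ∧ (π w : ℕ) ≠ π x ∧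
      (π' w : ℕ) ≠ π' x := by
    intro w hw
    have e1 := kap_val x π w
    have e2 := kap_val x π' w
    rw [← kap_congr x π π' h w hw] at e2
    exact ⟨e1, e2, fun h => hw (π.injective (Fin.ext h)), fun h => hw (π'.injective (Fin.ext h))⟩
  have hBx : ∀ w ∈ B, w ≠ x := fun w hw e => hB (e ▸ hw)
  unfold row at hrow
  simp only [Fin.lt_def, Fin.le_def]
  rcases lt_trichotomy (π x : ℕ) (π' x) with hlt | heq | hgt
  · have hsub : B.filter (fun y => π y < π x) ⊆ B.filter (fun y => π' y < π' x) := by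
      intro w hw
      rw [mem_filter] at hw ⊢
      refine ⟨hw.1, ?_⟩
      obtain ⟨v1, v2, v3, v4⟩ := val w (hBx w hw.1)
      have := hw.2
      rw [Fin.lt_def] at this ⊢
      split_ifs at v1 v2 <;> omega
    have heq := eq_of_subset_of_card_le hsub hrow.le
    refine ⟨?_, by omega⟩
    rintro ⟨h1, h2⟩
    obtain ⟨v1, v2, v3, v4⟩ := val y (hBx y hy)
    have hm : y ∈ B.filter (fun y => π' y < π' x) := by
      rw [mem_filter]
      refine ⟨hy, ?_⟩
      rw [Fin.lt_def]
      split_ifs at v1 v2 <;> omega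
    rw [← heq, mem_filter, Fin.lt_def] at hm
    omega
  · constructor
    · rintro ⟨h1, h2⟩
      omega
    · rintro ⟨h1, h2⟩
      omega
  · have hsub : B.filter (fun y => π' y < π' x) ⊆ B.filter (fun y => π y < π x) := by
      intro w hw
      rw [mem_filter] at hw ⊢
      refine ⟨hw.1, ?_⟩
      obtain ⟨v1, v2, v3, v4⟩ := val w (hBx w hw.1)
      have := hw.2
      rw [Fin.lt_def] at this ⊢
      split_ifs at v1 v2 <;> omega
    have heq := eq_of_subset_of_card_le hsub hrow.ge
    refine ⟨by omega, ?_⟩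
    rintro ⟨h1, h2⟩
    obtain ⟨v1, v2, v3, v4⟩ := val y (hBx y hy)
    have hm : y ∈ B.filter (fun y => π y < π x) := by
      rw [mem_filter]
      exact ⟨hy, h2⟩
    rw [← heq, mem_filter, Fin.lt_def] at hm
    split_ifs at v1 v2 <;> omega

private theorem spr_card_le {n : ℕ} (P : Finset (Equiv.Perm (Fin n))) (x : Fin n)
    (B : Finset (Fin n)) (hB : x ∉ B) (π : Equiv.Perm (Fin n)) :
    ((cls P (patS (univ.erase x)) π).filter (fun π' => row B x π' = row B x π)).card ≤
      (univ.filter (fun z : Fin n => ∀ y ∈ B, ¬ (π x < π y ∧ π y ≤ π z) ∧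
        ¬ (π z ≤ π y ∧ π y < π x))).card := by
  classical
  apply card_le_card_of_injOn (fun π' => π.symm (π' x))
  · intro π' hπ'
    rw [mem_coe, mem_filter] at hπ'
    rw [mem_coe, mem_filter]
    refine ⟨mem_univ _, fun y hy => ?_⟩
    rw [Equiv.apply_symm_apply]
    exact spr_mem x π π' B hB (mem_cls.1 hπ'.1).2 hπ'.2 y hy
  · intro π' hπ' π'' hπ'' he
    rw [mem_coe, mem_filter] at hπ' hπ''
    exact spr_inj x π π' π'' (mem_cls.1 hπ'.1).2 (mem_cls.1 hπ''.1).2 (π.symm.injective he)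

theorem spread {n q : ℕ} (P : Finset (Equiv.Perm (Fin n))) (i : ℕ) (hi : 1 ≤ i) (hiq : i < q)
    (C : ℝ)
    (hC : ∀ x : Fin n, ∑ π ∈ P, 1 / ((cls P (patS (univ.erase x)) π).card : ℝ) ≤ C) :
    ∑ c : Fin n → Fin q, ∑ x ∈ Acol c i, ∑ π ∈ P,
        (((cls P (patS (Ylt c i)) π).filter
          (fun π' => row (Ylt c 1) x π' = row (Ylt c 1) x π)).card : ℝ) /
          ((cls P (patS (Ylt c i)) π).card : ℝ) ≤
      2 * (q : ℝ) ^ n * (n * C) := by
  classical
  let E : Fin n → Equiv.Perm (Fin n) → ℝ := fun x π =>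
    1 / ((cls P (patS (univ.erase x)) π).card : ℝ)
  let Rc : (Fin n → Fin q) → Fin n → Equiv.Perm (Fin n) → ℝ := fun c x π =>
    ((univ.filter (fun z : Fin n => ∀ y ∈ Ylt c 1, ¬ (π x < π y ∧ π y ≤ π z) ∧
        ¬ (π z ≤ π y ∧ π y < π x))).card : ℝ)
  have hE : ∀ x π, 0 ≤ E x π := fun x π => by positivity
  calc ∑ c : Fin n → Fin q, ∑ x ∈ Acol c i, ∑ π ∈ P,
        (((cls P (patS (Ylt c i)) π).filter
          (fun π' => row (Ylt c 1) x π' = row (Ylt c 1) x π)).card : ℝ) /
          ((cls P (patS (Ylt c i)) π).card : ℝ) ≤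
      ∑ c : Fin n → Fin q, ∑ x ∈ Acol c i, ∑ π ∈ P, Rc c x π * E x π := by
        refine sum_le_sum fun c _ => sum_le_sum fun x hx => ?_
        have hcx : (c x : ℕ) = i := (mem_filter.1 hx).2
        have hxY : x ∉ Ylt c i := by
          unfold Ylt
          simp [hcx]
        have hxB : x ∉ Ylt c 1 := by
          unfold Ylt
          simp only [mem_filter, mem_univ, true_and]
          omega
        have hY : Ylt c i ⊆ univ.erase x := fun y hy =>
          mem_erase.2 ⟨fun e => hxY (e ▸ hy), mem_univ _⟩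
        refine (coll_mono P (patS (Ylt c i)) (patS (univ.erase x))
          (fun π _ π' _ h => patS_mono hY h) (row (Ylt c 1) x)).trans ?_
        refine sum_le_sum fun π _ => ?_
        simp only [E, Rc]
        rw [mul_one_div]
        apply div_le_div_of_nonneg_right _ (by positivity)
        exact_mod_cast spr_card_le P x (Ylt c 1) hxB π
    _ = ∑ x : Fin n, ∑ c ∈ (univ : Finset (Fin n → Fin q)).filter (fun c => (c x : ℕ) = i),
          ∑ π ∈ P, Rc c x π * E x π := by
        apply sum_comm'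
        intro c x
        simp [Acol]
    _ = ∑ x : Fin n, ∑ π ∈ P, (∑ c ∈ (univ : Finset (Fin n → Fin q)).filter
          (fun c => (c x : ℕ) = i), Rc c x π) * E x π := by
        refine sum_congr rfl fun x _ => ?_
        rw [sum_comm]
        exact sum_congr rfl fun π _ => by rw [sum_mul]
    _ ≤ ∑ x : Fin n, ∑ π ∈ P, (2 * (q : ℝ) ^ n) * E x π := by
        refine sum_le_sum fun x _ => sum_le_sum fun π _ => ?_
        exact mul_le_mul_of_nonneg_right (sum_run π x i hi hiq) (hE x π)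
    _ = 2 * (q : ℝ) ^ n * ∑ x : Fin n, ∑ π ∈ P, E x π := by
        rw [mul_sum]
        exact sum_congr rfl fun x _ => by rw [mul_sum]
    _ ≤ 2 * (q : ℝ) ^ n * ∑ x : Fin n, C := by
        apply mul_le_mul_of_nonneg_left _ (by positivity)
        exact sum_le_sum fun x _ => hC x
    _ = 2 * (q : ℝ) ^ n * (n * C) := by
        rw [sum_const, card_univ, Fintype.card_fin, nsmul_eq_mul]

end Pool.Agent.Work.MP_8eaa9c_co.Red
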