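import Mathlib

/-!
Module WINDOW: pure real numbers.

Put `D i = a (i+1) - a i`.  From `D i ≤ G i + o i`, `G i ≤ h i`, `h (i+1) ≤ D i + o i` one gets
`D (i+1) ≤ D i + o i + o (i+1) ≤ D i + 4 l w / i` for `1 ≤ i`, `i + 1 < q`.
Claim: for `1 ≤ j < q`, `(j - 1) D j ≤ a j - a 1 + 4 l w (j - 1)`; induction:
`j D (j+1) ≤ j D j + 4 l w = (j-1) D j + D j + 4 l w`.
Hence `(m-1) D m ≤ K l w m + 4 l w (m-1)`, so `D m ≤ K l w + l w + 4 l w` as `K ≤ m - 1`.
Also `D (2m-1) = a (2m) - a (2m-1) ≥ K l w`.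
For `2 ≤ i < 2m`: `h i - G i ≤ D (i-1) + o (i-1) - D i + o i ≤ D (i-1) - D i + 4 l w / (i-1)`.
Sum over `i ∈ [m+1, 2m-1]` (these are `m - 1` values, `i - 1 ≥ m`):
`∑ (h i - G i) ≤ D m - D (2m-1) + 4 l w (m-1)/m ≤ 9 l w`.
-/

namespace Pool.Agent.Work.MP_8eaa9c_co.Red

lemma window (m : ℕ) (hm : 2 ≤ m) (K l w : ℝ) (hl : 0 ≤ l) (hw : 0 ≤ w) (hK : 0 ≤ K)
    (hKm : K ≤ m - 1)
    (a h G o : ℕ → ℝ) (ha1 : 0 ≤ a 1) (haU : ∀ i ≤ 2 * m, a i ≤ K * l * w * i)
    (haL : a (2 * m) = K * l * w * (2 * m))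
    (h1 : ∀ i, 1 ≤ i → i < 2 * m → a (i + 1) - a i ≤ G i + o i)
    (h2 : ∀ i, 1 ≤ i → i + 1 < 2 * m → h (i + 1) ≤ a (i + 1) - a i + o i)
    (h3 : ∀ i, 1 ≤ i → i < 2 * m → G i ≤ h i)
    (h4 : ∀ i, 1 ≤ i → i < 2 * m → o i ≤ 2 * l * w / i) :
    ∃ i, m + 1 ≤ i ∧ i < 2 * m ∧ (m - 1) * (h i - G i) ≤ 9 * l * w := by
  have hlw : 0 ≤ l * w := mul_nonneg hl hw
  have hm' : (2 : ℝ) ≤ m := by exact_mod_cast hm
  -- one step
  have o1 : ∀ i, 1 ≤ i → i + 1 < 2 * m → o i + o (i + 1) ≤ 4 * (l * w) / i := by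
    intro i hi hi2
    have hi' : (1 : ℝ) ≤ i := by exact_mod_cast hi
    have e1 := h4 i hi (by omega)
    have e2 := h4 (i + 1) (by omega) hi2
    have e3 : 2 * l * w / ((i + 1 : ℕ) : ℝ) ≤ 2 * l * w / i := by
      apply div_le_div_of_nonneg_left (by positivity) (by linarith)
      push_cast
      linarith
    have e4 : 4 * (l * w) / (i : ℝ) = 2 * l * w / i + 2 * l * w / i := by ring
    linarith
  have step : ∀ i, 1 ≤ i → i + 1 < 2 * m →
      a (i + 2) - a (i + 1) ≤ a (i + 1) - a i + 4 * (l * w) / i := by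
    intro i hi hi2
    have e1 := h1 (i + 1) (by omega) hi2
    have e2 := h3 (i + 1) (by omega) hi2
    have e3 := h2 i hi hi2
    have e4 := o1 i hi hi2
    linarith
  have claim : ∀ j, 1 ≤ j → j < 2 * m →
      ((j : ℝ) - 1) * (a (j + 1) - a j) ≤ a j - a 1 + 4 * (l * w) * ((j : ℝ) - 1) := by
    intro j hj
    induction j, hj using Nat.le_induction with
    | base => intro _; simp
    | succ j hj ih =>
      intro hj2
      have e1 := ih (by omega)
      have e2 := step j hj hj2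
      have hj' : (0 : ℝ) < j := by exact_mod_cast hj
      have e3 : (j : ℝ) * (a (j + 2) - a (j + 1)) ≤ j * (a (j + 1) - a j) + 4 * (l * w) := by
        have := mul_le_mul_of_nonneg_left e2 hj'.le
        have e5 : (j : ℝ) * (a (j + 1) - a j + 4 * (l * w) / j) =
            j * (a (j + 1) - a j) + 4 * (l * w) := by
          field_simp
        linarith
      push_cast
      have e6 : ((j : ℝ) + 1 - 1) = j := by ring
      rw [e6]
      have e7 : a (j + 1 + 1) = a (j + 2) := rfl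
      rw [e7]
      linarith
  have hDm : a (m + 1) - a m ≤ (K + 5) * (l * w) := by
    have e1 := claim m (by omega) (by omega)
    have e2 := haU m (by omega)
    have e3 : K * (m : ℝ) ≤ (K + 1) * ((m : ℝ) - 1) := by nlinarith
    have e4 : K * l * w * m = (K * m) * (l * w) := by ring
    have e5 : (K * m) * (l * w) ≤ ((K + 1) * ((m : ℝ) - 1)) * (l * w) :=
      mul_le_mul_of_nonneg_right e3 hlw
    have e6 : ((m : ℝ) - 1) * (a (m + 1) - a m) ≤ ((m : ℝ) - 1) * ((K + 5) * (l * w)) := by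
      nlinarith
    exact le_of_mul_le_mul_left e6 (by linarith)
  have hD2 : K * (l * w) ≤ a (2 * m) - a (2 * m - 1) := by
    have e1 := haU (2 * m - 1) (by omega)
    have e2 : ((2 * m - 1 : ℕ) : ℝ) = 2 * m - 1 := by
      rw [Nat.cast_sub (by omega)]
      push_cast
      ring
    rw [e2] at e1
    rw [haL]
    nlinarith
  by_contra hcon
  push Not at hcon
  have key : ∀ t : ℕ, t ≤ m - 1 → ((m : ℝ) - 1) * (a (m + t + 1) - a (m + t)) ≤
      ((m : ℝ) - 1) * (a (m + 1) - a m) - 5 * (l * w) * t := by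
    intro t
    induction t with
    | zero => intro _; simp
    | succ t ih =>
      intro ht
      have e1 := ih (by omega)
      have e2 := hcon (m + t + 1) (by omega) (by omega)
      have e3 := h1 (m + t + 1) (by omega) (by omega)
      have e4 := h2 (m + t) (by omega) (by omega)
      have e5 := o1 (m + t) (by omega) (by omega)
      have e6 : 4 * (l * w) / ((m + t : ℕ) : ℝ) ≤ 4 * (l * w) / m := by
        apply div_le_div_of_nonneg_left (by positivity) (by linarith)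
        push_cast
        have : (0 : ℝ) ≤ t := Nat.cast_nonneg t
        linarith
      have e7 : ((m : ℝ) - 1) * (4 * (l * w) / m) ≤ 4 * (l * w) := by
        rw [mul_div_assoc']
        rw [div_le_iff₀ (by linarith)]
        nlinarith
      have e8 : h (m + t + 1) - G (m + t + 1) ≤ (a (m + t + 1) - a (m + t)) -
          (a (m + t + 1 + 1) - a (m + t + 1)) + 4 * (l * w) / m := by linarith
      have e9 := mul_le_mul_of_nonneg_left e8 (by linarith : (0 : ℝ) ≤ (m : ℝ) - 1)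
      push_cast
      have e10 : a (m + (t + 1) + 1) = a (m + t + 1 + 1) := rfl
      have e11 : a (m + (t + 1)) = a (m + t + 1) := rfl
      rw [e10, e11]
      nlinarith
  have k1 := key (m - 2) (by omega)
  have e1 : m + (m - 2) + 1 = 2 * m - 1 := by omega
  -- the last step with strictness
  have e2 := hcon (2 * m - 1) (by omega) (by omega)
  have e3 := h1 (2 * m - 1) (by omega) (by omega)
  have e4 := h2 (2 * m - 2) (by omega) (by omega)
  have e5 := o1 (2 * m - 2) (by omega) (by omega)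
  have q1 : m + (m - 2) = 2 * m - 2 := by omega
  have q2 : 2 * m - 2 + 1 = 2 * m - 1 := by omega
  have q3 : 2 * m - 1 + 1 = 2 * m := by omega
  rw [q1, q2] at k1
  rw [q3] at e3
  rw [q2] at e4 e5
  have e6 : 4 * (l * w) / ((2 * m - 2 : ℕ) : ℝ) ≤ 4 * (l * w) / m := by
    apply div_le_div_of_nonneg_left (by positivity) (by linarith)
    exact_mod_cast (by omega : m ≤ 2 * m - 2)
  have e7 : ((m : ℝ) - 1) * (4 * (l * w) / m) ≤ 4 * (l * w) := by
    rw [mul_div_assoc']
    rw [div_le_iff₀ (by linarith)]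
    nlinarith
  have e8 : h (2 * m - 1) - G (2 * m - 1) ≤ (a (2 * m - 1) - a (2 * m - 2)) -
      (a (2 * m) - a (2 * m - 1)) + 4 * (l * w) / m := by linarith
  have e9 := mul_le_mul_of_nonneg_left e8 (by linarith : (0 : ℝ) ≤ (m : ℝ) - 1)
  have e10 : ((m - 2 : ℕ) : ℝ) = (m : ℝ) - 2 := by
    rw [Nat.cast_sub hm]
    norm_num
  rw [e10] at k1
  have e11 := mul_le_mul_of_nonneg_left hDm (by linarith : (0 : ℝ) ≤ (m : ℝ) - 1)
  have e12 := mul_le_mul_of_nonneg_left hD2 (by linarith : (0 : ℝ) ≤ (m : ℝ) - 1)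
  nlinarith

end Pool.Agent.Work.MP_8eaa9c_co.Red
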