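import Pool.Agent.Work.MP_8eaa9c_co.Red.Asm2
import Pool.Agent.Work.MP_8eaa9c_co.Red.Chain
import Pool.Agent.Work.MP_8eaa9c_co.Red.Window
import Pool.Agent.Work.MP_8eaa9c_co.Red.Spread
import Pool.Agent.Work.MP_8eaa9c_co.Red.Hered

/-!
Assembly, part 3: sums over all colourings.
-/

namespace Pool.Agent.Work.MP_8eaa9c_co.Red

open Finset

lemma Ylt_succ {n q : ℕ} (c : Fin n → Fin q) (i : ℕ) : Ylt c (i + 1) = Ylt c i ∪ Acol c i := by
  ext x
  simp only [Ylt, Acol, mem_filter, mem_univ, true_and, mem_union]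
  omega

lemma Ylt_disj {n q : ℕ} (c : Fin n → Fin q) (i : ℕ) : Disjoint (Ylt c i) (Acol c i) := by
  rw [disjoint_left]
  intro x hx hx'
  simp only [Ylt, Acol, mem_filter, mem_univ, true_and] at hx hx'
  omega

lemma Ylt_one_sub {n q : ℕ} (c : Fin n → Fin q) (i : ℕ) (hi : 1 ≤ i) : Ylt c 1 ⊆ Ylt c i := by
  intro x hx
  simp only [Ylt, mem_filter, mem_univ, true_and] at hx ⊢
  omega

lemma Ylt_top {n q : ℕ} (c : Fin n → Fin q) : Ylt c q = univ := by
  ext x
  simp [Ylt]

/-- The number of classes of `patS Y`. -/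
lemma image_bound {N n : ℕ} (F : Set (Set (Equiv.Perm (Fin N))))
    (P : Finset (Equiv.Perm (Fin n)))
    (hP : Restricted F (P : Set (Equiv.Perm (Fin n)))) (K : ℝ)
    (hle : ∀ j ≤ n, ∀ P' : Finset (Equiv.Perm (Fin j)),
      Restricted F (P' : Set (Equiv.Perm (Fin j))) → (P'.card : ℝ) ≤ Real.exp (K * j))
    (Y : Finset (Fin n)) :
    ∃ Φ : Equiv.Perm (Fin n) → Equiv.Perm (Fin Y.card),
      (∀ π π', Φ π = Φ π' → patS Y π π') ∧
      ((P.image Φ).card : ℝ) ≤ Real.exp (K * Y.card) := by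
  obtain ⟨Φ, h1, h2⟩ := hered F P hP Y
  refine ⟨Φ, h1, hle _ ?_ _ h2⟩
  calc Y.card ≤ (univ : Finset (Fin n)).card := card_le_card (subset_univ _)
    _ = n := by simp

lemma entropy_le {N n : ℕ} (F : Set (Set (Equiv.Perm (Fin N))))
    (P : Finset (Equiv.Perm (Fin n)))
    (hP : Restricted F (P : Set (Equiv.Perm (Fin n)))) (K : ℝ)
    (hle : ∀ j ≤ n, ∀ P' : Finset (Equiv.Perm (Fin j)),
      Restricted F (P' : Set (Equiv.Perm (Fin j))) → (P'.card : ℝ) ≤ Real.exp (K * j))
    (Y : Finset (Fin n)) :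
    P.card * Real.log P.card - J P (patS Y) ≤ P.card * (K * Y.card) := by
  obtain ⟨Φ, h1, h2⟩ := image_bound F P hP K hle Y
  have := J_classes P (patS Y) Φ (fun π _ π' _ h => h1 π π' h) _ h2
  rw [Real.log_exp] at this
  exact this

/-- The number of classes of `patS (univ.erase x)`. -/
lemma inv_le {N n : ℕ} (F : Set (Set (Equiv.Perm (Fin N))))
    (P : Finset (Equiv.Perm (Fin n)))
    (hP : Restricted F (P : Set (Equiv.Perm (Fin n)))) (K : ℝ)
    (hle : ∀ j ≤ n, ∀ P' : Finset (Equiv.Perm (Fin j)),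
      Restricted F (P' : Set (Equiv.Perm (Fin j))) → (P'.card : ℝ) ≤ Real.exp (K * j))
    (x : Fin n) :
    ∑ π ∈ P, 1 / ((cls P (patS (univ.erase x)) π).card : ℝ) ≤ Real.exp (K * (n - 1)) := by
  obtain ⟨Φ, h1, h2⟩ := image_bound F P hP K hle (univ.erase x)
  refine (sum_inv_le P _ Φ (fun π _ π' _ h => h1 π π' h)).trans (h2.trans (le_of_eq ?_))
  have h0 : 0 < n := x.pos
  rw [card_erase_of_mem (mem_univ x), card_univ, Fintype.card_fin, Nat.cast_sub h0]
  simp

/-- `patS univ` separates permutations. -/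
lemma patS_univ {n : ℕ} {π π' : Equiv.Perm (Fin n)} (h : patS univ π π') : π = π' := by
  have h' : ∀ a b, π a < π b ↔ π' a < π' b := fun a b => h a (mem_univ a) b (mem_univ b)
  have hs : StrictMono (π.symm.trans π') := by
    intro a b hab
    simp only [Equiv.trans_apply]
    rw [← h']
    simpa using hab
  have hid : ∀ a, (π.symm.trans π') a = a := by
    intro a
    have h1 := hs.le_apply (x := a)
    have hs' : StrictMono (π.symm.trans π').symm := by
      intro a b hab
      by_contra hno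
      rw [not_lt] at hno
      have := hs.monotone hno
      simp only [Equiv.apply_symm_apply] at this
      exact absurd hab (not_lt.2 this)
    have h2 := hs'.le_apply (x := (π.symm.trans π') a)
    rw [Equiv.symm_apply_apply] at h2
    exact le_antisymm h2 h1
  ext a
  have := hid (π a)
  simp only [Equiv.trans_apply, Equiv.symm_apply_apply] at this
  rw [this]

end Pool.Agent.Work.MP_8eaa9c_co.Red
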