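import Pool.Agent.Work.MP_8eaa9c_co.Red.Asm3

/-!
Assembly, part 4: the upper and the lower bound for the total correlation.
-/

namespace Pool.Agent.Work.MP_8eaa9c_co.Red

open Finset

lemma window_upper {N n : ℕ} (F : Set (Set (Equiv.Perm (Fin N))))
    (P : Finset (Equiv.Perm (Fin n)))
    (hP : Restricted F (P : Set (Equiv.Perm (Fin n)))) (K : ℝ) (hK : 0 ≤ K)
    (hPK : (P.card : ℝ) = Real.exp (K * n))
    (hle : ∀ j ≤ n, ∀ P' : Finset (Equiv.Perm (Fin j)),
      Restricted F (P' : Set (Equiv.Perm (Fin j))) → (P'.card : ℝ) ≤ Real.exp (K * j))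
    (m : ℕ) (hm : 2 ≤ m) (hKm : K ≤ m - 1) :
    ∃ i, 1 ≤ i ∧ i < 2 * m ∧ ((m : ℝ) - 1) * (∑ c : Fin n → Fin (2 * m),
      (∑ x ∈ Acol c i, (J P (patS (Ylt c i)) - J P (patS (Ylt c i) ⊓ gapS (Ylt c i) x)) -
        (J P (patS (Ylt c i)) - J P (patS (Ylt c i) ⊓ gapsS (Ylt c i) (Acol c i))))) ≤
      9 * ((n : ℝ) / (2 * m)) * (((2 * m : ℕ) : ℝ) ^ n * P.card) := by
  classical
  have hmr : (2 : ℝ) ≤ m := by exact_mod_cast hm
  set q : ℕ := 2 * m with hq
  have hqr : (q : ℝ) = 2 * m := by rw [hq]; push_cast; ring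
  have hq0 : (0 : ℝ) < q := by rw [hqr]; linarith
  set l : ℝ := (n : ℝ) / (2 * m) with hl
  set w : ℝ := (q : ℝ) ^ n * P.card with hw
  have hlq : l * q = n := by rw [hl, hqr]; field_simp
  set a : ℕ → ℝ := fun i => ∑ c : Fin n → Fin q,
    (P.card * Real.log P.card - J P (patS (Ylt c i))) with ha
  set h : ℕ → ℝ := fun i => ∑ c : Fin n → Fin q,
    ∑ x ∈ Acol c i, (J P (patS (Ylt c i)) - J P (patS (Ylt c i) ⊓ gapS (Ylt c i) x)) with hh
  set G : ℕ → ℝ := fun i => ∑ c : Fin n → Fin q,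
    (J P (patS (Ylt c i)) - J P (patS (Ylt c i) ⊓ gapsS (Ylt c i) (Acol c i))) with hG
  set o : ℕ → ℝ := fun i => ∑ c : Fin n → Fin q,
    ∑ π ∈ P, (prs (Ylt c i) (Acol c i) π : ℝ) with ho
  have hcard : (univ : Finset (Fin n → Fin q)).card = q ^ n := by
    rw [card_univ, Fintype.card_fun, Fintype.card_fin, Fintype.card_fin]
  have hdiff : ∀ i, a (i + 1) - a i = ∑ c : Fin n → Fin q,
      (J P (patS (Ylt c i)) - J P (patS (Ylt c (i + 1)))) := by
    intro i
    simp only [ha]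
    rw [← sum_sub_distrib]
    apply sum_congr rfl
    intro c _
    ring
  have hwin : ∃ i, m + 1 ≤ i ∧ i < 2 * m ∧ (m - 1) * (h i - G i) ≤ 9 * l * w := by
    apply window m hm K l w (by positivity) (by positivity) hK hKm a h G o
    · -- a 1
      simp only [ha]
      apply sum_nonneg
      intro c _
      have := J_le_top P (patS (Ylt c 1))
      linarith
    · -- upper bound of a i
      intro i hi
      have h1 : a i ≤ ∑ c : Fin n → Fin q, (P.card : ℝ) * (K * (Ylt c i).card) := by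
        simp only [ha]
        exact sum_le_sum fun c _ => entropy_le F P hP K hle (Ylt c i)
      refine h1.trans (le_of_eq ?_)
      rw [← mul_sum, ← mul_sum]
      have h2 := sum_Ylt n q i (by omega)
      have h3 : ∑ c : Fin n → Fin q, ((Ylt c i).card : ℝ) = l * i * (q : ℝ) ^ n := by
        have : (q : ℝ) * ∑ c : Fin n → Fin q, ((Ylt c i).card : ℝ) =
            q * (l * i * (q : ℝ) ^ n) := by
          rw [h2, ← hlq]; ring
        exact mul_left_cancel₀ hq0.ne' this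
      rw [h3, hw]
      ring
    · -- a (2m)
      simp only [ha]
      have h1 : ∀ c ∈ (univ : Finset (Fin n → Fin q)),
          (P.card * Real.log P.card - J P (patS (Ylt c (2 * m)))) = P.card * (K * n) := by
        intro c _
        rw [← hq, Ylt_top, J_eq_zero P _ (fun π _ π' _ h => patS_univ h)]
        rw [sub_zero]
        congr 1
        rw [hPK, Real.log_exp]
      rw [sum_congr rfl h1, sum_const, hcard, nsmul_eq_mul, hw, ← hlq, hqr]
      push_cast
      rw [hqr]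
      ring
    · -- h1
      intro i hi hi2
      rw [hdiff]
      simp only [hG, ho]
      rw [← sum_add_distrib]
      apply sum_le_sum
      intro c _
      rw [Ylt_succ]
      have := chain_low P (Ylt c i) (Acol c i) (Ylt_disj c i)
      linarith
    · -- h2
      intro i hi hi2
      rw [hdiff]
      simp only [hh, ho]
      rw [exchange (fun x S => J P (patS S) - J P (patS S ⊓ gapS S x)) i (by omega),
        ← sum_add_distrib]
      apply sum_le_sum
      intro c _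
      rw [Ylt_succ]
      exact chain_high P (Ylt c i) (Acol c i) (Ylt_disj c i)
    · -- h3
      intro i hi hi2
      simp only [hh, hG]
      apply sum_le_sum
      intro c _
      exact chain_sub P (Ylt c i) (Acol c i)
    · -- h4
      intro i hi hi2
      simp only [ho]
      rw [sum_comm]
      have hir : (1 : ℝ) ≤ i := by exact_mod_cast hi
      have h1 : ∀ π ∈ P, ∑ c : Fin n → Fin q, (prs (Ylt c i) (Acol c i) π : ℝ) ≤
          2 * l * (q : ℝ) ^ n / i := by
        intro π _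
        have h2 := sum_prs (q := q) π i i hi le_rfl (by omega)
        rw [le_div_iff₀ (by linarith)]
        have h3 : (q : ℝ) * ((∑ c : Fin n → Fin q, (prs (Ylt c i) (Acol c i) π : ℝ)) * i) ≤
            q * (2 * l * (q : ℝ) ^ n) := by
          calc _ = (q : ℝ) * i * ∑ c : Fin n → Fin q, (prs (Ylt c i) (Acol c i) π : ℝ) := by ring
            _ ≤ 2 * n * (q : ℝ) ^ n := h2
            _ = _ := by rw [← hlq]; ring
        exact le_of_mul_le_mul_left h3 hq0
      refine (sum_le_sum h1).trans (le_of_eq ?_)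
      rw [sum_const, nsmul_eq_mul, hw]
      ring
  obtain ⟨i, hi1, hi2, hi3⟩ := hwin
  refine ⟨i, by omega, hi2, ?_⟩
  refine le_trans (le_of_eq ?_) hi3
  simp only [hh, hG]
  rw [← sum_sub_distrib]

lemma lower {N n k q : ℕ} (hN : 1 ≤ N) (hk : 1 ≤ k) (F : Set (Set (Equiv.Perm (Fin N))))
    (hD : DenseHits 64 k F) (P : Finset (Equiv.Perm (Fin n)))
    (hP : Restricted F (P : Set (Equiv.Perm (Fin n)))) (K : ℝ)
    (hPK : (P.card : ℝ) = Real.exp (K * n))
    (hle : ∀ j ≤ n, ∀ P' : Finset (Equiv.Perm (Fin j)),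
      Restricted F (P' : Set (Equiv.Perm (Fin j))) → (P'.card : ℝ) ≤ Real.exp (K * j))
    (i : ℕ) (hi : 1 ≤ i) (hiq : i < q) (l w : ℝ) (hl : l * q = n) (hw : w = (q : ℝ) ^ n * P.card) :
    (-Real.log (1 - 1 / (4 * k : ℝ) ^ N)) / (4 * k * N) *
      (w * (2 * k * l - k) - (4 * k : ℝ) ^ 2 * (2 * q * l * Real.exp (-K) * w) -
        ((4 * k : ℝ) * l * w + (4 * k : ℝ) ^ 2 * (2 * q * l * Real.exp (-K) * w) +
          (4 * k : ℝ) ^ 2 * l * w + ((4 * k : ℝ) ^ 2 + 1) * (2 * l * w)) / (64 * k)) ≤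
      ∑ c : Fin n → Fin q,
      (∑ x ∈ Acol c i, (J P (patS (Ylt c i)) - J P (patS (Ylt c i) ⊓ gapS (Ylt c i) x)) -
        (J P (patS (Ylt c i)) - J P (patS (Ylt c i) ⊓ gapsS (Ylt c i) (Acol c i)))) := by
  classical
  have hq0 : (0 : ℝ) < q := by
    have : 0 < q := by omega
    exact_mod_cast this
  have hkr : (1 : ℝ) ≤ k := by exact_mod_cast hk
  have hNr : (1 : ℝ) ≤ N := by exact_mod_cast hN
  set c₁ : ℝ := (-Real.log (1 - 1 / (4 * k : ℝ) ^ N)) / (4 * k * N) with hc₁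
  have hc₁0 : 0 ≤ c₁ := by
    apply div_nonneg _ (by positivity)
    rw [Left.nonneg_neg_iff]
    apply Real.log_nonpos
    · rw [sub_nonneg, div_le_one (by positivity)]
      exact one_le_pow₀ (by linarith)
    · have : (0 : ℝ) ≤ 1 / (4 * k : ℝ) ^ N := by positivity
      linarith
  have hsum := sum_le_sum fun c (_ : c ∈ (univ : Finset (Fin n → Fin q))) =>
    col_bound hN hk F hD P hP (Ylt c i) (Acol c i) (Ylt c 1) (Ylt_one_sub c i hi) (Ylt_disj c i)
  refine le_trans ?_ hsum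
  rw [← hc₁, ← mul_sum]
  apply mul_le_mul_of_nonneg_left _ hc₁0
  set CL : (Fin n → Fin q) → ℝ := fun c => ∑ x ∈ Acol c i, ∑ π ∈ P,
        (((cls P (patS (Ylt c i)) π).filter
          (fun π' => row (Ylt c 1) x π' = row (Ylt c 1) x π)).card : ℝ) /
          ((cls P (patS (Ylt c i)) π).card : ℝ) with hCL
  set R : (Fin n → Fin q) → ℝ := fun c => ∑ π ∈ P, (prs (Ylt c 1) (Acol c i) π : ℝ) with hR
  have hcard : ((univ : Finset (Fin n → Fin q)).card : ℝ) = (q : ℝ) ^ n := by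
    rw [card_univ, Fintype.card_fun, Fintype.card_fin, Fintype.card_fin]
    push_cast
    rfl
  have hA : ∑ c : Fin n → Fin q, ((Acol c i).card : ℝ) = l * (q : ℝ) ^ n := by
    have h2 := sum_Acol n q i hiq
    have : (q : ℝ) * ∑ c : Fin n → Fin q, ((Acol c i).card : ℝ) = q * (l * (q : ℝ) ^ n) := by
      rw [h2, ← hl]; ring
    exact mul_left_cancel₀ hq0.ne' this
  have hB : ∑ c : Fin n → Fin q, ((Ylt c 1).card : ℝ) = l * (q : ℝ) ^ n := by
    have h2 := sum_Ylt n q 1 (by omega)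
    have : (q : ℝ) * ∑ c : Fin n → Fin q, ((Ylt c 1).card : ℝ) = q * (l * (q : ℝ) ^ n) := by
      rw [h2, ← hl]; push_cast; ring
    exact mul_left_cancel₀ hq0.ne' this
  have hS : ∑ c, CL c ≤ 2 * q * l * Real.exp (-K) * w := by
    have h1 := spread (q := q) P i hi hiq (Real.exp (K * (n - 1))) (inv_le F P hP K hle)
    refine h1.trans (le_of_eq ?_)
    rw [hw, hPK]
    have : Real.exp (K * (n - 1)) = Real.exp (-K) * Real.exp (K * n) := by
      rw [← Real.exp_add]; congr 1; ring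
    rw [this, ← hl]
    ring
  have hT : ∑ c, R c ≤ 2 * l * w := by
    simp only [hR]
    rw [sum_comm]
    have h1 : ∀ π ∈ P, ∑ c : Fin n → Fin q, (prs (Ylt c 1) (Acol c i) π : ℝ) ≤
        2 * l * (q : ℝ) ^ n := by
      intro π _
      have h2 := sum_prs (q := q) π 1 i le_rfl hi hiq
      have h3 : (q : ℝ) * (∑ c : Fin n → Fin q, (prs (Ylt c 1) (Acol c i) π : ℝ)) ≤
          q * (2 * l * (q : ℝ) ^ n) := by
        calc _ = (q : ℝ) * (1 : ℕ) *
              ∑ c : Fin n → Fin q, (prs (Ylt c 1) (Acol c i) π : ℝ) := by push_cast; ring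
          _ ≤ 2 * n * (q : ℝ) ^ n := h2
          _ = _ := by rw [← hl]; ring
      exact le_of_mul_le_mul_left h3 hq0
    refine (sum_le_sum h1).trans (le_of_eq ?_)
    rw [sum_const, nsmul_eq_mul, hw]
    ring
  have hmain : ∑ c : Fin n → Fin q, ((P.card : ℝ) * (4 * k * (Acol c i).card -
      k * ((Acol c i).card + (Ylt c 1).card + 1)) -
        (4 * k : ℝ) ^ 2 * CL c -
        ((4 * k : ℝ) * (Acol c i).card * P.card + (4 * k : ℝ) ^ 2 * CL c +
          (4 * k : ℝ) ^ 2 * (Acol c i).card * P.card + ((4 * k : ℝ) ^ 2 + 1) * R c) /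
          (64 * k)) =
      w * (2 * k * l - k) - (4 * k : ℝ) ^ 2 * (∑ c, CL c) -
        ((4 * k : ℝ) * l * w + (4 * k : ℝ) ^ 2 * (∑ c, CL c) +
          (4 * k : ℝ) ^ 2 * l * w + ((4 * k : ℝ) ^ 2 + 1) * (∑ c, R c)) / (64 * k) := by
    have e : ∀ c ∈ (univ : Finset (Fin n → Fin q)), ((P.card : ℝ) * (4 * k * (Acol c i).card -
      k * ((Acol c i).card + (Ylt c 1).card + 1)) -
        (4 * k : ℝ) ^ 2 * CL c -
        ((4 * k : ℝ) * (Acol c i).card * P.card + (4 * k : ℝ) ^ 2 * CL c +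
          (4 * k : ℝ) ^ 2 * (Acol c i).card * P.card + ((4 * k : ℝ) ^ 2 + 1) * R c) /
          (64 * k)) =
        (P.card : ℝ) * (3 * k) * (Acol c i).card - (P.card : ℝ) * k * (Ylt c 1).card -
          (P.card : ℝ) * k - (4 * k : ℝ) ^ 2 * CL c - ((4 * k : ℝ) * P.card / (64 * k) *
          (Acol c i).card + (4 * k : ℝ) ^ 2 / (64 * k) * CL c +
          (4 * k : ℝ) ^ 2 * P.card / (64 * k) * (Acol c i).card +
          ((4 * k : ℝ) ^ 2 + 1) / (64 * k) * R c) := by
      intro c _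
      ring
    rw [sum_congr rfl e]
    simp only [sum_sub_distrib, sum_add_distrib, ← mul_sum, sum_const, nsmul_eq_mul, hcard, hA,
      hB, hw]
    ring
  rw [hmain]
  have h1 : (4 * k : ℝ) ^ 2 * (∑ c, CL c) ≤ (4 * k : ℝ) ^ 2 * (2 * q * l * Real.exp (-K) * w) :=
    mul_le_mul_of_nonneg_left hS (by positivity)
  have h2 : ((4 * k : ℝ) ^ 2 + 1) * (∑ c, R c) ≤ ((4 * k : ℝ) ^ 2 + 1) * (2 * l * w) :=
    mul_le_mul_of_nonneg_left hT (by positivity)
  have h3 : ((4 * k : ℝ) * l * w + (4 * k : ℝ) ^ 2 * (∑ c, CL c) +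
          (4 * k : ℝ) ^ 2 * l * w + ((4 * k : ℝ) ^ 2 + 1) * (∑ c, R c)) / (64 * k) ≤
      ((4 * k : ℝ) * l * w + (4 * k : ℝ) ^ 2 * (2 * q * l * Real.exp (-K) * w) +
          (4 * k : ℝ) ^ 2 * l * w + ((4 * k : ℝ) ^ 2 + 1) * (2 * l * w)) / (64 * k) := by
    apply div_le_div_of_nonneg_right _ (by positivity)
    linarith
  linarith

end Pool.Agent.Work.MP_8eaa9c_co.Red
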