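import Mathlib

/-!
Basic objects for the reduction of restricted sets of permutations to 0-1 matrices:
classes of a set `P` under a setoid, the (unnormalised) entropy `J`, the pattern and gap setoids,
colour classes.
-/

namespace Pool.Agent.Work.MP_8eaa9c_co.Red

open Finset

noncomputable section

/-- The class of `π` in `P` under the setoid `r`. -/
def cls {Ω : Type*} (P : Finset Ω) (r : Setoid Ω) (π : Ω) : Finset Ω := by
  classical exact P.filter (fun π' => r π π')

/-- `J P r = ∑ log |class of π|`, so that `log |P| - J P r / |P|` is the entropy of the class of a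
uniform element of `P`. -/
def J {Ω : Type*} (P : Finset Ω) (r : Setoid Ω) : ℝ :=
  ∑ π ∈ P, Real.log ((cls P r π).card : ℝ)

/-- Same pattern on the set of positions `Y`. -/
def patS {n : ℕ} (Y : Finset (Fin n)) : Setoid (Equiv.Perm (Fin n)) where
  r π π' := ∀ a ∈ Y, ∀ b ∈ Y, (π a < π b ↔ π' a < π' b)
  iseqv := ⟨fun _ _ _ _ _ => Iff.rfl, fun h a ha b hb => (h a ha b hb).symm,
    fun h h' a ha b hb => (h a ha b hb).trans (h' a ha b hb)⟩

/-- Same gap of `x` with respect to `Y`: the same elements of `Y` lie below `x`. -/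
def gapS {n : ℕ} (Y : Finset (Fin n)) (x : Fin n) : Setoid (Equiv.Perm (Fin n)) where
  r π π' := ∀ y ∈ Y, (π y < π x ↔ π' y < π' x)
  iseqv := ⟨fun _ _ _ => Iff.rfl, fun h y hy => (h y hy).symm,
    fun h h' y hy => (h y hy).trans (h' y hy)⟩

/-- Same gaps with respect to `Y` for all elements of `A`. -/
def gapsS {n : ℕ} (Y A : Finset (Fin n)) : Setoid (Equiv.Perm (Fin n)) where
  r π π' := ∀ x ∈ A, ∀ y ∈ Y, (π y < π x ↔ π' y < π' x)
  iseqv := ⟨fun _ _ _ _ _ => Iff.rfl, fun h x hx y hy => (h x hx y hy).symm,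
    fun h h' x hx y hy => (h x hx y hy).trans (h' x hx y hy)⟩

/-- `x` and `y` lie in the same gap of `Y` under `π`. -/
def Same {n : ℕ} (Y : Finset (Fin n)) (x y : Fin n) (π : Equiv.Perm (Fin n)) : Prop :=
  ∀ z ∈ Y, (π z < π x ↔ π z < π y)

/-- Number of ordered pairs of distinct elements of `A` in a common gap of `Y` under `π`. -/
def prs {n : ℕ} (Y A : Finset (Fin n)) (π : Equiv.Perm (Fin n)) : ℕ := by
  classical exact ((A ×ˢ A).filter (fun p => p.1 ≠ p.2 ∧ Same Y p.1 p.2 π)).card

/-- Number of elements of `A` other than `x` in the same gap of `Y` as `x`. -/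
def nbr {n : ℕ} (Y A : Finset (Fin n)) (x : Fin n) (π : Equiv.Perm (Fin n)) : ℕ := by
  classical exact (A.filter (fun y => y ≠ x ∧ Same Y x y π)).card

/-- The elements of colour less than `i`. -/
def Ylt {n q : ℕ} (c : Fin n → Fin q) (i : ℕ) : Finset (Fin n) :=
  univ.filter (fun x => (c x : ℕ) < i)

/-- The elements of colour `i`. -/
def Acol {n q : ℕ} (c : Fin n → Fin q) (i : ℕ) : Finset (Fin n) :=
  univ.filter (fun x => (c x : ℕ) = i)

/-- The gap number of `x` with respect to `B`: number of elements of `B` below `x`. -/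
def row {n : ℕ} (B : Finset (Fin n)) (x : Fin n) (π : Equiv.Perm (Fin n)) : ℕ :=
  (B.filter (fun y => π y < π x)).card

end

end Pool.Agent.Work.MP_8eaa9c_co.Red
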