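import Pool.Agent.Work.MP_8eaa9c_co.Red.Defs

/-!
Module ENT: elementary facts on `J` (finite entropy).  No permutations here.

Proofs.  `cls P r π` is nonempty for `π ∈ P`, and `π' ∈ cls P r π` implies `cls P r π' = cls P r π`.
Useful first: `∑ π ∈ cls P g α, 1 / |cls P (g ⊓ f) π| = ` number of classes of `g ⊓ f` in
`cls P g α`, and in general `≤ 1` when summed over a set contained in one class.

* `J_mono`: termwise, `Real.log_le_log`.
* `J_submod`: by `log z ≤ z - 1` it suffices that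
  `∑ π, |gh(π)| |gf(π)| / (|g(π)| |gfh(π)|) ≤ |P|`.  Write the summand as
  `∑ α ∈ cls (g ⊓ h) π, ∑ β ∈ cls (g ⊓ f) π, 1 / (|g(π)| |gfh(π)|)`, exchange sums: for fixed `α` and
  `β ∈ cls g α` the sum over the `π` with `π ~ α` (g ⊓ h) and `π ~ β` (g ⊓ f) is over a subset of one
  class of `g ⊓ f ⊓ h`, so it is at most `1 / |g(α)|`.
* `J_classes`: `∑ log (|P| / (C |r(π)|)) ≤ ∑ (|P| / (C |r(π)|) - 1) ≤ 0`.
* `J_cond`: `∑ log (|g(π)| / (b(π) |gf(π)|)) ≤ ∑ (|g(π)| / (b(π) |gf(π)|) - 1) ≤ 0`; for the last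
  step write `|g(π)| = ∑ α ∈ cls g π, 1` and exchange.
* `coll_mono`: for each class `Ω` of `f` and each value `γ` of `r`, Sedrakyan's inequality
  (`Finset.sum_sq_le_...`/`Finset.sq_sum_div_le_sum_sq_div`)
  `|Ω_γ|^2 / |Ω| ≤ ∑ |E_γ|^2 / |E|` over the classes `E ⊆ Ω` of `e`.
-/

namespace Pool.Agent.Work.MP_8eaa9c_co.Red

open Finset

variable {Ω : Type*}

lemma mem_cls {P : Finset Ω} {r : Setoid Ω} {π π' : Ω} :
    π' ∈ cls P r π ↔ π' ∈ P ∧ r π π' := by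
  classical
  unfold cls
  rw [Finset.mem_filter]

lemma cls_card_pos {P : Finset Ω} {r : Setoid Ω} {π : Ω} (h : π ∈ P) :
    0 < (cls P r π).card := by
  exact Finset.card_pos.2 ⟨π, mem_cls.2 ⟨h, r.refl' π⟩⟩

lemma cls_eq {P : Finset Ω} {r : Setoid Ω} {π π' : Ω} (h : r π π') :
    cls P r π = cls P r π' := by
  ext x
  rw [mem_cls, mem_cls]
  exact ⟨fun hx => ⟨hx.1, r.trans' (r.symm' h) hx.2⟩, fun hx => ⟨hx.1, r.trans' h hx.2⟩⟩

lemma J_nonneg (P : Finset Ω) (r : Setoid Ω) : 0 ≤ J P r := by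
  exact Finset.sum_nonneg fun π _ => Real.log_natCast_nonneg _

lemma J_top (P : Finset Ω) : J P ⊤ = P.card * Real.log P.card := by
  unfold J
  have h : ∀ π ∈ P, Real.log ((cls P ⊤ π).card : ℝ) = Real.log P.card := by
    intro π _
    have : cls P ⊤ π = P := by
      ext x
      rw [mem_cls]
      exact ⟨fun h => h.1, fun h => ⟨h, trivial⟩⟩
    rw [this]
  rw [Finset.sum_congr rfl h, Finset.sum_const, nsmul_eq_mul]

lemma J_le_top (P : Finset Ω) (r : Setoid Ω) : J P r ≤ P.card * Real.log P.card := by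
  unfold J
  rw [← nsmul_eq_mul, ← Finset.sum_const]
  refine Finset.sum_le_sum fun π hπ => ?_
  refine Real.log_le_log (by exact_mod_cast cls_card_pos hπ) ?_
  exact_mod_cast Finset.card_le_card fun x hx => (mem_cls.1 hx).1

/-- If distinct elements of `P` are never equivalent then `J = 0`. -/
lemma J_eq_zero (P : Finset Ω) (r : Setoid Ω) (h : ∀ π ∈ P, ∀ π' ∈ P, r π π' → π = π') :
    J P r = 0 := by
  refine Finset.sum_eq_zero fun π hπ => ?_
  have h1 : cls P r π = {π} := by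
    ext x
    rw [mem_cls, Finset.mem_singleton]
    exact ⟨fun hx => (h π hπ x hx.1 hx.2).symm, fun hx => by subst hx; exact ⟨hπ, r.refl' _⟩⟩
  rw [h1, Finset.card_singleton, Nat.cast_one, Real.log_one]

lemma J_mono (P : Finset Ω) (r s : Setoid Ω) (h : ∀ π ∈ P, ∀ π' ∈ P, r π π' → s π π') :
    J P r ≤ J P s := by
  refine Finset.sum_le_sum fun π hπ => ?_
  refine Real.log_le_log (by exact_mod_cast cls_card_pos hπ) ?_
  refine Nat.cast_le.2 (Finset.card_le_card fun x hx => ?_)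
  obtain ⟨h1, h2⟩ := mem_cls.1 hx
  exact mem_cls.2 ⟨h1, h π hπ x h1 h2⟩

private lemma ent_one {P T : Finset Ω} {r : Setoid Ω} (hT : T ⊆ P)
    (h : ∀ π ∈ T, ∀ π' ∈ T, r π π') : ∑ π ∈ T, ((cls P r π).card : ℝ)⁻¹ ≤ 1 := by
  rcases T.eq_empty_or_nonempty with rfl | ⟨t, ht⟩
  · rw [Finset.sum_empty]
    exact zero_le_one
  · have h1 : ∀ π ∈ T, ((cls P r π).card : ℝ)⁻¹ = ((cls P r t).card : ℝ)⁻¹ := by
      intro π hπ
      rw [cls_eq (h π hπ t ht)]
    rw [Finset.sum_congr rfl h1, Finset.sum_const, nsmul_eq_mul]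
    have h2 : 0 < ((cls P r t).card : ℝ) := by exact_mod_cast cls_card_pos (hT ht)
    rw [← div_eq_mul_inv, div_le_one h2]
    exact_mod_cast Finset.card_le_card fun x hx => mem_cls.2 ⟨hT hx, h t ht x hx⟩

private lemma ent_img {T' : Type*} [DecidableEq T'] {P T : Finset Ω} {r : Setoid Ω} (hT : T ⊆ P)
    (Φ : Ω → T') (h : ∀ π ∈ T, ∀ π' ∈ T, Φ π = Φ π' → r π π') :
    ∑ π ∈ T, ((cls P r π).card : ℝ)⁻¹ ≤ (T.image Φ).card := by
  rw [← Finset.sum_fiberwise_of_maps_to (fun π hπ => Finset.mem_image_of_mem Φ hπ)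
    (fun π => ((cls P r π).card : ℝ)⁻¹)]
  have h1 : ∑ _v ∈ T.image Φ, (1 : ℝ) = (T.image Φ).card := by
    rw [Finset.sum_const, nsmul_eq_mul, mul_one]
  rw [← h1]
  refine Finset.sum_le_sum fun v _ => ?_
  refine ent_one (fun x hx => hT (Finset.mem_filter.1 hx).1) fun π hπ π' hπ' => ?_
  obtain ⟨a, b⟩ := Finset.mem_filter.1 hπ
  obtain ⟨a', b'⟩ := Finset.mem_filter.1 hπ'
  exact h π a π' a' (b.trans b'.symm)

private lemma ent_comm (P : Finset Ω) (r : Setoid Ω) (G : Ω → Ω → ℝ) :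
    ∑ π ∈ P, ∑ α ∈ cls P r π, G π α = ∑ α ∈ P, ∑ π ∈ cls P r α, G π α := by
  refine Finset.sum_comm' fun x y => ?_
  rw [mem_cls, mem_cls]
  exact ⟨fun h => ⟨⟨h.1, r.symm' h.2.2⟩, h.2.1⟩, fun h => ⟨h.1.1, h.2, r.symm' h.1.2⟩⟩

private lemma ent_avg (P : Finset Ω) (r : Setoid Ω) (G : Ω → ℝ) :
    ∑ π ∈ P, ((cls P r π).card : ℝ)⁻¹ * ∑ α ∈ cls P r π, G α = ∑ α ∈ P, G α := by
  simp only [Finset.mul_sum]
  rw [ent_comm]
  refine Finset.sum_congr rfl fun α hα => ?_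
  have h1 : ∀ π ∈ cls P r α, ((cls P r π).card : ℝ)⁻¹ * G α = ((cls P r α).card : ℝ)⁻¹ * G α := by
    intro π hπ
    rw [cls_eq (mem_cls.1 hπ).2]
  rw [Finset.sum_congr rfl h1, Finset.sum_const, nsmul_eq_mul, ← mul_assoc,
    mul_inv_cancel₀, one_mul]
  exact_mod_cast (cls_card_pos hα).ne'

private lemma ent_log {x y z w : ℝ} (hx : 0 < x) (hy : 0 < y) (hz : 0 < z) (hw : 0 < w) :
    Real.log x + Real.log y - Real.log z - Real.log w ≤ x * y / (z * w) - 1 := by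
  have h1 : 0 < x * y / (z * w) := by positivity
  have h2 := Real.log_le_sub_one_of_pos h1
  rw [Real.log_div (by positivity) (by positivity), Real.log_mul hx.ne' hy.ne',
    Real.log_mul hz.ne' hw.ne'] at h2
  linarith

/-- Submodularity: `H(f | g, h) ≤ H(f | g)`. -/
lemma J_submod (P : Finset Ω) (g h f : Setoid Ω) :
    J P (g ⊓ h) + J P (g ⊓ f) ≤ J P g + J P (g ⊓ h ⊓ f) := by
  classical
  have hpos : ∀ (r : Setoid Ω), ∀ π ∈ P, 0 < ((cls P r π).card : ℝ) := fun r π hπ => by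
    exact_mod_cast cls_card_pos hπ
  have hterm : ∀ π ∈ P, Real.log ((cls P (g ⊓ h) π).card : ℝ) +
      Real.log ((cls P (g ⊓ f) π).card : ℝ) - Real.log ((cls P g π).card : ℝ) -
      Real.log ((cls P (g ⊓ h ⊓ f) π).card : ℝ) ≤
      ((cls P (g ⊓ h) π).card : ℝ) * ((cls P (g ⊓ f) π).card : ℝ) /
        (((cls P g π).card : ℝ) * ((cls P (g ⊓ h ⊓ f) π).card : ℝ)) - 1 := fun π hπ =>
    ent_log (hpos _ π hπ) (hpos _ π hπ) (hpos _ π hπ) (hpos _ π hπ)
  have hsum := Finset.sum_le_sum hterm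
  rw [Finset.sum_sub_distrib, Finset.sum_sub_distrib, Finset.sum_add_distrib,
    Finset.sum_sub_distrib] at hsum
  have hkey : ∑ π ∈ P, ((cls P (g ⊓ h) π).card : ℝ) * ((cls P (g ⊓ f) π).card : ℝ) /
        (((cls P g π).card : ℝ) * ((cls P (g ⊓ h ⊓ f) π).card : ℝ)) ≤ ∑ _π ∈ P, (1 : ℝ) := by
    have e1 : ∀ π ∈ P, ((cls P (g ⊓ h) π).card : ℝ) * ((cls P (g ⊓ f) π).card : ℝ) /
        (((cls P g π).card : ℝ) * ((cls P (g ⊓ h ⊓ f) π).card : ℝ)) =
        ∑ _α ∈ cls P (g ⊓ h) π, ∑ _β ∈ cls P (g ⊓ f) π,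
          ((cls P g π).card : ℝ)⁻¹ * ((cls P (g ⊓ h ⊓ f) π).card : ℝ)⁻¹ := by
      intro π _
      rw [Finset.sum_const, Finset.sum_const, nsmul_eq_mul, nsmul_eq_mul, div_eq_mul_inv, mul_inv,
        mul_assoc]
    rw [Finset.sum_congr rfl e1, ent_comm]
    refine Finset.sum_le_sum fun α hα => ?_
    have e2 : ∑ π ∈ cls P (g ⊓ h) α, ∑ _β ∈ cls P (g ⊓ f) π,
          ((cls P g π).card : ℝ)⁻¹ * ((cls P (g ⊓ h ⊓ f) π).card : ℝ)⁻¹ =
        ∑ β ∈ cls P g α, ∑ π ∈ (cls P (g ⊓ h) α).filter (fun π => (g ⊓ f) π β),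
          ((cls P g π).card : ℝ)⁻¹ * ((cls P (g ⊓ h ⊓ f) π).card : ℝ)⁻¹ := by
      refine Finset.sum_comm' fun x y => ?_
      rw [Finset.mem_filter, mem_cls, mem_cls, mem_cls]
      constructor
      · rintro ⟨⟨a1, a2⟩, b1, b2⟩
        exact ⟨⟨⟨a1, a2⟩, b2⟩, b1, g.trans' a2.1 b2.1⟩
      · rintro ⟨⟨⟨a1, a2⟩, b2⟩, b1, _⟩
        exact ⟨⟨a1, a2⟩, b1, b2⟩
    rw [e2]
    have e3 : ∀ β ∈ cls P g α, ∑ π ∈ (cls P (g ⊓ h) α).filter (fun π => (g ⊓ f) π β),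
          ((cls P g π).card : ℝ)⁻¹ * ((cls P (g ⊓ h ⊓ f) π).card : ℝ)⁻¹ ≤
            ((cls P g α).card : ℝ)⁻¹ := by
      intro β _
      have e4 : ∀ π ∈ (cls P (g ⊓ h) α).filter (fun π => (g ⊓ f) π β),
          ((cls P g π).card : ℝ)⁻¹ * ((cls P (g ⊓ h ⊓ f) π).card : ℝ)⁻¹ =
          ((cls P g α).card : ℝ)⁻¹ * ((cls P (g ⊓ h ⊓ f) π).card : ℝ)⁻¹ := by
        intro π hπ
        rw [cls_eq (P := P) (r := g) (mem_cls.1 (Finset.mem_filter.1 hπ).1).2.1]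
      rw [Finset.sum_congr rfl e4, ← Finset.mul_sum]
      have e5 := ent_one (P := P) (T := (cls P (g ⊓ h) α).filter (fun π => (g ⊓ f) π β))
        (r := g ⊓ h ⊓ f) (fun x hx => (mem_cls.1 (Finset.mem_filter.1 hx).1).1) (by
          intro π hπ π' hπ'
          obtain ⟨a, b⟩ := Finset.mem_filter.1 hπ
          obtain ⟨a', b'⟩ := Finset.mem_filter.1 hπ'
          have c := (mem_cls.1 a).2
          have c' := (mem_cls.1 a').2
          exact ⟨⟨g.trans' (g.symm' c.1) c'.1, h.trans' (h.symm' c.2) c'.2⟩,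
            f.trans' b.2 (f.symm' b'.2)⟩)
      have h0 : 0 < ((cls P g α).card : ℝ)⁻¹ := inv_pos.2 (hpos g α hα)
      nlinarith
    refine (Finset.sum_le_sum e3).trans ?_
    rw [Finset.sum_const, nsmul_eq_mul, mul_inv_cancel₀ (hpos g α hα).ne']
  unfold J
  linarith

/-- `H(r) ≤ log C` if there are at most `C` classes. -/
lemma J_classes {T : Type*} [DecidableEq T] (P : Finset Ω) (r : Setoid Ω) (Φ : Ω → T)
    (hΦ : ∀ π ∈ P, ∀ π' ∈ P, Φ π = Φ π' → r π π') (C : ℝ)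
    (hC : ((P.image Φ).card : ℝ) ≤ C) :
    P.card * Real.log P.card - J P r ≤ P.card * Real.log C := by
  rcases P.eq_empty_or_nonempty with rfl | hne
  · simp [J]
  have hP : 0 < (P.card : ℝ) := by exact_mod_cast Finset.card_pos.2 hne
  have hC0 : 0 < C := by
    have h1 : 0 < ((P.image Φ).card : ℝ) := by
      exact_mod_cast Finset.card_pos.2 (hne.image Φ)
    linarith
  have hterm : ∀ π ∈ P, Real.log P.card - Real.log ((cls P r π).card : ℝ) - Real.log C ≤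
      (P.card : ℝ) / C * ((cls P r π).card : ℝ)⁻¹ - 1 := by
    intro π hπ
    have hπ0 : 0 < ((cls P r π).card : ℝ) := by exact_mod_cast cls_card_pos hπ
    have h1 := ent_log hP one_pos hπ0 hC0
    rw [Real.log_one, add_zero, mul_one] at h1
    have h2 : (P.card : ℝ) / (((cls P r π).card : ℝ) * C) =
        (P.card : ℝ) / C * ((cls P r π).card : ℝ)⁻¹ := by
      field_simp
    rw [h2] at h1
    exact h1
  have hsum := Finset.sum_le_sum hterm
  rw [Finset.sum_sub_distrib, Finset.sum_sub_distrib, Finset.sum_sub_distrib,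
    ← Finset.mul_sum] at hsum
  simp only [Finset.sum_const, nsmul_eq_mul, mul_one] at hsum
  have h3 := ent_img (P := P) (T := P) (r := r) subset_rfl Φ hΦ
  have h4 : (P.card : ℝ) / C * ∑ π ∈ P, ((cls P r π).card : ℝ)⁻¹ ≤ P.card := by
    have h5 : (P.card : ℝ) / C * ∑ π ∈ P, ((cls P r π).card : ℝ)⁻¹ ≤ (P.card : ℝ) / C * C :=
      mul_le_mul_of_nonneg_left (h3.trans hC) (by positivity)
    rwa [div_mul_cancel₀ _ hC0.ne'] at h5
  unfold J
  linarith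

/-- `H(f | g) ≤ E log b` if the class of `π` under `g` meets at most `b π` classes of `f`. -/
lemma J_cond (P : Finset Ω) (g f : Setoid Ω) (b : Ω → ℕ)
    (hb : ∀ π ∈ P, ∀ π' ∈ P, g π π' → b π = b π')
    (hΦ : ∀ α ∈ P, ∃ Φ : Ω → ℕ, (∀ π ∈ cls P g α, ∀ π' ∈ cls P g α, Φ π = Φ π' → f π π') ∧
      ((cls P g α).image Φ).card ≤ b α) :
    J P g - J P (g ⊓ f) ≤ ∑ π ∈ P, Real.log (b π) := by
  classical
  have hb0 : ∀ π ∈ P, 0 < (b π : ℝ) := by
    intro π hπ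
    obtain ⟨Φ, _, h2⟩ := hΦ π hπ
    have h3 : 0 < ((cls P g π).image Φ).card :=
      Finset.card_pos.2 (Finset.Nonempty.image ⟨π, mem_cls.2 ⟨hπ, g.refl' π⟩⟩ Φ)
    exact_mod_cast lt_of_lt_of_le h3 h2
  have hpos : ∀ (r : Setoid Ω), ∀ π ∈ P, 0 < ((cls P r π).card : ℝ) := fun r π hπ => by
    exact_mod_cast cls_card_pos hπ
  have hterm : ∀ π ∈ P, Real.log ((cls P g π).card : ℝ) -
      Real.log ((cls P (g ⊓ f) π).card : ℝ) - Real.log (b π) ≤
      (∑ _α ∈ cls P g π, (b π : ℝ)⁻¹ * ((cls P (g ⊓ f) π).card : ℝ)⁻¹) - 1 := by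
    intro π hπ
    have h1 := ent_log (hpos g π hπ) one_pos (hpos (g ⊓ f) π hπ) (hb0 π hπ)
    rw [Real.log_one, add_zero, mul_one] at h1
    refine h1.trans (le_of_eq ?_)
    rw [Finset.sum_const, nsmul_eq_mul, div_eq_mul_inv, mul_inv]
    ring
  have hsum := Finset.sum_le_sum hterm
  rw [Finset.sum_sub_distrib, Finset.sum_sub_distrib, Finset.sum_sub_distrib, ent_comm] at hsum
  have h2 : ∑ α ∈ P, ∑ π ∈ cls P g α, (b π : ℝ)⁻¹ * ((cls P (g ⊓ f) π).card : ℝ)⁻¹ ≤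
      ∑ _α ∈ P, (1 : ℝ) := by
    refine Finset.sum_le_sum fun α hα => ?_
    obtain ⟨Φ, h3, h4⟩ := hΦ α hα
    have e1 : ∀ π ∈ cls P g α, (b π : ℝ)⁻¹ * ((cls P (g ⊓ f) π).card : ℝ)⁻¹ =
        (b α : ℝ)⁻¹ * ((cls P (g ⊓ f) π).card : ℝ)⁻¹ := by
      intro π hπ
      obtain ⟨a1, a2⟩ := mem_cls.1 hπ
      rw [hb α hα π a1 a2]
    rw [Finset.sum_congr rfl e1, ← Finset.mul_sum]
    have h5 := ent_img (P := P) (T := cls P g α) (r := g ⊓ f) (fun x hx => (mem_cls.1 hx).1) Φ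
      (fun π hπ π' hπ' e => ⟨g.trans' (g.symm' (mem_cls.1 hπ).2) (mem_cls.1 hπ').2,
        h3 π hπ π' hπ' e⟩)
    have h6 : (((cls P g α).image Φ).card : ℝ) ≤ b α := by exact_mod_cast h4
    rw [inv_mul_le_iff₀ (hb0 α hα), mul_one]
    exact h5.trans h6
  unfold J
  linarith

/-- Averages of collision probabilities decrease under coarsening of the conditioning. -/
lemma coll_mono (P : Finset Ω) (f e : Setoid Ω) (hef : ∀ π ∈ P, ∀ π' ∈ P, e π π' → f π π')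
    (ρ : Ω → ℕ) :
    ∑ π ∈ P, (((cls P f π).filter (fun π' => ρ π' = ρ π)).card : ℝ) / (cls P f π).card ≤
      ∑ π ∈ P, (((cls P e π).filter (fun π' => ρ π' = ρ π)).card : ℝ) / (cls P e π).card := by
  classical
  have hpos : ∀ (r : Setoid Ω), ∀ π ∈ P, 0 < ((cls P r π).card : ℝ) := fun r π hπ => by
    exact_mod_cast cls_card_pos hπ
  let r' : Setoid Ω := f ⊓ Setoid.ker ρ
  have hr' : ∀ π, (cls P f π).filter (fun π' => ρ π' = ρ π) = cls P r' π := by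
    intro π
    ext x
    rw [Finset.mem_filter, mem_cls, mem_cls]
    exact ⟨fun h => ⟨h.1.1, h.1.2, h.2.symm⟩, fun h => ⟨⟨h.1, h.2.1⟩, h.2.2.symm⟩⟩
  rw [← ent_avg P r' (fun π => (((cls P f π).filter (fun π' => ρ π' = ρ π)).card : ℝ) /
      (cls P f π).card),
    ← ent_avg P r' (fun π => (((cls P e π).filter (fun π' => ρ π' = ρ π)).card : ℝ) /
      (cls P e π).card)]
  refine Finset.sum_le_sum fun π₀ hπ₀ => ?_
  refine mul_le_mul_of_nonneg_left ?_ (by positivity)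
  set A : Finset Ω := cls P f π₀ with hA
  set γ : ℕ := ρ π₀ with hγ
  let u : Ω → ℝ := fun π => (((cls P e π).filter (fun π' => ρ π' = γ)).card : ℝ) /
    (cls P e π).card
  have hsub : ∀ π ∈ A, ∀ x ∈ cls P e π, x ∈ A := by
    intro π hπ x hx
    obtain ⟨h1, h2⟩ := mem_cls.1 hπ
    obtain ⟨h3, h4⟩ := mem_cls.1 hx
    exact mem_cls.2 ⟨h3, f.trans' h2 (hef π h1 x h3 h4)⟩
  have havg : ∀ v : Ω → ℝ, (∀ π ∈ A, ∀ x ∈ cls P e π, v π = v x) →
      ∑ π ∈ A, v π * u π = ∑ π ∈ A.filter (fun π => ρ π = γ), v π := by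
    intro v hv
    have e1 : ∀ π ∈ A, v π * u π = ∑ x ∈ (cls P e π).filter (fun π' => ρ π' = γ),
        v π * ((cls P e π).card : ℝ)⁻¹ := by
      intro π _
      rw [Finset.sum_const, nsmul_eq_mul]
      show v π * ((((cls P e π).filter (fun π' => ρ π' = γ)).card : ℝ) / (cls P e π).card) = _
      ring
    rw [Finset.sum_congr rfl e1]
    have e2 : ∑ π ∈ A, ∑ x ∈ (cls P e π).filter (fun π' => ρ π' = γ),
        v π * ((cls P e π).card : ℝ)⁻¹ = ∑ x ∈ A.filter (fun π => ρ π = γ), ∑ π ∈ cls P e x,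
          v π * ((cls P e π).card : ℝ)⁻¹ := by
      refine Finset.sum_comm' fun x y => ?_
      rw [Finset.mem_filter, Finset.mem_filter]
      constructor
      · rintro ⟨h1, h2, h3⟩
        obtain ⟨h4, h5⟩ := mem_cls.1 h2
        exact ⟨mem_cls.2 ⟨(mem_cls.1 h1).1, e.symm' h5⟩, hsub x h1 y h2, h3⟩
      · rintro ⟨h1, h2, h3⟩
        obtain ⟨h4, h5⟩ := mem_cls.1 h1
        exact ⟨hsub y h2 x h1, mem_cls.2 ⟨(mem_cls.1 h2).1, e.symm' h5⟩, h3⟩
    rw [e2]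
    refine Finset.sum_congr rfl fun x hx => ?_
    have hxA := (Finset.mem_filter.1 hx).1
    have hxP := (mem_cls.1 hxA).1
    have e3 : ∀ π ∈ cls P e x, v π * ((cls P e π).card : ℝ)⁻¹ =
        v x * ((cls P e x).card : ℝ)⁻¹ := by
      intro π hπ
      rw [← hv x hxA π hπ, cls_eq (mem_cls.1 hπ).2]
    rw [Finset.sum_congr rfl e3, Finset.sum_const, nsmul_eq_mul]
    have h0 := (hpos e x hxP).ne'
    field_simp
  have hu : ∀ π ∈ A, ∀ x ∈ cls P e π, u π = u x := by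
    intro π _ x hx
    show (((cls P e π).filter (fun π' => ρ π' = γ)).card : ℝ) / (cls P e π).card =
      (((cls P e x).filter (fun π' => ρ π' = γ)).card : ℝ) / (cls P e x).card
    rw [cls_eq (mem_cls.1 hx).2]
  have h1 := havg (fun _ => 1) (fun _ _ _ _ => rfl)
  have h2 := havg u hu
  simp only [one_mul, Finset.sum_const, nsmul_eq_mul, mul_one] at h1
  have hB : cls P r' π₀ = A.filter (fun π => ρ π = γ) := (hr' π₀).symm
  rw [hB]
  have h3 : ∑ π ∈ A.filter (fun π => ρ π = γ), (((cls P f π).filter (fun π' => ρ π' = ρ π)).card : ℝ) /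
      (cls P f π).card = ((A.filter (fun π => ρ π = γ)).card : ℝ) ^ 2 / A.card := by
    have e1 : ∀ π ∈ A.filter (fun π => ρ π = γ),
        (((cls P f π).filter (fun π' => ρ π' = ρ π)).card : ℝ) / (cls P f π).card =
        ((A.filter (fun π => ρ π = γ)).card : ℝ) / A.card := by
      intro π hπ
      obtain ⟨h4, h5⟩ := Finset.mem_filter.1 hπ
      have h6 : cls P f π = A := (cls_eq (mem_cls.1 h4).2).symm
      rw [h6, h5]
    rw [Finset.sum_congr rfl e1, Finset.sum_const, nsmul_eq_mul]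
    ring
  have h4 : ∑ π ∈ A.filter (fun π => ρ π = γ), (((cls P e π).filter (fun π' => ρ π' = ρ π)).card : ℝ) /
      (cls P e π).card = ∑ π ∈ A.filter (fun π => ρ π = γ), u π := by
    refine Finset.sum_congr rfl fun π hπ => ?_
    rw [(Finset.mem_filter.1 hπ).2]
  show ∑ π ∈ A.filter (fun π => ρ π = γ), (((cls P f π).filter (fun π' => ρ π' = ρ π)).card : ℝ) /
      (cls P f π).card ≤ ∑ π ∈ A.filter (fun π => ρ π = γ),
        (((cls P e π).filter (fun π' => ρ π' = ρ π)).card : ℝ) / (cls P e π).card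
  rw [h3, h4, ← h2, ← h1]
  have hA0 : 0 < (A.card : ℝ) := hpos f π₀ hπ₀
  rw [div_le_iff₀ hA0, mul_comm]
  have h5 := sq_sum_le_card_mul_sum_sq (s := A) (f := u)
  refine h5.trans (le_of_eq ?_)
  congr 1
  exact Finset.sum_congr rfl fun π _ => pow_two _

end Pool.Agent.Work.MP_8eaa9c_co.Red
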