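import Pool.Agent.Work.MP_8eaa9c_co.Red.Asm4

/-!
The reduction theorem: dense balanced matrices hit `F` implies exponential behaviour of `F`.
-/

namespace Pool.Agent.Work.MP_8eaa9c_co.Red

open Finset

lemma exp_ge (k : ℕ) (K : ℝ) (hK : 2000 * (k : ℝ) + 4 ≤ K) :
    1000 * k * (K + 2) ≤ Real.exp K := by
  have hk : (0 : ℝ) ≤ k := by positivity
  have h1 := Real.quadratic_le_exp_of_nonneg (by linarith : (0 : ℝ) ≤ K)
  have h2 : 0 ≤ K * (K - (2000 * k + 4)) := mul_nonneg (by linarith) (by linarith)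
  nlinarith

lemma n_ge {n : ℕ} (P : Finset (Equiv.Perm (Fin n))) (K : ℝ)
    (hPK : (P.card : ℝ) = Real.exp (K * n)) (hn : 1 ≤ n) : Real.exp K ≤ n := by
  have h1 : P.card ≤ n ^ n := by
    refine le_trans (card_le_univ P) ?_
    rw [Fintype.card_perm, Fintype.card_fin]
    exact Nat.factorial_le_pow n
  have h2 : Real.exp K ^ n ≤ (n : ℝ) ^ n := by
    rw [← Real.exp_nat_mul, mul_comm, ← hPK]
    exact_mod_cast h1
  exact (pow_le_pow_iff_left₀ (Real.exp_pos K).le (by positivity) (by omega)).1 h2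

lemma lam0_pos {N k : ℕ} (hN : 1 ≤ N) (hk : 1 ≤ k) :
    0 < -Real.log (1 - 1 / (4 * k : ℝ) ^ N) := by
  have hkr : (1 : ℝ) ≤ k := by exact_mod_cast hk
  rw [Left.neg_pos_iff]
  apply Real.log_neg
  · rw [sub_pos, div_lt_one (by positivity)]
    exact one_lt_pow₀ (by linarith) (by omega)
  · have : (0 : ℝ) < 1 / (4 * k : ℝ) ^ N := by positivity
    linarith

lemma bracket (k : ℕ) (hk : 1 ≤ k) (q l w K : ℝ) (hl : 20 ≤ l) (hw : 0 < w)
    (hq : q ≤ 2 * (K + 2))
    (hK : 1000 * k * (K + 2) ≤ Real.exp K) :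
    w * k * l ≤ w * (2 * k * l - k) - (4 * k : ℝ) ^ 2 * (2 * q * l * Real.exp (-K) * w) -
        ((4 * k : ℝ) * l * w + (4 * k : ℝ) ^ 2 * (2 * q * l * Real.exp (-K) * w) +
          (4 * k : ℝ) ^ 2 * l * w + ((4 * k : ℝ) ^ 2 + 1) * (2 * l * w)) / (64 * k) := by
  have hkr : (1 : ℝ) ≤ k := by exact_mod_cast hk
  have hk0 : (0 : ℝ) < k := by linarith
  have hE : k * (q * Real.exp (-K)) ≤ 1 / 500 := by
    rw [Real.exp_neg]
    have he := Real.exp_pos K
    rw [← div_eq_mul_inv, ← mul_div_assoc, div_le_iff₀ he]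
    nlinarith
  have hlw : 0 < l * w := by positivity
  have hklw : l * w ≤ k * (l * w) := by nlinarith
  have h1 : (4 * k : ℝ) ^ 2 * (2 * q * l * Real.exp (-K) * w) ≤ 64 / 1000 * (k * (l * w)) := by
    have : (4 * k : ℝ) ^ 2 * (2 * q * l * Real.exp (-K) * w) =
        32 * (k * (q * Real.exp (-K))) * (k * (l * w)) := by ring
    rw [this]
    have h2 : 0 ≤ k * (l * w) := by positivity
    nlinarith
  have h2 : ((4 * k : ℝ) * l * w + (4 * k : ℝ) ^ 2 * (2 * q * l * Real.exp (-K) * w) +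
          (4 * k : ℝ) ^ 2 * l * w + ((4 * k : ℝ) ^ 2 + 1) * (2 * l * w)) / (64 * k) ≤
      85 / 100 * (k * (l * w)) := by
    rw [div_le_iff₀ (by positivity)]
    have h3 : 85 / 100 * (k * (l * w)) * (64 * k) = 54.4 * (k * (k * (l * w))) := by
      norm_num; ring
    have h4 : k * (l * w) ≤ k * (k * (l * w)) := mul_le_mul_of_nonneg_left hklw hk0.le
    have h5 : (4 * k : ℝ) * l * w + 64 / 1000 * (k * (l * w)) +
          (4 * k : ℝ) ^ 2 * l * w + ((4 * k : ℝ) ^ 2 + 1) * (2 * l * w) =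
        4.064 * (k * (l * w)) + 48 * (k * (k * (l * w))) + 2 * (l * w) := by
      norm_num; ring
    norm_num at h3 h5 ⊢
    linarith
  have h3 : w * k ≤ 5 / 100 * (k * (l * w)) := by
    have : 0 ≤ k * w * (l - 20) := mul_nonneg (by positivity) (by linarith)
    nlinarith
  have h4 : w * (2 * k * l - k) = 2 * (k * (l * w)) - w * k := by ring
  have h5 : w * k * l = k * (l * w) := by ring
  have h6 : 0 ≤ k * (l * w) := by positivity
  rw [h4, h5]
  linarith

theorem core {N n k : ℕ} (hN : 1 ≤ N) (hk : 1 ≤ k) (F : Set (Set (Equiv.Perm (Fin N))))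
    (hD : DenseHits 64 k F) (P : Finset (Equiv.Perm (Fin n)))
    (hP : Restricted F (P : Set (Equiv.Perm (Fin n)))) (K : ℝ) (hn : 1 ≤ n)
    (hPK : (P.card : ℝ) = Real.exp (K * n))
    (hle : ∀ j ≤ n, ∀ P' : Finset (Equiv.Perm (Fin j)),
      Restricted F (P' : Set (Equiv.Perm (Fin j))) → (P'.card : ℝ) ≤ Real.exp (K * j))
    (hK1 : 2000 * (k : ℝ) + 4 ≤ K)
    (hK2 : 36 * N / (-Real.log (1 - 1 / (4 * k : ℝ) ^ N)) < K) : False := by
  have hkr : (1 : ℝ) ≤ k := by exact_mod_cast hk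
  have hNr : (1 : ℝ) ≤ N := by exact_mod_cast hN
  have hK0 : 0 ≤ K := by linarith
  set lam := -Real.log (1 - 1 / (4 * k : ℝ) ^ N) with hlam
  have hlam0 : 0 < lam := lam0_pos hN hk
  set m : ℕ := ⌈K⌉₊ + 1 with hm
  have hm1 : K ≤ (m : ℝ) - 1 := by
    rw [hm]; push_cast; have := Nat.le_ceil K; linarith
  have hm2 : (m : ℝ) ≤ K + 2 := by
    rw [hm]; push_cast; have := Nat.ceil_lt_add_one hK0; linarith
  have hm3 : 2 ≤ m := by
    have : (2 : ℝ) ≤ m := by linarith
    exact_mod_cast this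
  obtain ⟨i, hi1, hi2, hup⟩ := window_upper F P hP K hK0 hPK hle m hm3 hm1
  set l : ℝ := (n : ℝ) / (2 * m) with hl
  set w : ℝ := ((2 * m : ℕ) : ℝ) ^ n * P.card with hw
  have hmr : (0 : ℝ) < m := by linarith
  have hlq : l * ((2 * m : ℕ) : ℝ) = n := by rw [hl]; push_cast; field_simp
  have hlo := lower hN hk F hD P hP K hPK hle i hi1 hi2 l w hlq hw
  rw [← hlam] at hlo
  have hw0 : 0 < w := by
    rw [hw, hPK]
    have := Real.exp_pos (K * n)
    push_cast
    positivity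
  have hexp := exp_ge k K hK1
  have hng := n_ge P K hPK hn
  have hl20 : 20 ≤ l := by
    rw [hl, le_div_iff₀ (by positivity)]
    have h1 : 1000 * (K + 2) ≤ 1000 * k * (K + 2) := by nlinarith
    linarith
  have hbr := bracket k hk ((2 * m : ℕ) : ℝ) l w K hl20 hw0 (by push_cast; linarith)
    hexp
  have hc₁ : 0 ≤ lam / (4 * k * N) := by positivity
  have h1 := (mul_le_mul_of_nonneg_left hbr hc₁).trans hlo
  have hm0 : (0 : ℝ) ≤ (m : ℝ) - 1 := by linarith
  have h2 := (mul_le_mul_of_nonneg_left h1 hm0).trans hup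
  -- (m - 1) * (lam / (4kN) * (w k l)) ≤ 9 l w
  have hlw : 0 < l * w := by positivity
  have h3 : ((m : ℝ) - 1) * (lam / (4 * k * N) * (w * k * l)) =
      (((m : ℝ) - 1) * lam / (4 * N)) * (l * w) := by
    field_simp
  rw [h3, mul_assoc 9 l w] at h2
  have h4 := le_of_mul_le_mul_right h2 hlw
  rw [div_le_iff₀ (by positivity)] at h4
  rw [div_lt_iff₀ hlam0] at hK2
  have h5 : K * lam ≤ ((m : ℝ) - 1) * lam := mul_le_mul_of_nonneg_right hm1 hlam0.le
  linarith

/-- The reduction theorem. -/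
theorem red {N : ℕ} (hN : 1 ≤ N) (F : Set (Set (Equiv.Perm (Fin N)))) (k : ℕ) (hk : 1 ≤ k)
    (hD : DenseHits 64 k F) : ExponentialBehaviour F := by
  classical
  set K₀ : ℝ := max (2000 * (k : ℝ) + 4) (36 * N / (-Real.log (1 - 1 / (4 * k : ℝ) ^ N))) with hK₀
  by_contra hno
  have hex : ∃ n : ℕ, ∃ P : Finset (Equiv.Perm (Fin n)),
      Restricted F (P : Set (Equiv.Perm (Fin n))) ∧ Real.exp K₀ ^ n < P.card := by
    by_contra hno2
    apply hno
    refine ⟨Real.exp K₀, fun n P hP => ?_⟩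
    by_contra hlt
    exact hno2 ⟨n, P, hP, not_le.1 hlt⟩
  obtain ⟨n, ⟨P₀, hP₀, hP₀c⟩, hmin'⟩ : ∃ n : ℕ, (∃ P : Finset (Equiv.Perm (Fin n)),
      Restricted F (P : Set (Equiv.Perm (Fin n))) ∧ Real.exp K₀ ^ n < P.card) ∧
      ∀ j < n, ¬ ∃ P : Finset (Equiv.Perm (Fin j)),
      Restricted F (P : Set (Equiv.Perm (Fin j))) ∧ Real.exp K₀ ^ j < P.card :=
    ⟨Nat.find hex, Nat.find_spec hex, fun j hj => Nat.find_min hex hj⟩
  have hmin : ∀ j < n, ∀ P : Finset (Equiv.Perm (Fin j)),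
      Restricted F (P : Set (Equiv.Perm (Fin j))) → (P.card : ℝ) ≤ Real.exp K₀ ^ j := by
    intro j hj P hP
    by_contra hlt
    exact hmin' j hj ⟨P, hP, not_le.1 hlt⟩
  obtain ⟨P, hPmem, hPmax⟩ := exists_max_image
    ((univ : Finset (Finset (Equiv.Perm (Fin n)))).filter
      (fun P : Finset (Equiv.Perm (Fin n)) => Restricted F (P : Set (Equiv.Perm (Fin n)))))
    (fun P => P.card)
    ⟨P₀, mem_filter.2 ⟨mem_univ _, hP₀⟩⟩
  have hP := (mem_filter.1 hPmem).2
  have hPc : Real.exp K₀ ^ n < P.card := by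
    refine lt_of_lt_of_le hP₀c ?_
    exact_mod_cast hPmax P₀ (mem_filter.2 ⟨mem_univ _, hP₀⟩)
  have hn1 : 1 ≤ n := by
    rcases Nat.eq_zero_or_pos n with h0 | h0
    · exfalso
      have h1 : P.card ≤ 1 := by
        refine le_trans (card_le_univ P) ?_
        rw [Fintype.card_perm, Fintype.card_fin, h0]
        simp
      have h2 : (P.card : ℝ) ≤ 1 := by exact_mod_cast h1
      have h3 : Real.exp K₀ ^ n = 1 := by rw [h0, pow_zero]
      linarith
    · exact h0
  have hnr : (0 : ℝ) < n := by exact_mod_cast hn1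
  have hPpos : (0 : ℝ) < P.card := lt_trans (pow_pos (Real.exp_pos _) _) hPc
  set K : ℝ := Real.log P.card / n with hK
  have hPK : (P.card : ℝ) = Real.exp (K * n) := by
    rw [hK, div_mul_cancel₀ _ hnr.ne', Real.exp_log hPpos]
  have hKK : K₀ < K := by
    rw [← Real.exp_nat_mul, hPK] at hPc
    have := Real.exp_lt_exp.1 hPc
    rw [mul_comm] at this
    exact lt_of_mul_lt_mul_right this hnr.le
  have hle : ∀ j ≤ n, ∀ P' : Finset (Equiv.Perm (Fin j)),
      Restricted F (P' : Set (Equiv.Perm (Fin j))) → (P'.card : ℝ) ≤ Real.exp (K * j) := by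
    intro j hj P' hP'
    rcases hj.lt_or_eq with h | h
    · refine (hmin j h P' hP').trans ?_
      rw [← Real.exp_nat_mul]
      apply Real.exp_le_exp.2
      rw [mul_comm]
      exact mul_le_mul_of_nonneg_right hKK.le (by positivity)
    · subst h
      rw [← hPK]
      exact_mod_cast hPmax P' (mem_filter.2 ⟨mem_univ _, hP'⟩)
  exact core hN hk F hD P hP K hn1 hPK hle ((le_max_left _ _).trans hKK.le)
    (lt_of_le_of_lt (le_max_right _ _) hKK)

end Pool.Agent.Work.MP_8eaa9c_co.Red
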