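import Mathlib

/-!
Module LAM: a contraction lemma for finite sets `M` of pairs (letter, row).

`S ⊆ M` is a set of cuts containing the first one of every letter; two entries `(a,p)`, `(a,t)`,
`p < t`, are in one piece if there is no cut `(a,s)` with `p < s ≤ t`.  Hypothesis `hk`: then fewer than
`k` letters `b ≠ a` with `L a ≤ L b` have two entries in the open interval `(p, t)`.
Claim `|M| ≤ (k + 4) (|S| + R)`, `R` the number of rows of `M`.

Proof by strong induction on `|M|`.  If `M` is empty it is trivial.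
(1) If some piece (the entries `(a,t)`, `p ≤ t`, with no cut in `(p,t]`, for a cut `(a,p)`) has at most
`k + 4` entries, delete the piece and its cut; if `p` was the first one of `a`, the next cut becomes the
first one.  All hypotheses persist, `|M|` drops by at most `k + 4` (and at least `1`), `|S|` by one.
(2) Otherwise take a letter `a` of `M` with `L a` minimal, a piece of it with first row `p` and last row
`t`, and let `I` be the open interval `(p, t)`, `m` the number of rows of `M` in `I` (`m ≥ 3`).  Let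
`i₀ ∈ I` be a row of `M`, `φ r = i₀` for `r ∈ I` and `φ r = r` otherwise (monotone).  Take the images
`M'`, `S'` under `(b, r) ↦ (b, φ r)`.  Then `|S'| ≤ |S|`, `R' = R - (m - 1)`,
`|M'| = |M| - ∑_b (|b ∩ I| - 1)^+` and the sum is at most `k (m - 1)`: the letter `a` contributes at most
`m - 1`, every other letter `b` of `M` has `L a ≤ L b`, so fewer than `k` of them have two entries in
`I`, each contributing at most `m - 1`.  `|M'| < |M|` as `a` has at least two entries in `I`.
The hypotheses persist: for entries `(b,p')`, `(b,t')` of `M'` in one piece of `M'` let `p₁` be the largest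
row of `b` with `φ p₁ = p'` and `t₁` the smallest one with `φ t₁ = t'`; then `(b,p₁)`, `(b,t₁)` are in one
piece of `M`, and two entries of a letter `c` of `M'` in `(p', t')` lift to two entries in `(p₁, t₁)`.
-/

namespace Pool.Agent.Work.MP_8eaa9c_co.Red

open Finset

/-- The letter `b` has two entries in the open interval `(p, t)`. -/
def Twice {ι : Type} (M : Finset (ι × ℕ)) (b : ι) (p t : ℕ) : Prop :=
  ∃ s s', p < s ∧ s < s' ∧ s' < t ∧ (b, s) ∈ M ∧ (b, s') ∈ M

/-- the hypothesis on pieces -/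
private def HK {ι : Type} (k : ℕ) (L : ι → ℕ) (M S : Finset (ι × ℕ)) : Prop :=
  ∀ a p t, (a, p) ∈ M → (a, t) ∈ M → p < t → (∀ s, (a, s) ∈ S → p < s → ¬ s ≤ t) →
      ∃ T : Finset ι, T.card < k ∧ ∀ b, b ≠ a → L a ≤ L b → Twice M b p t → b ∈ T

/-- the hypothesis on first entries -/
private def HF {ι : Type} (M S : Finset (ι × ℕ)) : Prop :=
  ∀ a t, (a, t) ∈ M → ∃ s, s ≤ t ∧ (a, s) ∈ S

open Classical in
/-- a piece -/
private noncomputable def pce {ι : Type} (M S : Finset (ι × ℕ)) (a : ι) (p : ℕ) : Finset (ι × ℕ) :=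
  M.filter (fun x => x.1 = a ∧ p ≤ x.2 ∧ ∀ s, (a, s) ∈ S → p < s → ¬ s ≤ x.2)

private lemma mem_pce {ι : Type} {M S : Finset (ι × ℕ)} {a : ι} {p : ℕ} {x : ι × ℕ} :
    x ∈ pce M S a p ↔ x ∈ M ∧ x.1 = a ∧ p ≤ x.2 ∧ ∀ s, (a, s) ∈ S → p < s → ¬ s ≤ x.2 := by
  classical
  unfold pce
  rw [Finset.mem_filter]

private lemma twice_sub {ι : Type} {M M' : Finset (ι × ℕ)} (h : M' ⊆ M) {b : ι} {p t : ℕ}
    (hT : Twice M' b p t) : Twice M b p t := by
  obtain ⟨s, s', h1, h2, h3, h4, h5⟩ := hT
  exact ⟨s, s', h1, h2, h3, h h4, h h5⟩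

private lemma case_one {ι : Type} [DecidableEq ι] {k : ℕ} {L : ι → ℕ} {M S : Finset (ι × ℕ)}
    (hS : S ⊆ M) (hf : HF M S) (hk : HK k L M S) {a : ι} {p : ℕ} (hap : (a, p) ∈ S) :
    S.erase (a, p) ⊆ M \ pce M S a p ∧ HF (M \ pce M S a p) (S.erase (a, p)) ∧
      HK k L (M \ pce M S a p) (S.erase (a, p)) := by
  refine ⟨?_, ?_, ?_⟩
  · rintro ⟨b, s⟩ hx
    obtain ⟨h1, h2⟩ := Finset.mem_erase.1 hx
    refine Finset.mem_sdiff.2 ⟨hS h2, fun h3 => ?_⟩
    obtain ⟨_, h4, h5, h6⟩ := mem_pce.1 h3
    have h4' : b = a := h4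
    subst h4'
    have h5' : p ≤ s := h5
    have h7 : p < s := lt_of_le_of_ne h5' fun e => h1 (by rw [e])
    exact h6 s h2 h7 le_rfl
  · intro b t hbt
    obtain ⟨h1, h2⟩ := Finset.mem_sdiff.1 hbt
    obtain ⟨s, hs, hsS⟩ := hf b t h1
    by_cases he : (b, s) = (a, p)
    · obtain ⟨rfl, rfl⟩ := Prod.mk.inj he
      have h3 : ¬ (∀ s', (b, s') ∈ S → s < s' → ¬ s' ≤ t) := by
        intro h4
        exact h2 (mem_pce.2 ⟨h1, rfl, hs, h4⟩)
      push Not at h3
      obtain ⟨s', h5, h6, h7⟩ := h3
      refine ⟨s', h7, Finset.mem_erase.2 ⟨fun e => ?_, h5⟩⟩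
      have := (Prod.mk.inj e).2
      omega
    · exact ⟨s, hs, Finset.mem_erase.2 ⟨he, hsS⟩⟩
  · intro b p' t hbp hbt hlt hno
    obtain ⟨h1, h2⟩ := Finset.mem_sdiff.1 hbt
    obtain ⟨T, hT1, hT2⟩ := hk b p' t (Finset.mem_sdiff.1 hbp).1 h1 hlt (by
      intro s hs hps hst
      by_cases he : (b, s) = (a, p)
      · obtain ⟨rfl, rfl⟩ := Prod.mk.inj he
        have h3 : ¬ (∀ s', (b, s') ∈ S → s < s' → ¬ s' ≤ t) := by
          intro h4
          exact h2 (mem_pce.2 ⟨h1, rfl, hst, h4⟩)
        push Not at h3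
        obtain ⟨s', h5, h6, h7⟩ := h3
        refine hno s' (Finset.mem_erase.2 ⟨fun e => ?_, h5⟩) (hps.trans h6) h7
        have := (Prod.mk.inj e).2
        omega
      · exact hno s (Finset.mem_erase.2 ⟨he, hs⟩) hps hst)
    exact ⟨T, hT1, fun c hc hL hTw => hT2 c hc hL (twice_sub Finset.sdiff_subset hTw)⟩

/-- the contraction of rows -/
private def ct (p t i : ℕ) (r : ℕ) : ℕ := if p < r ∧ r < t then i else r

private lemma ct_mono {p t i : ℕ} (h1 : p < i) (h2 : i < t) {r r' : ℕ} (h : r ≤ r') :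
    ct p t i r ≤ ct p t i r' := by
  unfold ct
  split_ifs <;> omega

private lemma ct_lt {p t i : ℕ} (h1 : p < i) (h2 : i < t) {r r' : ℕ}
    (h : ct p t i r < ct p t i r') : r < r' := by
  by_contra h3
  exact absurd (ct_mono h1 h2 (not_lt.1 h3)) (not_le.2 h)

/-- the contraction of entries -/
private def ctP {ι : Type} (p t i : ℕ) (x : ι × ℕ) : ι × ℕ := (x.1, ct p t i x.2)

private lemma case_two {ι : Type} [DecidableEq ι] {k : ℕ} {L : ι → ℕ} {M S : Finset (ι × ℕ)}
    (hS : S ⊆ M) (hf : HF M S) (hk : HK k L M S) {p t i : ℕ} (hp : p < i) (ht : i < t) :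
    S.image (ctP p t i) ⊆ M.image (ctP p t i) ∧ HF (M.image (ctP p t i)) (S.image (ctP p t i)) ∧
      HK k L (M.image (ctP p t i)) (S.image (ctP p t i)) := by
  have hmem : ∀ (A : Finset (ι × ℕ)) (b : ι) (r : ℕ), (b, r) ∈ A.image (ctP p t i) ↔
      ∃ r₀, (b, r₀) ∈ A ∧ ct p t i r₀ = r := by
    intro A b r
    rw [Finset.mem_image]
    constructor
    · rintro ⟨⟨b', r'⟩, h1, h2⟩
      obtain ⟨h3, h4⟩ := Prod.mk.inj h2
      have h3' : b' = b := h3
      subst h3'
      exact ⟨r', h1, h4⟩
    · rintro ⟨r₀, h1, h2⟩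
      exact ⟨(b, r₀), h1, by unfold ctP; rw [h2]⟩
  refine ⟨Finset.image_subset_image hS, ?_, ?_⟩
  · intro b r hbr
    obtain ⟨r₀, h1, rfl⟩ := (hmem M b r).1 hbr
    obtain ⟨s, hs, hsS⟩ := hf b r₀ h1
    exact ⟨ct p t i s, ct_mono hp ht hs, (hmem S b _).2 ⟨s, hsS, rfl⟩⟩
  · intro b p' t' hbp hbt hlt hno
    obtain ⟨t₁, ht₁, rfl⟩ := (hmem M b t').1 hbt
    obtain ⟨p₀, hp₀, hp₀'⟩ := (hmem M b p').1 hbp
    obtain ⟨⟨b', p₁⟩, hx, hmax⟩ := Finset.exists_max_image
      (M.filter (fun x => x.1 = b ∧ ct p t i x.2 = p')) Prod.snd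
      ⟨(b, p₀), Finset.mem_filter.2 ⟨hp₀, rfl, hp₀'⟩⟩
    obtain ⟨hx1, hx2, hx3⟩ := Finset.mem_filter.1 hx
    have hx2' : b' = b := hx2
    subst hx2'
    have hx3' : ct p t i p₁ = p' := hx3
    have hpt : p₁ < t₁ := ct_lt hp ht (by rw [hx3']; exact hlt)
    obtain ⟨T, hT1, hT2⟩ := hk b' p₁ t₁ hx1 ht₁ hpt (by
      intro s hs h1 h2
      have h3 : ct p t i s ≤ ct p t i t₁ := ct_mono hp ht h2
      have h4 : p' ≤ ct p t i s := by
        rw [← hx3']
        exact ct_mono hp ht h1.le
      rcases eq_or_lt_of_le h4 with h5 | h5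
      · have h6 := hmax (b', s) (Finset.mem_filter.2 ⟨hS hs, rfl, h5.symm⟩)
        have h7 : s ≤ p₁ := h6
        omega
      · exact hno _ ((hmem S b' _).2 ⟨s, hs, rfl⟩) h5 h3)
    refine ⟨T, hT1, fun c hc hL hTw => hT2 c hc hL ?_⟩
    obtain ⟨s, s', h1, h2, h3, h4, h5⟩ := hTw
    obtain ⟨σ, hσ, rfl⟩ := (hmem M c s).1 h4
    obtain ⟨σ', hσ', rfl⟩ := (hmem M c s').1 h5
    exact ⟨σ, σ', ct_lt hp ht (by rw [hx3']; exact h1), ct_lt hp ht h2, ct_lt hp ht h3, hσ, hσ'⟩

private lemma count_two {ι : Type} [DecidableEq ι] {k : ℕ} {M : Finset (ι × ℕ)}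
    {p t i : ℕ} (hp : p < i) (ht : i < t) (hi : i ∈ M.image Prod.snd) (T : Finset ι)
    (hT : T.card ≤ k) (hTw : ∀ b, Twice M b p t → b ∈ T) :
    ∃ m, M.card ≤ (M.image (ctP p t i)).card + k * m ∧
      ((M.image (ctP p t i)).image Prod.snd).card + m ≤ (M.image Prod.snd).card := by
  set I := (M.image Prod.snd).filter (fun r => p < r ∧ r < t) with hI
  have hiI : i ∈ I := Finset.mem_filter.2 ⟨hi, hp, ht⟩
  obtain ⟨m, hm⟩ : ∃ m, I.card = m + 1 :=
    ⟨I.card - 1, (Nat.sub_add_cancel (Finset.card_pos.2 ⟨i, hiI⟩)).symm⟩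
  refine ⟨m, ?_, ?_⟩
  · set Mi := M.filter (fun x => p < x.2 ∧ x.2 < t) with hMi
    set Mo := M.filter (fun x => ¬ (p < x.2 ∧ x.2 < t)) with hMo
    have h1 : Mi.card + Mo.card = M.card :=
      Finset.card_filter_add_card_filter_not (s := M) (fun x => p < x.2 ∧ x.2 < t)
    set B := Mi.image Prod.fst with hB
    have h2 : Mo.card + B.card ≤ (M.image (ctP p t i)).card := by
      have h3 : (B.image (fun b => (b, i))).card = B.card :=
        Finset.card_image_of_injective _ fun b b' e => (Prod.mk.inj e).1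
      rw [← h3, ← Finset.card_union_of_disjoint]
      · refine Finset.card_le_card fun x hx => ?_
        rcases Finset.mem_union.1 hx with hx | hx
        · obtain ⟨h4, h5⟩ := Finset.mem_filter.1 hx
          refine Finset.mem_image.2 ⟨x, h4, ?_⟩
          unfold ctP ct
          rw [if_neg h5]
        · obtain ⟨b, hb, rfl⟩ := Finset.mem_image.1 hx
          obtain ⟨y, hy, rfl⟩ := Finset.mem_image.1 hb
          obtain ⟨h4, h5⟩ := Finset.mem_filter.1 hy
          refine Finset.mem_image.2 ⟨y, h4, ?_⟩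
          unfold ctP ct
          rw [if_pos h5]
      · rw [Finset.disjoint_left]
        intro x hx hx'
        obtain ⟨_, h5⟩ := Finset.mem_filter.1 hx
        obtain ⟨b, _, rfl⟩ := Finset.mem_image.1 hx'
        exact h5 ⟨hp, ht⟩
    have h3 : Mi.card ≤ B.card + k * m := by
      rw [Finset.card_eq_sum_card_fiberwise (f := Prod.fst) (t := B)
        (fun x hx => Finset.mem_image_of_mem _ hx)]
      have h4 : ∀ b ∈ B, (Mi.filter (fun x => x.1 = b)).card ≤ 1 + if b ∈ T then m else 0 := by
        intro b _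
        split_ifs with hbT
        · rw [add_comm 1 m, ← hm]
          refine Finset.card_le_card_of_injOn Prod.snd (fun x hx => ?_) ?_
          · obtain ⟨h5, _⟩ := Finset.mem_filter.1 hx
            obtain ⟨h6, h7⟩ := Finset.mem_filter.1 h5
            exact Finset.mem_filter.2 ⟨Finset.mem_image_of_mem _ h6, h7⟩
          · intro x hx x' hx' e
            have h8 := (Finset.mem_filter.1 (Finset.mem_coe.1 hx)).2
            have h9 := (Finset.mem_filter.1 (Finset.mem_coe.1 hx')).2
            exact Prod.ext (h8.trans h9.symm) e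
        · rw [add_zero, Finset.card_le_one]
          rintro ⟨b₁, r₁⟩ h5 ⟨b₂, r₂⟩ h6
          obtain ⟨h7, h8⟩ := Finset.mem_filter.1 h5
          obtain ⟨h9, h10⟩ := Finset.mem_filter.1 h6
          obtain ⟨h11, h12⟩ := Finset.mem_filter.1 h7
          obtain ⟨h13, h14⟩ := Finset.mem_filter.1 h9
          have e1 : b₁ = b := h8
          have e2 : b₂ = b := h10
          subst e1
          subst e2
          rcases lt_trichotomy r₁ r₂ with h | h | h
          · exact absurd (hTw _ ⟨r₁, r₂, h12.1, h, h14.2, h11, h13⟩) hbT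
          · rw [h]
          · exact absurd (hTw _ ⟨r₂, r₁, h14.1, h, h12.2, h13, h11⟩) hbT
      refine (Finset.sum_le_sum h4).trans ?_
      rw [Finset.sum_add_distrib, Finset.sum_const, smul_eq_mul, mul_one]
      refine Nat.add_le_add_left ?_ _
      rw [← Finset.sum_filter, Finset.sum_const, smul_eq_mul]
      refine Nat.mul_le_mul_right _ (le_trans (Finset.card_le_card fun x hx => ?_) hT)
      exact (Finset.mem_filter.1 hx).2
    omega
  · have h1 := Finset.card_filter_add_card_filter_not (s := M.image Prod.snd)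
      (fun r => p < r ∧ r < t)
    rw [← hI, hm] at h1
    have h2 : ((M.image (ctP p t i)).image Prod.snd).card ≤
        ((M.image Prod.snd).filter (fun r => ¬ (p < r ∧ r < t))).card + 1 := by
      refine le_trans (Finset.card_le_card ?_) (Finset.card_insert_le i _)
      intro r hr
      obtain ⟨x, hx, rfl⟩ := Finset.mem_image.1 hr
      obtain ⟨y, hy, rfl⟩ := Finset.mem_image.1 hx
      show ct p t i y.2 ∈ _
      by_cases h3 : p < y.2 ∧ y.2 < t
      · have h4 : ct p t i y.2 = i := if_pos h3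
        rw [h4]
        exact Finset.mem_insert_self _ _
      · have h4 : ct p t i y.2 = y.2 := if_neg h3
        rw [h4]
        exact Finset.mem_insert_of_mem (Finset.mem_filter.2 ⟨Finset.mem_image_of_mem _ hy, h3⟩)
    omega

private lemma lam_aux {ι : Type} [DecidableEq ι] (k : ℕ) (L : ι → ℕ) :
    ∀ (n : ℕ) (M S : Finset (ι × ℕ)), M.card = n → S ⊆ M → HF M S → HK k L M S →
      M.card ≤ (k + 4) * (S.card + (M.image Prod.snd).card) := by
  intro n
  induction n using Nat.strong_induction_on with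
  | _ n ih =>
    intro M S hn hS hf hk
    rcases M.eq_empty_or_nonempty with rfl | hne
    · rw [Finset.card_empty]
      exact Nat.zero_le _
    by_cases hc : ∃ a p, (a, p) ∈ S ∧ (pce M S a p).card ≤ k + 4
    · obtain ⟨a, p, hap, hcard⟩ := hc
      obtain ⟨h1, h2, h3⟩ := case_one hS hf hk hap
      have hsub : pce M S a p ⊆ M := fun x hx => (mem_pce.1 hx).1
      have hpos : 0 < (pce M S a p).card := by
        refine Finset.card_pos.2 ⟨(a, p), mem_pce.2 ⟨hS hap, rfl, le_rfl, ?_⟩⟩
        intro s _ h4 h5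
        exact absurd h4 (not_lt.2 h5)
      have hsd := Finset.card_sdiff_add_card_eq_card hsub
      have h4 := ih (M \ pce M S a p).card (by omega) _ _ rfl h1 h2 h3
      have h5 : (S.erase (a, p)).card + 1 = S.card := Finset.card_erase_add_one hap
      have h6 : ((M \ pce M S a p).image Prod.snd).card ≤ (M.image Prod.snd).card :=
        Finset.card_le_card (Finset.image_subset_image Finset.sdiff_subset)
      calc M.card ≤ (k + 4) * ((S.erase (a, p)).card + ((M \ pce M S a p).image Prod.snd).card) +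
            (k + 4) := by omega
        _ = (k + 4) * ((S.erase (a, p)).card + 1 + ((M \ pce M S a p).image Prod.snd).card) := by
            ring
        _ ≤ (k + 4) * (S.card + (M.image Prod.snd).card) := by
            rw [h5]
            exact Nat.mul_le_mul_left _ (Nat.add_le_add_left h6 _)
    · push Not at hc
      obtain ⟨a, ha, hmin⟩ := Finset.exists_min_image (M.image Prod.fst) L (hne.image _)
      obtain ⟨⟨a', r⟩, har, e⟩ := Finset.mem_image.1 ha
      have e' : a' = a := e
      subst e'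
      obtain ⟨p, _, hap⟩ := hf a' r har
      have hDc := hc a' p hap
      have hDne : (pce M S a' p).Nonempty := Finset.card_pos.1 (by omega)
      obtain ⟨⟨a₁, t⟩, hx, hmax⟩ := Finset.exists_max_image (pce M S a' p) Prod.snd hDne
      obtain ⟨hx1, hx2, hx3, hx4⟩ := mem_pce.1 hx
      have e₁ : a₁ = a' := hx2
      subst e₁
      have hpt : p ≤ t := hx3
      set Din := (pce M S a₁ p).filter (fun x => p < x.2 ∧ x.2 < t) with hDin
      have hDin2 : 1 < Din.card := by
        have h1 : (pce M S a₁ p).card ≤ (insert (a₁, p) (insert (a₁, t) Din)).card := by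
          refine Finset.card_le_card ?_
          rintro ⟨b, r'⟩ hb
          obtain ⟨h2, h3, h4, _⟩ := mem_pce.1 hb
          have h3' : b = a₁ := h3
          subst h3'
          have h4' : p ≤ r' := h4
          have h5 : r' ≤ t := hmax _ hb
          rw [Finset.mem_insert, Finset.mem_insert]
          rcases eq_or_lt_of_le h4' with h6 | h6
          · left
            rw [h6]
          · rcases eq_or_lt_of_le h5 with h7 | h7
            · right
              left
              rw [h7]
            · right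
              right
              exact Finset.mem_filter.2 ⟨hb, h6, h7⟩
        have h2 := Finset.card_insert_le (a₁, p) (insert (a₁, t) Din)
        have h3 := Finset.card_insert_le (a₁, t) Din
        omega
      obtain ⟨⟨b, i⟩, ⟨b', j⟩, hb, hb', hne'⟩ := Finset.one_lt_card_iff.1 hDin2
      obtain ⟨hbD, hpi, hit⟩ := Finset.mem_filter.1 hb
      obtain ⟨hbD', hpj, hjt⟩ := Finset.mem_filter.1 hb'
      have hbe : b = a₁ := (mem_pce.1 hbD).2.1
      have hbe' : b' = a₁ := (mem_pce.1 hbD').2.1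
      subst hbe
      subst hbe'
      have hpi' : p < i := hpi
      have hit' : i < t := hit
      have hpj' : p < j := hpj
      have hjt' : j < t := hjt
      have hbM : (b', i) ∈ M := (mem_pce.1 hbD).1
      have hbM' : (b', j) ∈ M := (mem_pce.1 hbD').1
      obtain ⟨T, hT1, hT2⟩ := hk b' p t (hS hap) hx1 (by omega) hx4
      obtain ⟨h1, h2, h3⟩ := case_two hS hf hk hpi' hit'
      obtain ⟨m, h4, h5⟩ := count_two (k := k) (M := M) hpi' hit'
        (Finset.mem_image.2 ⟨(b', i), hbM, rfl⟩) (insert b' T)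
        ((Finset.card_insert_le _ _).trans hT1) (by
          intro c hc'
          by_cases hcb : c = b'
          · rw [hcb]
            exact Finset.mem_insert_self _ _
          · refine Finset.mem_insert_of_mem (hT2 c hcb (hmin c ?_) hc')
            obtain ⟨s, s', _, _, _, h6, _⟩ := hc'
            exact Finset.mem_image.2 ⟨(c, s), h6, rfl⟩)
      have hlt : (M.image (ctP p t i)).card < n := by
        rw [← hn]
        refine lt_of_le_of_ne Finset.card_image_le fun e2 => ?_
        have h6 := Finset.card_image_iff.1 e2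
        apply hne'
        refine h6 (Finset.mem_coe.2 hbM) (Finset.mem_coe.2 hbM') ?_
        unfold ctP ct
        rw [if_pos ⟨hpi', hit'⟩, if_pos ⟨hpj', hjt'⟩]
      have h6 := ih _ hlt _ _ rfl h1 h2 h3
      have h7 : (S.image (ctP p t i)).card ≤ S.card := Finset.card_image_le
      calc M.card ≤ (k + 4) * ((S.image (ctP p t i)).card +
            ((M.image (ctP p t i)).image Prod.snd).card) + k * m := by omega
        _ ≤ (k + 4) * ((S.image (ctP p t i)).card +
            ((M.image (ctP p t i)).image Prod.snd).card) + (k + 4) * m :=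
            Nat.add_le_add_left (Nat.mul_le_mul_right _ (by omega)) _
        _ = (k + 4) * ((S.image (ctP p t i)).card +
            (((M.image (ctP p t i)).image Prod.snd).card + m)) := by ring
        _ ≤ (k + 4) * (S.card + (M.image Prod.snd).card) :=
            Nat.mul_le_mul_left _ (Nat.add_le_add h7 h5)

theorem lam {ι : Type} [DecidableEq ι] (k : ℕ) (L : ι → ℕ) (M S : Finset (ι × ℕ)) (hS : S ⊆ M)
    (hfirst : ∀ a t, (a, t) ∈ M → ∃ s, s ≤ t ∧ (a, s) ∈ S)
    (hk : ∀ a p t, (a, p) ∈ M → (a, t) ∈ M → p < t → (∀ s, (a, s) ∈ S → p < s → ¬ s ≤ t) →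
      ∃ T : Finset ι, T.card < k ∧ ∀ b, b ≠ a → L a ≤ L b → Twice M b p t → b ∈ T) :
    M.card ≤ (k + 4) * (S.card + (M.image Prod.snd).card) := by
  exact lam_aux k L M.card M S rfl hS hfirst hk

end Pool.Agent.Work.MP_8eaa9c_co.Red
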