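import Pool.Agent.Work.MP_8eaa9c_co.Red.Lam

/-!
Module NSHAPE: dense sets of pairs (letter, row) contain N-shaped configurations
(a form of a theorem of Klazar and Valtr).

* `greedy`: strong induction on `|T|`.  `T = ∅`: `S = ∅`.  Otherwise `p₀ = min T`,
  `T' = {t ∈ T | suc p₀ t}` (does not contain `p₀`, upper closed in `T`), `S = insert p₀ S'` with `S'` for
  `T'` by induction.
* `nshape_step`: let `L a` be the last row of `a` in `M`, `M₁ = M` without the entries `(a, L a)`
  (`|M| ≤ |M₁| + n`).  For each letter `a` let `suc p t` say that at least `k` letters `b ≠ a` with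
  `L a ≤ L b` have two entries of `M₁` in the open interval `(p, t)`; `greedy` gives `S_a`; let `S` be the
  union.  `lam` for `M₁`, `S`, `L` gives `|M₁| ≤ (k+4) (|S| + R)`.  If `|S| > C (n + R)` then `S` has an
  N-shape `y, p, q, r` of size `k`; with `a = y (last)`, `p (last) < q (last)` are both in `S_a`, so
  `suc (p last) (q last)` holds and some `b ∉ range y` with `L a ≤ L b` has entries
  `p last < s < s' < q last` in `M₁`.  Then `Fin.snoc y b`, `Fin.snoc p s`, `Fin.snoc q s'`,
  `Fin.snoc r (L b)` is an N-shape of size `k + 1` in `M` (`r last < L a ≤ L b` as `(a, r last) ∈ M₁`).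
  Otherwise `|M| ≤ n + (k+4) (C (n+R) + R) ≤ (1 + (k+4)(C+1)) (n+R)`.
* `nshape`: `k = 0` trivial, `k = 1`: `C = 2` (a letter with three entries), then `nshape_step`.
-/

namespace Pool.Agent.Work.MP_8eaa9c_co.Red

open Finset

/-- An N-shape: distinct letters `y 0, ..., y (k-1)` occurring in increasing rows in this order, then in
the reverse order, then again in this order. -/
def NShape {ι : Type} (M : Finset (ι × ℕ)) (k : ℕ) : Prop :=
  ∃ y : Fin k → ι, Function.Injective y ∧ ∃ p q r : Fin k → ℕ, StrictMono p ∧ StrictAnti q ∧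
    StrictMono r ∧ (∀ i j, p i < q j) ∧ (∀ i j, q i < r j) ∧
    ∀ i, (y i, p i) ∈ M ∧ (y i, q i) ∈ M ∧ (y i, r i) ∈ M

lemma greedy (suc : ℕ → ℕ → Prop) (h0 : ∀ p, ¬ suc p p)
    (hm : ∀ p p' t t', p' ≤ p → t ≤ t' → suc p t → suc p' t') (T : Finset ℕ) :
    ∃ S ⊆ T, (∀ t ∈ T, ∃ s ∈ S, s ≤ t) ∧ (∀ p ∈ S, ∀ p' ∈ S, p < p' → suc p p') ∧
      ∀ p ∈ T, ∀ t ∈ T, p < t → (∀ s ∈ S, p < s → ¬ s ≤ t) → ¬ suc p t := by
  classical
  induction hn : T.card using Nat.strong_induction_on generalizing T with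
  | _ n ih =>
    rcases T.eq_empty_or_nonempty with rfl | hne
    · exact ⟨∅, subset_rfl, by simp, by simp, by simp⟩
    set p₀ := T.min' hne with hp₀
    have hp₀T : p₀ ∈ T := T.min'_mem hne
    have hle : ∀ t ∈ T, p₀ ≤ t := fun t ht => T.min'_le t ht
    set T' := T.filter (fun t => suc p₀ t) with hT'
    have hlt : T'.card < n := by
      rw [← hn]
      refine Finset.card_lt_card ⟨Finset.filter_subset _ _, fun h => ?_⟩
      exact h0 p₀ (Finset.mem_filter.1 (h hp₀T)).2
    obtain ⟨S', hS'T, h1, h2, h3⟩ := ih _ hlt T' rfl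
    have hmem : ∀ x ∈ S', x ∈ T ∧ suc p₀ x := fun x hx => Finset.mem_filter.1 (hS'T hx)
    refine ⟨insert p₀ S', ?_, ?_, ?_, ?_⟩
    · intro x hx
      rcases Finset.mem_insert.1 hx with rfl | hx
      · exact hp₀T
      · exact (hmem x hx).1
    · intro t ht
      exact ⟨p₀, Finset.mem_insert_self _ _, hle t ht⟩
    · intro p hp p' hp' hlt'
      rcases Finset.mem_insert.1 hp' with rfl | hp'
      · exfalso
        rcases Finset.mem_insert.1 hp with rfl | hp
        · exact lt_irrefl _ hlt'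
        · exact absurd (hle p (hmem p hp).1) (not_le.2 hlt')
      · rcases Finset.mem_insert.1 hp with rfl | hp
        · exact (hmem p' hp').2
        · exact h2 p hp p' hp' hlt'
    · intro p hp t ht hpt hno hsuc
      have ht' : t ∈ T' := Finset.mem_filter.2 ⟨ht, hm p p₀ t t (hle p hp) le_rfl hsuc⟩
      by_cases hp' : p ∈ T'
      · exact h3 p hp' t ht' hpt (fun s hs => hno s (Finset.mem_insert_of_mem hs)) hsuc
      · obtain ⟨s, hs, hst⟩ := h1 t ht'
        by_cases hsp : s ≤ p
        · exact hp' (Finset.mem_filter.2 ⟨hp, hm p₀ p₀ s p le_rfl hsp (hmem s hs).2⟩)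
        · exact hno s (Finset.mem_insert_of_mem hs) (not_le.1 hsp) hst

private lemma snoc_mono {k : ℕ} {p : Fin k → ℕ} {s : ℕ} (hp : StrictMono p)
    (h : ∀ i, p i < s) : StrictMono (Fin.snoc p s : Fin (k + 1) → ℕ) := by
  intro i j hij
  induction i using Fin.lastCases with
  | last => exact absurd hij (not_lt.2 (Fin.le_last j))
  | cast i =>
    induction j using Fin.lastCases with
    | last =>
      rw [Fin.snoc_castSucc, Fin.snoc_last]
      exact h i
    | cast j =>
      rw [Fin.snoc_castSucc, Fin.snoc_castSucc]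
      exact hp (Fin.castSucc_lt_castSucc_iff.1 hij)

private lemma snoc_anti {k : ℕ} {p : Fin k → ℕ} {s : ℕ} (hp : StrictAnti p)
    (h : ∀ i, s < p i) : StrictAnti (Fin.snoc p s : Fin (k + 1) → ℕ) := by
  intro i j hij
  induction i using Fin.lastCases with
  | last => exact absurd hij (not_lt.2 (Fin.le_last j))
  | cast i =>
    induction j using Fin.lastCases with
    | last =>
      rw [Fin.snoc_castSucc, Fin.snoc_last]
      exact h i
    | cast j =>
      rw [Fin.snoc_castSucc, Fin.snoc_castSucc]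
      exact hp (Fin.castSucc_lt_castSucc_iff.1 hij)

private lemma snoc_lt {k : ℕ} {p q : Fin k → ℕ} {s s' : ℕ} (h : ∀ i j, p i < q j)
    (h1 : ∀ i, p i < s') (h2 : ∀ j, s < q j) (h3 : s < s') (i j : Fin (k + 1)) :
    (Fin.snoc p s : Fin (k + 1) → ℕ) i < (Fin.snoc q s' : Fin (k + 1) → ℕ) j := by
  induction i using Fin.lastCases with
  | last =>
    induction j using Fin.lastCases with
    | last => rwa [Fin.snoc_last, Fin.snoc_last]
    | cast j =>
      rw [Fin.snoc_last, Fin.snoc_castSucc]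
      exact h2 j
  | cast i =>
    induction j using Fin.lastCases with
    | last =>
      rw [Fin.snoc_castSucc, Fin.snoc_last]
      exact h1 i
    | cast j =>
      rw [Fin.snoc_castSucc, Fin.snoc_castSucc]
      exact h i j

private lemma snoc_inj {ι : Type} {k : ℕ} {y : Fin k → ι} {b : ι} (hy : Function.Injective y)
    (hb : ∀ i, y i ≠ b) : Function.Injective (Fin.snoc y b : Fin (k + 1) → ι) := by
  intro i j hij
  induction i using Fin.lastCases with
  | last =>
    induction j using Fin.lastCases with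
    | last => rfl
    | cast j =>
      rw [Fin.snoc_last, Fin.snoc_castSucc] at hij
      exact absurd hij.symm (hb j)
  | cast i =>
    induction j using Fin.lastCases with
    | last =>
      rw [Fin.snoc_castSucc, Fin.snoc_last] at hij
      exact absurd hij (hb i)
    | cast j =>
      rw [Fin.snoc_castSucc, Fin.snoc_castSucc] at hij
      rw [hy hij]

private lemma twice_mono {ι : Type} {M : Finset (ι × ℕ)} {b : ι} {p p' t t' : ℕ} (h1 : p' ≤ p)
    (h2 : t ≤ t') (h : Twice M b p t) : Twice M b p' t' := by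
  obtain ⟨s, s', a1, a2, a3, a4, a5⟩ := h
  exact ⟨s, s', lt_of_le_of_lt h1 a1, a2, lt_of_lt_of_le a3 h2, a4, a5⟩

lemma nshape_step (k C : ℕ) (hk : 1 ≤ k)
    (hC : ∀ {ι : Type} [DecidableEq ι] (M : Finset (ι × ℕ)),
      C * ((M.image Prod.fst).card + (M.image Prod.snd).card) < M.card → NShape M k)
    {ι : Type} [DecidableEq ι] (M : Finset (ι × ℕ))
    (hM : (1 + (k + 4) * (C + 1)) * ((M.image Prod.fst).card + (M.image Prod.snd).card) <
      M.card) : NShape M (k + 1) := by
  classical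
  set n := (M.image Prod.fst).card with hn
  set R := (M.image Prod.snd).card with hR
  let L : ι → ℕ := fun a => ((M.filter (fun x => x.1 = a)).image Prod.snd).sup id
  have hL1 : ∀ a t, (a, t) ∈ M → t ≤ L a := by
    intro a t h
    exact Finset.le_sup (f := id) (Finset.mem_image.2 ⟨(a, t), Finset.mem_filter.2 ⟨h, rfl⟩, rfl⟩)
  have hL2 : ∀ a t, (a, t) ∈ M → (a, L a) ∈ M := by
    intro a t h
    have hne : ((M.filter (fun x => x.1 = a)).image Prod.snd).Nonempty :=
      ⟨t, Finset.mem_image.2 ⟨(a, t), Finset.mem_filter.2 ⟨h, rfl⟩, rfl⟩⟩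
    obtain ⟨r, hr, e⟩ := Finset.exists_mem_eq_sup _ hne id
    obtain ⟨⟨b, r'⟩, hx, rfl⟩ := Finset.mem_image.1 hr
    obtain ⟨hx1, hx2⟩ := Finset.mem_filter.1 hx
    have hx2' : b = a := hx2
    subst hx2'
    have e' : L b = r' := e
    rw [e']
    exact hx1
  set M₁ := M.filter (fun x => x.2 ≠ L x.1) with hM₁
  have hM₁m : ∀ a t, (a, t) ∈ M₁ ↔ (a, t) ∈ M ∧ t < L a := by
    intro a t
    rw [hM₁, Finset.mem_filter]
    exact ⟨fun h => ⟨h.1, lt_of_le_of_ne (hL1 a t h.1) h.2⟩, fun h => ⟨h.1, ne_of_lt h.2⟩⟩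
  have hcard : M.card ≤ M₁.card + n := by
    have h1 := Finset.card_filter_add_card_filter_not (s := M) (fun x => x.2 ≠ L x.1)
    have h2 : (M.filter (fun x => ¬ x.2 ≠ L x.1)).card ≤ n := by
      refine Finset.card_le_card_of_injOn Prod.fst (fun x hx => ?_) ?_
      · exact Finset.mem_image_of_mem _ (Finset.mem_filter.1 hx).1
      · intro x hx x' hx' e
        have h3 := not_not.1 (Finset.mem_filter.1 hx).2
        have h4 := not_not.1 (Finset.mem_filter.1 hx').2
        refine Prod.ext e ?_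
        rw [h3, h4, e]
    rw [← hM₁] at h1
    rw [← h1]
    exact Nat.add_le_add_left h2 _
  let suc : ι → ℕ → ℕ → Prop := fun a p t => ∃ B : Finset ι, k ≤ B.card ∧
    ∀ b ∈ B, b ≠ a ∧ L a ≤ L b ∧ Twice M₁ b p t
  have hsuc0 : ∀ a p, ¬ suc a p p := by
    rintro a p ⟨B, hB, h⟩
    obtain ⟨b, hb⟩ := Finset.card_pos.1 (lt_of_lt_of_le hk hB)
    obtain ⟨s, s', h1, h2, h3, _⟩ := (h b hb).2.2
    omega
  have hsucm : ∀ a p p' t t', p' ≤ p → t ≤ t' → suc a p t → suc a p' t' := by
    rintro a p p' t t' h1 h2 ⟨B, hB, h⟩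
    exact ⟨B, hB, fun b hb => ⟨(h b hb).1, (h b hb).2.1, twice_mono h1 h2 (h b hb).2.2⟩⟩
  let T : ι → Finset ℕ := fun a => (M₁.filter (fun x => x.1 = a)).image Prod.snd
  have hT : ∀ a t, t ∈ T a ↔ (a, t) ∈ M₁ := by
    intro a t
    rw [Finset.mem_image]
    constructor
    · rintro ⟨⟨b, r⟩, hx, rfl⟩
      obtain ⟨h1, h2⟩ := Finset.mem_filter.1 hx
      have h2' : b = a := h2
      subst h2'
      exact h1
    · intro h
      exact ⟨(a, t), Finset.mem_filter.2 ⟨h, rfl⟩, rfl⟩
  choose Sa hSa1 hSa2 hSa3 hSa4 using fun a => greedy (suc a) (hsuc0 a) (hsucm a) (T a)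
  set S := M₁.filter (fun x => x.2 ∈ Sa x.1) with hS
  have hSm : ∀ a t, (a, t) ∈ S ↔ t ∈ Sa a := by
    intro a t
    rw [hS, Finset.mem_filter]
    exact ⟨fun h => h.2, fun h => ⟨(hT a t).1 (hSa1 a h), h⟩⟩
  have hSM₁ : S ⊆ M₁ := Finset.filter_subset _ _
  have hM₁M : M₁ ⊆ M := Finset.filter_subset _ _
  have hlam := lam k L M₁ S hSM₁ (by
      intro a t h
      obtain ⟨s, hs, hst⟩ := hSa2 a t ((hT a t).2 h)
      exact ⟨s, hst, (hSm a s).2 hs⟩) (by
      intro a p t hp ht hpt hno
      have h1 : ¬ suc a p t := hSa4 a p ((hT a p).2 hp) t ((hT a t).2 ht) hpt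
        (fun s hs => hno s ((hSm a s).2 hs))
      refine ⟨(M₁.image Prod.fst).filter (fun b => b ≠ a ∧ L a ≤ L b ∧ Twice M₁ b p t), ?_, ?_⟩
      · by_contra h2
        exact h1 ⟨_, not_lt.1 h2, fun b hb => (Finset.mem_filter.1 hb).2⟩
      · intro b hb1 hb2 hb3
        refine Finset.mem_filter.2 ⟨?_, hb1, hb2, hb3⟩
        obtain ⟨s, s', _, _, _, h4, _⟩ := hb3
        exact Finset.mem_image.2 ⟨(b, s), h4, rfl⟩)
  have hR₁ : (M₁.image Prod.snd).card ≤ R := Finset.card_le_card (Finset.image_subset_image hM₁M)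
  have hbig : C * (n + R) < S.card := by
    by_contra hcon
    have h1 := not_lt.1 hcon
    have h2 : M₁.card ≤ (k + 4) * (C * (n + R) + R) :=
      hlam.trans (Nat.mul_le_mul_left _ (by omega))
    have h3 : (k + 4) * (C * (n + R) + R) + n ≤ (1 + (k + 4) * (C + 1)) * (n + R) := by
      nlinarith [Nat.zero_le ((k + 4) * n)]
    exact absurd hM (not_lt.2 (hcard.trans ((Nat.add_le_add_right h2 n).trans h3)))
  have hSsh : NShape S k := by
    refine hC S (lt_of_le_of_lt ?_ hbig)
    refine Nat.mul_le_mul_left _ (Nat.add_le_add ?_ ?_)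
    · exact Finset.card_le_card (Finset.image_subset_image (hSM₁.trans hM₁M))
    · exact Finset.card_le_card (Finset.image_subset_image (hSM₁.trans hM₁M))
  obtain ⟨y, hy, p, q, r, hp, hq, hr, hpq, hqr, hmem⟩ := hSsh
  let l : Fin k := ⟨k - 1, by omega⟩
  have hl : ∀ i : Fin k, i ≤ l := fun i => by
    have := i.2
    show (i : ℕ) ≤ k - 1
    omega
  obtain ⟨B, hB, hBb⟩ : suc (y l) (p l) (q l) :=
    hSa3 (y l) (p l) ((hSm _ _).1 (hmem l).1) (q l) ((hSm _ _).1 (hmem l).2.1) (hpq l l)
  have hnot : y l ∉ B := fun h => (hBb _ h).1 rfl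
  obtain ⟨b, hbB, hby⟩ : ∃ b ∈ insert (y l) B, b ∉ (Finset.univ : Finset (Fin k)).image y := by
    by_contra hcon
    push Not at hcon
    have h1 := Finset.card_le_card (show insert (y l) B ⊆ Finset.univ.image y from hcon)
    rw [Finset.card_insert_of_notMem hnot] at h1
    have h2 := (Finset.card_image_le (s := (Finset.univ : Finset (Fin k))) (f := y))
    rw [Finset.card_univ, Fintype.card_fin] at h2
    omega
  have hby' : ∀ i, y i ≠ b := fun i h => hby (Finset.mem_image.2 ⟨i, Finset.mem_univ _, h⟩)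
  have hbB' : b ∈ B := by
    rcases Finset.mem_insert.1 hbB with h | h
    · exact absurd h.symm (hby' l)
    · exact h
  obtain ⟨hb1, hb2, s, s', hs1, hs2, hs3, hs4, hs5⟩ := hBb b hbB'
  have hpl : ∀ i, p i ≤ p l := fun i => hp.monotone (hl i)
  have hql : ∀ i, q l ≤ q i := fun i => hq.antitone (hl i)
  have hrl : ∀ i, r i ≤ r l := fun i => hr.monotone (hl i)
  have hrL : r l < L b := lt_of_lt_of_le ((hM₁m _ _).1 (hSM₁ (hmem l).2.2)).2 hb2
  refine ⟨Fin.snoc y b, snoc_inj hy hby', Fin.snoc p s, Fin.snoc q s', Fin.snoc r (L b),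
    snoc_mono hp ?_, snoc_anti hq ?_, snoc_mono hr ?_, snoc_lt hpq ?_ ?_ hs2,
    snoc_lt hqr ?_ ?_ ?_, ?_⟩
  · intro i
    exact lt_of_le_of_lt (hpl i) hs1
  · intro i
    exact lt_of_lt_of_le hs3 (hql i)
  · intro i
    exact lt_of_le_of_lt (hrl i) hrL
  · intro i
    have := hpl i
    omega
  · intro j
    have := hql j
    omega
  · intro i
    exact (hqr i l).trans hrL
  · intro j
    exact hs3.trans (hqr l j)
  · exact hs3.trans ((hqr l l).trans hrL)
  · intro i
    induction i using Fin.lastCases with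
    | last =>
      simp only [Fin.snoc_last]
      exact ⟨hM₁M hs4, hM₁M hs5, hL2 b s (hM₁M hs4)⟩
    | cast i =>
      simp only [Fin.snoc_castSucc]
      exact ⟨hM₁M (hSM₁ (hmem i).1), hM₁M (hSM₁ (hmem i).2.1), hM₁M (hSM₁ (hmem i).2.2)⟩

theorem nshape (k : ℕ) : ∃ C : ℕ, ∀ {ι : Type} [DecidableEq ι] (M : Finset (ι × ℕ)),
    C * ((M.image Prod.fst).card + (M.image Prod.snd).card) < M.card → NShape M k := by
  induction k with
  | zero =>
    refine ⟨0, fun {ι} _ M _ => ?_⟩
    exact ⟨Fin.elim0, fun i => i.elim0, Fin.elim0, Fin.elim0, Fin.elim0, fun i => i.elim0,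
      fun i => i.elim0, fun i => i.elim0, fun i => i.elim0, fun i => i.elim0, fun i => i.elim0⟩
  | succ k ih =>
    rcases Nat.eq_zero_or_pos k with rfl | hk
    · refine ⟨2, fun {ι} _ M hM => ?_⟩
      obtain ⟨a, _, ha⟩ := Finset.exists_lt_card_fiber_of_mul_lt_card_of_maps_to
        (s := M) (t := M.image Prod.fst) (f := Prod.fst) (n := 2)
        (fun x hx => Finset.mem_image_of_mem _ hx) (by nlinarith)
      have hinj : Set.InjOn Prod.snd ((M.filter (fun x => x.1 = a) : Finset (ι × ℕ)) :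
          Set (ι × ℕ)) := by
        intro x hx x' hx' e
        have h1 := (Finset.mem_filter.1 (Finset.mem_coe.1 hx)).2
        have h2 := (Finset.mem_filter.1 (Finset.mem_coe.1 hx')).2
        exact Prod.ext (h1.trans h2.symm) e
      have hcard : 3 ≤ ((M.filter (fun x => x.1 = a)).image Prod.snd).card := by
        rw [Finset.card_image_of_injOn hinj]
        exact ha
      obtain ⟨T, hT, hTc⟩ := Finset.exists_subset_card_eq hcard
      have hTm : ∀ t ∈ T, (a, t) ∈ M := by
        intro t ht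
        obtain ⟨⟨b, r⟩, hx, rfl⟩ := Finset.mem_image.1 (hT ht)
        obtain ⟨h1, h2⟩ := Finset.mem_filter.1 hx
        have h2' : b = a := h2
        subst h2'
        exact h1
      let e := T.orderEmbOfFin hTc
      have he : ∀ i, (a, e i) ∈ M := fun i => hTm _ (T.orderEmbOfFin_mem hTc i)
      have hsub : Subsingleton (Fin (0 + 1)) := (inferInstance : Subsingleton (Fin 1))
      have h01 : e 0 < e 1 := e.strictMono (by decide)
      have h12 : e 1 < e 2 := e.strictMono (by decide)
      refine ⟨fun _ => a, fun i j _ => Subsingleton.elim i j, fun _ => e 0, fun _ => e 1,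
        fun _ => e 2, ?_, ?_, ?_, fun _ _ => h01, fun _ _ => h12, fun _ => ⟨he 0, he 1, he 2⟩⟩
      · intro i j hij
        exact absurd hij (by rw [Subsingleton.elim i j]; exact lt_irrefl _)
      · intro i j hij
        exact absurd hij (by rw [Subsingleton.elim i j]; exact lt_irrefl _)
      · intro i j hij
        exact absurd hij (by rw [Subsingleton.elim i j]; exact lt_irrefl _)
    · obtain ⟨C, hC⟩ := ih
      exact ⟨1 + (k + 4) * (C + 1), fun {ι} _ M hM => nshape_step k C hk hC M hM⟩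

private lemma es_aux {α : Type} [LinearOrder α] (y : α → ℕ) (hy : Function.Injective y) (m : ℕ) :
    ∀ (n : ℕ) (A : Finset α), n * m < A.card →
      (∃ S ⊆ A, S.card = n + 1 ∧ StrictMonoOn y (S : Set α)) ∨
      (∃ S ⊆ A, S.card = m + 1 ∧ StrictAntiOn y (S : Set α)) := by
  classical
  intro n
  induction n with
  | zero =>
    intro A hA
    rw [zero_mul] at hA
    obtain ⟨a, ha⟩ := Finset.card_pos.1 hA
    refine Or.inl ⟨{a}, Finset.singleton_subset_iff.2 ha, Finset.card_singleton a, ?_⟩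
    intro x hx x' hx' h
    rw [Finset.coe_singleton, Set.mem_singleton_iff] at hx hx'
    subst hx
    subst hx'
    exact absurd h (lt_irrefl _)
  | succ n ih =>
    intro A hA
    let B := A.filter (fun i => ∃ S ⊆ A, S.card = n + 1 ∧ StrictMonoOn y (S : Set α) ∧ i ∈ S ∧
      ∀ j ∈ S, j ≤ i)
    by_cases h1 : n * m < (A \ B).card
    · rcases ih (A \ B) h1 with ⟨S, hS, hSc, hSm⟩ | ⟨S, hS, hSc, hSm⟩
      · exfalso
        have hne : S.Nonempty := Finset.card_pos.1 (by omega)
        have h2 : S.max' hne ∈ A \ B := hS (S.max'_mem hne)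
        obtain ⟨h3, h4⟩ := Finset.mem_sdiff.1 h2
        exact h4 (Finset.mem_filter.2 ⟨h3, S, hS.trans Finset.sdiff_subset, hSc, hSm,
          S.max'_mem hne, fun j hj => S.le_max' j hj⟩)
      · exact Or.inr ⟨S, hS.trans Finset.sdiff_subset, hSc, hSm⟩
    · have hBA : B ⊆ A := Finset.filter_subset _ _
      have h2 := Finset.card_sdiff_add_card_eq_card hBA
      have h3 : m + 1 ≤ B.card := by
        have : (n + 1) * m = n * m + m := by ring
        omega
      by_cases h4 : StrictAntiOn y (B : Set α)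
      · obtain ⟨S, hS, hSc⟩ := Finset.exists_subset_card_eq h3
        exact Or.inr ⟨S, hS.trans hBA, hSc, fun x hx x' hx' h =>
          h4 (hS (Finset.mem_coe.1 hx)) (hS (Finset.mem_coe.1 hx')) h⟩
      · unfold StrictAntiOn at h4
        push Not at h4
        obtain ⟨i, hi, j, hj, hij, hle⟩ := h4
        obtain ⟨_, S, hSA, hSc, hSm, hiS, hmax⟩ := Finset.mem_filter.1 (Finset.mem_coe.1 hi)
        have hlt : y i < y j := lt_of_le_of_ne hle fun e => (ne_of_lt hij) (hy e)
        have hjS : j ∉ S := fun h => absurd (hmax j h) (not_le.2 hij)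
        refine Or.inl ⟨insert j S, ?_, by rw [Finset.card_insert_of_notMem hjS, hSc], ?_⟩
        · intro x hx
          rcases Finset.mem_insert.1 hx with rfl | hx
          · exact hBA (Finset.mem_coe.1 hj)
          · exact hSA hx
        · intro x hx x' hx' h
          rcases Finset.mem_insert.1 (Finset.mem_coe.1 hx') with e' | h5'
          · rcases Finset.mem_insert.1 (Finset.mem_coe.1 hx) with e | h5
            · rw [e, e'] at h
              exact absurd h (lt_irrefl _)
            · rw [e']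
              rcases eq_or_lt_of_le (hmax x h5) with e | h6
              · rw [e]
                exact hlt
              · exact (hSm (Finset.mem_coe.2 h5) (Finset.mem_coe.2 hiS) h6).trans hlt
          · rcases Finset.mem_insert.1 (Finset.mem_coe.1 hx) with e | h5
            · rw [e] at h
              exact absurd (hmax x' h5') (not_le.2 (hij.trans h))
            · exact hSm (Finset.mem_coe.2 h5) (Finset.mem_coe.2 h5') h

/-- Erdős-Szekeres. -/
theorem es (N : ℕ) : ∃ K : ℕ, ∀ y : Fin K → ℕ, Function.Injective y →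
    ∃ e : Fin N → Fin K, StrictMono e ∧ (StrictMono (y ∘ e) ∨ StrictAnti (y ∘ e)) := by
  refine ⟨N * N + 1, fun y hy => ?_⟩
  rcases es_aux y hy N N Finset.univ (by rw [Finset.card_univ, Fintype.card_fin]; omega) with
    ⟨S, _, hSc, hSm⟩ | ⟨S, _, hSc, hSm⟩
  · refine ⟨fun i => S.orderEmbOfFin hSc i.castSucc, fun i j h =>
      (S.orderEmbOfFin hSc).strictMono (Fin.castSucc_lt_castSucc_iff.2 h), Or.inl ?_⟩
    intro i j h
    exact hSm (Finset.mem_coe.2 (S.orderEmbOfFin_mem hSc _))
      (Finset.mem_coe.2 (S.orderEmbOfFin_mem hSc _))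
      ((S.orderEmbOfFin hSc).strictMono (Fin.castSucc_lt_castSucc_iff.2 h))
  · refine ⟨fun i => S.orderEmbOfFin hSc i.castSucc, fun i j h =>
      (S.orderEmbOfFin hSc).strictMono (Fin.castSucc_lt_castSucc_iff.2 h), Or.inr ?_⟩
    intro i j h
    exact hSm (Finset.mem_coe.2 (S.orderEmbOfFin_mem hSc _))
      (Finset.mem_coe.2 (S.orderEmbOfFin_mem hSc _))
      ((S.orderEmbOfFin hSc).strictMono (Fin.castSucc_lt_castSucc_iff.2 h))

end Pool.Agent.Work.MP_8eaa9c_co.Red
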