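import Pool.Agent.Work.MP_8eaa9c_co.Red.Ent

/-!
Module PLANT: a planted sampling inequality (no permutations).

`Q` is a finite nonempty set, `s x` (`x : ι`, `ι` finite) are setoids.  Given `π₀ ∈ Q`, sample for each
`x` independently `t` elements of `Q`, one of which (in a random place) is taken from the class of
`π₀` under `s x`, the others uniform in `Q`: the weight of `τ : Fin t → Ω` is
`wt = #{l | s x π₀ (τ l)} / (t |cls π₀| |Q|^(t-1))`.

* `wt_nonneg`, `wt_sum`: `∑ τ, #{l | s π₀ (τ l)} = ∑ l, #{τ | s π₀ (τ l)} = t |cls| |Q|^(t-1)`.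
* `plant`: let `Z = t^|ι| ∏ (|cls_x π₀| / |Q|) / ((|cls_all π₀| / |Q|) V σ)`.  As `log Z ≤ Z - 1` and the
  weights sum to one, it suffices that `∑_{π₀} ∑_σ (∏ wt) Z ≤ |Q|`.  (If `∏ wt ≠ 0` then `V σ > 0`, as `π₀`
  itself is a witness; `log Z` splits.)  Now
  `(∏ wt) Z = |Q| (∏_x #{l | s x π₀ (σ x l)}) / (|Q|^(t |ι|) |cls_all π₀| V σ)` and
  `∏_x #{l | s x π₀ (σ x l)} = #{j | ∀ x, s x π₀ (σ x (j x))}`; for fixed `j` the `π₀ ∈ Q` with
  `∀ x, s x π₀ (σ x (j x))` form a class of `allS s` or the empty set, so the sum over `π₀` of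
  `1 / |cls_all π₀|` over them is `1` or `0`, and the sum over `j` gives exactly `V σ`.
  The total is `|Q| * #{σ | V σ > 0} / |Q|^(t |ι|) ≤ |Q|`.
-/

namespace Pool.Agent.Work.MP_8eaa9c_co.Red

open Finset

noncomputable section

variable {Ω ι : Type*}

/-- All setoids at once. -/
def allS (s : ι → Setoid Ω) : Setoid Ω where
  r π π' := ∀ x, s x π π'
  iseqv := ⟨fun π x => (s x).refl' π, fun h x => (s x).symm' (h x),
    fun h h' x => (s x).trans' (h x) (h' x)⟩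

/-- The planted weight of a `t`-tuple. -/
def wt (Q : Finset Ω) (r : Setoid Ω) (t : ℕ) (π₀ : Ω) (τ : Fin t → Ω) : ℝ := by
  classical exact
    ((univ.filter (fun l => r π₀ (τ l))).card : ℝ) /
      (t * (cls Q r π₀).card * (Q.card : ℝ) ^ (t - 1))

/-- All `t`-tuples of elements of `Q`. -/
def tup (Q : Finset Ω) (t : ℕ) : Finset (Fin t → Ω) := by
  classical exact Fintype.piFinset (fun _ => Q)

/-- All families of `t`-tuples. -/
def fam [Fintype ι] (Q : Finset Ω) (t : ℕ) : Finset (ι → Fin t → Ω) := by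
  classical exact Fintype.piFinset (fun _ => tup Q t)

/-- Number of index vectors realised by an element of `Q`. -/
def V [Fintype ι] (Q : Finset Ω) (s : ι → Setoid Ω) (t : ℕ) (σ : ι → Fin t → Ω) : ℕ := by
  classical exact
    (univ.filter (fun j : ι → Fin t => ∃ π ∈ Q, ∀ x, s x π (σ x (j x)))).card

/-- Number of coincidences of rows inside the columns. -/
def Coll [Fintype ι] (ρ : ι → Ω → ℕ) (t : ℕ) (σ : ι → Fin t → Ω) : ℕ := by
  classical exact
    (univ.filter (fun p : ι × Fin t × Fin t =>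
      p.2.1 < p.2.2 ∧ ρ p.1 (σ p.1 p.2.1) = ρ p.1 (σ p.1 p.2.2))).card

/-- Number of ordered pairs of entries in a common row. -/
def Pairs [Fintype ι] (ρ : ι → Ω → ℕ) (t : ℕ) (σ : ι → Fin t → Ω) : ℕ := by
  classical exact
    (univ.filter (fun p : (ι × Fin t) × (ι × Fin t) =>
      ρ p.1.1 (σ p.1.1 p.1.2) = ρ p.2.1 (σ p.2.1 p.2.2))).card

lemma wt_nonneg (Q : Finset Ω) (r : Setoid Ω) (t : ℕ) (π₀ : Ω) (τ : Fin t → Ω) :
    0 ≤ wt Q r t π₀ τ := by
  unfold wt
  positivity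

lemma wt_sum (Q : Finset Ω) (r : Setoid Ω) (t : ℕ) (ht : 1 ≤ t) (π₀ : Ω) (h : π₀ ∈ Q) :
    ∑ τ ∈ tup Q t, wt Q r t π₀ τ = 1 := by
  classical
  have hQ : 0 < (Q.card : ℝ) := by exact_mod_cast Finset.card_pos.2 ⟨π₀, h⟩
  have hc : 0 < ((cls Q r π₀).card : ℝ) := by exact_mod_cast cls_card_pos h
  have ht0 : 0 < (t : ℝ) := by exact_mod_cast ht
  have h1 : ∀ l : Fin t, ((tup Q t).filter (fun τ => r π₀ (τ l))).card =
      (cls Q r π₀).card * Q.card ^ (t - 1) := by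
    intro l
    have e1 : (tup Q t).filter (fun τ => r π₀ (τ l)) =
        Fintype.piFinset (Function.update (fun _ : Fin t => Q) l (cls Q r π₀)) := by
      rw [Fintype.piFinset_update_eq_filter_piFinset_mem _ _ (fun x hx => (mem_cls.1 hx).1)]
      ext τ
      unfold tup
      rw [Finset.mem_filter, Finset.mem_filter, mem_cls, Fintype.mem_piFinset]
      exact ⟨fun h => ⟨h.1, h.1 l, h.2⟩, fun h => ⟨h.1, h.2.2⟩⟩
    rw [e1, Fintype.card_piFinset]
    have e2 : ∀ i : Fin t, (Function.update (fun _ : Fin t => Q) l (cls Q r π₀) i).card =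
        Function.update (fun _ : Fin t => Q.card) l (cls Q r π₀).card i := by
      intro i
      by_cases hi : i = l
      · subst hi
        rw [Function.update_self, Function.update_self]
      · rw [Function.update_of_ne hi, Function.update_of_ne hi]
    rw [Finset.prod_congr rfl (fun i _ => e2 i), Finset.prod_update_of_mem (Finset.mem_univ l),
      Finset.prod_const]
    congr 2
    rw [Finset.card_sdiff_of_subset (Finset.subset_univ _), Finset.card_univ, Fintype.card_fin,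
      Finset.card_singleton]
  have h2 : ∑ τ ∈ tup Q t, ((univ.filter (fun l => r π₀ (τ l))).card : ℝ) =
      t * ((cls Q r π₀).card * (Q.card : ℝ) ^ (t - 1)) := by
    have e1 : ∑ τ ∈ tup Q t, (univ.filter (fun l => r π₀ (τ l))).card =
        ∑ l : Fin t, ((tup Q t).filter (fun τ => r π₀ (τ l))).card := by
      simp only [Finset.card_filter]
      exact Finset.sum_comm
    have e2 : ((∑ τ ∈ tup Q t, (univ.filter (fun l => r π₀ (τ l))).card : ℕ) : ℝ) =
        ((t * ((cls Q r π₀).card * Q.card ^ (t - 1)) : ℕ) : ℝ) := by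
      rw [e1, Finset.sum_congr rfl (fun l _ => h1 l), Finset.sum_const, Finset.card_univ,
        Fintype.card_fin, smul_eq_mul]
    push_cast at e2
    exact e2
  have h3 : ∀ τ ∈ tup Q t, wt Q r t π₀ τ = ((univ.filter (fun l => r π₀ (τ l))).card : ℝ) *
      (t * (cls Q r π₀).card * (Q.card : ℝ) ^ (t - 1))⁻¹ := by
    intro τ _
    unfold wt
    rw [div_eq_mul_inv]
  rw [Finset.sum_congr rfl h3, ← Finset.sum_mul, h2, ← mul_assoc, mul_inv_cancel₀]
  positivity

private lemma plant_one {P T : Finset Ω} {r : Setoid Ω} (hT : T ⊆ P)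
    (h : ∀ π ∈ T, ∀ π' ∈ T, r π π') : ∑ π ∈ T, ((cls P r π).card : ℝ)⁻¹ ≤ 1 := by
  rcases T.eq_empty_or_nonempty with rfl | ⟨t, ht⟩
  · rw [Finset.sum_empty]
    exact zero_le_one
  · have h1 : ∀ π ∈ T, ((cls P r π).card : ℝ)⁻¹ = ((cls P r t).card : ℝ)⁻¹ := by
      intro π hπ
      rw [cls_eq (h π hπ t ht)]
    rw [Finset.sum_congr rfl h1, Finset.sum_const, nsmul_eq_mul]
    have h2 : 0 < ((cls P r t).card : ℝ) := by exact_mod_cast cls_card_pos (hT ht)
    rw [← div_eq_mul_inv, div_le_one h2]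
    exact_mod_cast Finset.card_le_card fun x hx => mem_cls.2 ⟨hT hx, h t ht x hx⟩

open Classical in
/-- number of indices of the tuple equivalent to the point -/
private def nx (r : Setoid Ω) (t : ℕ) (π₀ : Ω) (τ : Fin t → Ω) : ℝ :=
  ((univ.filter (fun l => r π₀ (τ l))).card : ℝ)

private lemma wt_eq (Q : Finset Ω) (r : Setoid Ω) (t : ℕ) (π₀ : Ω) (τ : Fin t → Ω) :
    wt Q r t π₀ τ = nx r t π₀ τ / (t * (cls Q r π₀).card * (Q.card : ℝ) ^ (t - 1)) := rfl

private lemma nx_nonneg (r : Setoid Ω) (t : ℕ) (π₀ : Ω) (τ : Fin t → Ω) : 0 ≤ nx r t π₀ τ := by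
  unfold nx
  positivity

/-- the dominating quantity -/
private def dq [Fintype ι] (Q : Finset Ω) (s : ι → Setoid Ω) (t : ℕ) (π₀ : Ω)
    (σ : ι → Fin t → Ω) : ℝ :=
  (∏ x, nx (s x) t π₀ (σ x)) * (((cls Q (allS s) π₀).card : ℝ)⁻¹ *
    (Q.card * ((V Q s t σ : ℝ) * (Q.card : ℝ) ^ (t * Fintype.card ι))⁻¹))

/-- the right-hand side -/
private def rq [Fintype ι] (Q : Finset Ω) (s : ι → Setoid Ω) (π₀ : Ω) : ℝ :=
  Real.log ((cls Q (allS s) π₀).card : ℝ) - Real.log (Q.card : ℝ) -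
        ∑ x, (Real.log ((cls Q (s x) π₀).card : ℝ) - Real.log (Q.card : ℝ))

private lemma plant_prod [Fintype ι] (Q : Finset Ω) (s : ι → Setoid Ω) (t : ℕ)
    (π₀ : Ω) (σ : ι → Fin t → Ω) :
    (∏ x, wt Q (s x) t π₀ (σ x)) = (∏ x, nx (s x) t π₀ (σ x)) /
        ((t : ℝ) ^ Fintype.card ι * (∏ x, ((cls Q (s x) π₀).card : ℝ)) *
          ((Q.card : ℝ) ^ (t - 1)) ^ Fintype.card ι) := by
  rw [Finset.prod_congr rfl (fun x _ => wt_eq Q (s x) t π₀ (σ x)),
    Finset.prod_div_distrib, Finset.prod_mul_distrib, Finset.prod_mul_distrib,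
    Finset.prod_const, Finset.prod_const, Finset.card_univ]

private lemma plant_pure {W N T c q a v A B : ℝ} (hT : 0 < T) (hc : 0 < c) (hq : 0 < q)
    (ha : 0 < a) (hv : 0 < v) (hA : 0 < A) (hB : 0 < B) (hW : 0 ≤ W) (hWe : W = N / (T * c * A)) :
    W * (Real.log (T / v) - (Real.log a - Real.log q - (Real.log c - Real.log B))) ≤
      N * (a⁻¹ * (q * (v * (A * B))⁻¹)) - W := by
  have hZ0 : 0 < T * (c / B) / ((a / q) * v) := by positivity
  have hlog : Real.log (T / v) - (Real.log a - Real.log q - (Real.log c - Real.log B)) =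
      Real.log (T * (c / B) / ((a / q) * v)) := by
    rw [Real.log_div (by positivity) (by positivity), Real.log_div (by positivity) (by positivity),
        Real.log_mul (by positivity) (by positivity), Real.log_div (by positivity) (by positivity),
        Real.log_mul (by positivity) (by positivity), Real.log_div (by positivity) (by positivity)]
    ring
  rw [hlog]
  refine (mul_le_mul_of_nonneg_left (Real.log_le_sub_one_of_pos hZ0) hW).trans (le_of_eq ?_)
  rw [mul_sub, mul_one, hWe]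
  field_simp

private lemma plant_step [Fintype ι] (Q : Finset Ω) (s : ι → Setoid Ω) (t : ℕ) (ht : 1 ≤ t)
    (π₀ : Ω) (hπ : π₀ ∈ Q) (σ : ι → Fin t → Ω) :
    (∏ x, wt Q (s x) t π₀ (σ x)) * (Real.log ((t : ℝ) ^ Fintype.card ι / (V Q s t σ : ℝ)) -
      rq Q s π₀) ≤ dq Q s t π₀ σ - ∏ x, wt Q (s x) t π₀ (σ x) := by
  classical
  have hQ : 0 < (Q.card : ℝ) := by exact_mod_cast Finset.card_pos.2 ⟨π₀, hπ⟩
  have ht0 : 0 < (t : ℝ) := by exact_mod_cast ht
  have hc : ∀ r : Setoid Ω, 0 < ((cls Q r π₀).card : ℝ) := fun r => by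
    exact_mod_cast cls_card_pos hπ
  by_cases hW : (∏ x, wt Q (s x) t π₀ (σ x)) = 0
  · rw [hW, zero_mul, sub_zero]
    unfold dq
    have : 0 ≤ ∏ x, nx (s x) t π₀ (σ x) := Finset.prod_nonneg fun x _ => nx_nonneg _ _ _ _
    positivity
  · have hV : 0 < (V Q s t σ : ℝ) := by
      have h1 : ∀ x, ∃ l : Fin t, (s x) π₀ (σ x l) := by
        intro x
        by_contra h2
        push Not at h2
        apply hW
        refine Finset.prod_eq_zero (Finset.mem_univ x) ?_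
        rw [wt_eq]
        have h3 : nx (s x) t π₀ (σ x) = 0 := by
          unfold nx
          rw [Finset.filter_false_of_mem fun l _ => h2 l, Finset.card_empty, Nat.cast_zero]
        rw [h3, zero_div]
      choose j hj using h1
      have h2 : 0 < V Q s t σ := by
        unfold V
        exact Finset.card_pos.2 ⟨j, Finset.mem_filter.2 ⟨Finset.mem_univ _, π₀, hπ, hj⟩⟩
      exact_mod_cast h2
    have hprod : 0 < ∏ x, ((cls Q (s x) π₀).card : ℝ) := Finset.prod_pos fun x _ => hc _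
    have hWn : 0 ≤ ∏ x, wt Q (s x) t π₀ (σ x) := Finset.prod_nonneg fun x _ => wt_nonneg _ _ _ _ _
    have hrq : rq Q s π₀ = Real.log ((cls Q (allS s) π₀).card : ℝ) - Real.log (Q.card : ℝ) -
        (Real.log (∏ x, ((cls Q (s x) π₀).card : ℝ)) -
          Real.log ((Q.card : ℝ) ^ Fintype.card ι)) := by
      unfold rq
      rw [Finset.sum_sub_distrib, Finset.sum_const, Finset.card_univ, nsmul_eq_mul,
        ← Real.log_prod (fun x _ => (hc _).ne'), Real.log_pow]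
    have h3 : (Q.card : ℝ) ^ (t * Fintype.card ι) =
        ((Q.card : ℝ) ^ (t - 1)) ^ Fintype.card ι * (Q.card : ℝ) ^ Fintype.card ι := by
      rw [← mul_pow, ← pow_succ, Nat.sub_add_cancel ht, pow_mul]
    have hT : 0 < (t : ℝ) ^ Fintype.card ι := pow_pos ht0 _
    have hA : 0 < ((Q.card : ℝ) ^ (t - 1)) ^ Fintype.card ι := pow_pos (pow_pos hQ _) _
    have hB : 0 < (Q.card : ℝ) ^ Fintype.card ι := pow_pos hQ _
    rw [hrq]
    unfold dq
    rw [h3]
    exact plant_pure hT hprod hQ (hc _) hV hA hB hWn (plant_prod Q s t π₀ σ)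

private lemma plant_sum [Fintype ι] (Q : Finset Ω) (s : ι → Setoid Ω) (t : ℕ)
    (σ : ι → Fin t → Ω) :
    ∑ π₀ ∈ Q, (∏ x, nx (s x) t π₀ (σ x)) * ((cls Q (allS s) π₀).card : ℝ)⁻¹ ≤
      (V Q s t σ : ℝ) := by
  classical
  have h1 : ∀ π₀ ∈ Q, (∏ x, nx (s x) t π₀ (σ x)) * ((cls Q (allS s) π₀).card : ℝ)⁻¹ =
      ∑ _j ∈ univ.filter (fun j : ι → Fin t => ∀ x, (s x) π₀ (σ x (j x))),
        ((cls Q (allS s) π₀).card : ℝ)⁻¹ := by
    intro π₀ _
    rw [Finset.sum_const, nsmul_eq_mul]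
    congr 1
    unfold nx
    rw [← Nat.cast_prod, ← Fintype.card_piFinset]
    congr 2
    ext j
    rw [Fintype.mem_piFinset, Finset.mem_filter]
    constructor
    · intro h
      exact ⟨Finset.mem_univ _, fun x => (Finset.mem_filter.1 (h x)).2⟩
    · intro h x
      exact Finset.mem_filter.2 ⟨Finset.mem_univ _, h.2 x⟩
  rw [Finset.sum_congr rfl h1]
  have h2 : ∑ π₀ ∈ Q, ∑ _j ∈ univ.filter (fun j : ι → Fin t => ∀ x, (s x) π₀ (σ x (j x))),
        ((cls Q (allS s) π₀).card : ℝ)⁻¹ =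
      ∑ j ∈ univ.filter (fun j : ι → Fin t => ∃ π ∈ Q, ∀ x, (s x) π (σ x (j x))),
        ∑ π₀ ∈ Q.filter (fun π₀ => ∀ x, (s x) π₀ (σ x (j x))),
          ((cls Q (allS s) π₀).card : ℝ)⁻¹ := by
    refine Finset.sum_comm' fun x y => ?_
    rw [Finset.mem_filter, Finset.mem_filter, Finset.mem_filter]
    constructor
    · rintro ⟨h1, _, h2⟩
      exact ⟨⟨h1, h2⟩, Finset.mem_univ _, x, h1, h2⟩
    · rintro ⟨⟨h1, h2⟩, _⟩
      exact ⟨h1, Finset.mem_univ _, h2⟩
  rw [h2]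
  have h3 : (V Q s t σ : ℝ) = ∑ _j ∈ univ.filter (fun j : ι → Fin t =>
      ∃ π ∈ Q, ∀ x, (s x) π (σ x (j x))), (1 : ℝ) := by
    rw [Finset.sum_const, nsmul_eq_mul, mul_one]
    rfl
  rw [h3]
  refine Finset.sum_le_sum fun j _ => ?_
  refine plant_one (Finset.filter_subset _ _) fun π hπ π' hπ' x => ?_
  exact (s x).trans' ((Finset.mem_filter.1 hπ).2 x) ((s x).symm' ((Finset.mem_filter.1 hπ').2 x))

theorem plant [Fintype ι] (Q : Finset Ω) (s : ι → Setoid Ω) (t : ℕ) (ht : 1 ≤ t) :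
    ∑ π₀ ∈ Q, ∑ σ ∈ fam (ι := ι) Q t, (∏ x, wt Q (s x) t π₀ (σ x)) *
        Real.log ((t : ℝ) ^ Fintype.card ι / (V Q s t σ : ℝ)) ≤
      ∑ π₀ ∈ Q, (Real.log ((cls Q (allS s) π₀).card : ℝ) - Real.log (Q.card : ℝ) -
        ∑ x, (Real.log ((cls Q (s x) π₀).card : ℝ) - Real.log (Q.card : ℝ))) := by
  classical
  rcases Q.eq_empty_or_nonempty with rfl | hne
  · simp
  have hQ : 0 < (Q.card : ℝ) := by exact_mod_cast Finset.card_pos.2 hne
  have hW1 : ∀ π₀ ∈ Q, ∑ σ ∈ fam (ι := ι) Q t, (∏ x, wt Q (s x) t π₀ (σ x)) = 1 := by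
    intro π₀ hπ
    unfold fam
    rw [Finset.sum_prod_piFinset (tup Q t) (fun x τ => wt Q (s x) t π₀ τ)]
    exact Finset.prod_eq_one fun x _ => wt_sum Q (s x) t ht π₀ hπ
  have hR : ∀ π₀ ∈ Q, (Real.log ((cls Q (allS s) π₀).card : ℝ) - Real.log (Q.card : ℝ) -
        ∑ x, (Real.log ((cls Q (s x) π₀).card : ℝ) - Real.log (Q.card : ℝ))) =
      ∑ σ ∈ fam (ι := ι) Q t, (∏ x, wt Q (s x) t π₀ (σ x)) * rq Q s π₀ := by
    intro π₀ hπ
    rw [← Finset.sum_mul, hW1 π₀ hπ, one_mul]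
    rfl
  rw [Finset.sum_congr rfl hR, ← sub_nonpos, ← Finset.sum_sub_distrib]
  have h1 : ∀ π₀ ∈ Q, (∑ σ ∈ fam (ι := ι) Q t, (∏ x, wt Q (s x) t π₀ (σ x)) *
        Real.log ((t : ℝ) ^ Fintype.card ι / (V Q s t σ : ℝ))) -
      ∑ σ ∈ fam (ι := ι) Q t, (∏ x, wt Q (s x) t π₀ (σ x)) * rq Q s π₀ ≤
      (∑ σ ∈ fam (ι := ι) Q t, dq Q s t π₀ σ) - 1 := by
    intro π₀ hπ
    rw [← Finset.sum_sub_distrib, ← hW1 π₀ hπ, ← Finset.sum_sub_distrib]
    refine Finset.sum_le_sum fun σ _ => ?_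
    rw [← mul_sub]
    exact plant_step Q s t ht π₀ hπ σ
  refine (Finset.sum_le_sum h1).trans ?_
  rw [Finset.sum_sub_distrib, Finset.sum_comm, Finset.sum_const, nsmul_eq_mul, mul_one]
  have h2 : ∀ σ ∈ fam (ι := ι) Q t, ∑ π₀ ∈ Q, dq Q s t π₀ σ ≤
      (Q.card : ℝ) * ((Q.card : ℝ) ^ (t * Fintype.card ι))⁻¹ := by
    intro σ _
    unfold dq
    have e1 : ∀ π₀ ∈ Q, (∏ x, nx (s x) t π₀ (σ x)) * (((cls Q (allS s) π₀).card : ℝ)⁻¹ *
        (Q.card * ((V Q s t σ : ℝ) * (Q.card : ℝ) ^ (t * Fintype.card ι))⁻¹)) =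
        ((∏ x, nx (s x) t π₀ (σ x)) * ((cls Q (allS s) π₀).card : ℝ)⁻¹) *
        (Q.card * ((V Q s t σ : ℝ) * (Q.card : ℝ) ^ (t * Fintype.card ι))⁻¹) := by
      intro π₀ _
      ring
    rw [Finset.sum_congr rfl e1, ← Finset.sum_mul]
    have e2 := mul_le_mul_of_nonneg_right (plant_sum Q s t σ)
      (show 0 ≤ Q.card * ((V Q s t σ : ℝ) * (Q.card : ℝ) ^ (t * Fintype.card ι))⁻¹ by positivity)
    refine e2.trans ?_
    by_cases hV : (V Q s t σ : ℝ) = 0
    · rw [hV]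
      simp only [zero_mul]
      positivity
    · apply le_of_eq
      field_simp
  have h3 := Finset.sum_le_sum h2
  rw [Finset.sum_const, nsmul_eq_mul] at h3
  have h4 : ((fam (ι := ι) Q t).card : ℝ) = (Q.card : ℝ) ^ (t * Fintype.card ι) := by
    unfold fam tup
    rw [Fintype.card_piFinset, Finset.prod_const, Fintype.card_piFinset, Finset.prod_const,
      Finset.card_univ, Finset.card_univ, Fintype.card_fin, pow_mul]
    push_cast
    rfl
  rw [h4] at h3
  have h5 : (Q.card : ℝ) ^ (t * Fintype.card ι) *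
      ((Q.card : ℝ) * ((Q.card : ℝ) ^ (t * Fintype.card ι))⁻¹) = Q.card := by
    field_simp
  rw [h5] at h3
  linarith

end

end Pool.Agent.Work.MP_8eaa9c_co.Red
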