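import Pool.Agent.Work.MP_8eaa9c_co.Red.Plant

/-!
Module PLANTE: expectations under the planted weights.

`wt` is the average over the planted place `l₀` of product weights `uu l₀`.  One and two coordinate
marginals (`marg_one`, `marg_two`) reduce everything to finite sums over `Q`.
-/

namespace Pool.Agent.Work.MP_8eaa9c_co.Red

open Finset

noncomputable section

variable {Ω ι : Type*}

/-- `∑_π #{π' | ρ π' = ρ π} / |Q|`. -/
def collQ (Q : Finset Ω) (ρ : Ω → ℕ) : ℝ :=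
  ∑ π ∈ Q, ((Q.filter (fun π' => ρ π' = ρ π)).card : ℝ) / Q.card

/-- Number of ordered pairs of distinct columns whose rows under `π` agree. -/
def SS [Fintype ι] (ρ : ι → Ω → ℕ) (π : Ω) : ℕ := by
  classical exact (univ.filter (fun p : ι × ι => p.1 ≠ p.2 ∧ ρ p.1 π = ρ p.2 π)).card

/-! ### Marginals of product weights -/

private lemma marg_prod {I T : Type*} [Fintype I] [DecidableEq I] (Q : Finset T) (u : I → T → ℝ)
    (hu : ∀ j, ∑ π ∈ Q, u j π = 1) (j₁ j₂ : I) (hj : j₁ ≠ j₂) (f g : T → ℝ) :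
    ∑ τ ∈ Fintype.piFinset (fun _ : I => Q), (∏ j, u j (τ j)) * (f (τ j₁) * g (τ j₂)) =
      (∑ π ∈ Q, u j₁ π * f π) * ∑ π ∈ Q, u j₂ π * g π := by
  have h1 : ∀ τ : I → T, (∏ j, u j (τ j)) * (f (τ j₁) * g (τ j₂)) =
      ∏ j, (u j (τ j) * ((if j = j₁ then f (τ j) else 1) * (if j = j₂ then g (τ j) else 1))) := by
    intro τ
    rw [prod_mul_distrib, prod_mul_distrib, prod_ite_eq' univ j₁ (fun j => f (τ j)),
      prod_ite_eq' univ j₂ (fun j => g (τ j)), if_pos (mem_univ _), if_pos (mem_univ _)]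
  simp_rw [h1]
  rw [← prod_univ_sum (fun _ : I => Q) (fun j π =>
    u j π * ((if j = j₁ then f π else 1) * (if j = j₂ then g π else 1)))]
  have h2 : ∀ j : I, ∑ π ∈ Q, u j π * ((if j = j₁ then f π else 1) * (if j = j₂ then g π else 1)) =
      (if j = j₁ then ∑ π ∈ Q, u j π * f π else 1) *
        (if j = j₂ then ∑ π ∈ Q, u j π * g π else 1) := by
    intro j
    by_cases h : j = j₁
    · have h' : j ≠ j₂ := fun e => hj (h.symm.trans e)
      simp only [if_pos h, if_neg h', mul_one]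
    · by_cases h' : j = j₂
      · simp only [if_neg h, if_pos h', one_mul]
      · simp only [if_neg h, if_neg h', mul_one]
        exact hu j
  simp_rw [h2]
  rw [prod_mul_distrib, prod_ite_eq' univ j₁ (fun j => ∑ π ∈ Q, u j π * f π),
    prod_ite_eq' univ j₂ (fun j => ∑ π ∈ Q, u j π * g π), if_pos (mem_univ _), if_pos (mem_univ _)]

private lemma marg_one {I T : Type*} [Fintype I] [DecidableEq I] (Q : Finset T) (u : I → T → ℝ)
    (hu : ∀ j, ∑ π ∈ Q, u j π = 1) (j₁ : I) (f : T → ℝ) :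
    ∑ τ ∈ Fintype.piFinset (fun _ : I => Q), (∏ j, u j (τ j)) * f (τ j₁) =
      ∑ π ∈ Q, u j₁ π * f π := by
  have h1 : ∀ τ : I → T, (∏ j, u j (τ j)) * f (τ j₁) =
      ∏ j, (u j (τ j) * (if j = j₁ then f (τ j) else 1)) := by
    intro τ
    rw [prod_mul_distrib, prod_ite_eq' univ j₁ (fun j => f (τ j)), if_pos (mem_univ _)]
  simp_rw [h1]
  rw [← prod_univ_sum (fun _ : I => Q) (fun j π => u j π * (if j = j₁ then f π else 1))]
  have h2 : ∀ j : I, ∑ π ∈ Q, u j π * (if j = j₁ then f π else 1) =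
      (if j = j₁ then ∑ π ∈ Q, u j π * f π else 1) := by
    intro j
    by_cases h : j = j₁
    · simp only [if_pos h]
    · simp only [if_neg h, mul_one]
      exact hu j
  simp_rw [h2]
  rw [prod_ite_eq' univ j₁ (fun j => ∑ π ∈ Q, u j π * f π), if_pos (mem_univ _)]

private lemma marg_two {I T : Type*} [Fintype I] [DecidableEq I] (Q : Finset T) (u : I → T → ℝ)
    (hu : ∀ j, ∑ π ∈ Q, u j π = 1) (j₁ j₂ : I) (hj : j₁ ≠ j₂) (F : T → T → ℝ) :
    ∑ τ ∈ Fintype.piFinset (fun _ : I => Q), (∏ j, u j (τ j)) * F (τ j₁) (τ j₂) =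
      ∑ a ∈ Q, u j₁ a * ∑ b ∈ Q, u j₂ b * F a b := by
  classical
  have h1 : ∀ τ ∈ Fintype.piFinset (fun _ : I => Q), (∏ j, u j (τ j)) * F (τ j₁) (τ j₂) =
      ∑ a ∈ Q, (∏ j, u j (τ j)) * ((if τ j₁ = a then (1 : ℝ) else 0) * F a (τ j₂)) := by
    intro τ hτ
    rw [← mul_sum]
    congr 1
    simp only [ite_mul, one_mul, zero_mul]
    rw [sum_ite_eq Q (τ j₁) (fun a => F a (τ j₂)), if_pos (Fintype.mem_piFinset.1 hτ j₁)]
  rw [sum_congr rfl h1, sum_comm]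
  apply sum_congr rfl
  intro a ha
  rw [marg_prod Q u hu j₁ j₂ hj (fun π => if π = a then (1 : ℝ) else 0) (fun π => F a π)]
  congr 1
  simp only [mul_ite, mul_one, mul_zero]
  rw [sum_ite_eq' Q a (fun π => u j₁ π), if_pos ha]

/-! ### The planted weight as a mixture of product weights -/

open Classical in
private def uu (Q : Finset Ω) (r : Setoid Ω) (π₀ : Ω) {t : ℕ} (l₀ l : Fin t) (π : Ω) : ℝ :=
  if l = l₀ then (if r π₀ π then 1 / ((cls Q r π₀).card : ℝ) else 0) else 1 / (Q.card : ℝ)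

/-- The average over `Q`. -/
private def av (Q : Finset Ω) (g : Ω → ℝ) : ℝ := (∑ π ∈ Q, g π) / Q.card

private lemma cls_filter (Q : Finset Ω) (r : Setoid Ω) (π₀ : Ω) [DecidablePred (fun π => r π₀ π)] :
    cls Q r π₀ = Q.filter (fun π => r π₀ π) := by
  ext π
  rw [mem_cls, mem_filter]

private lemma uu_mul_sum (Q : Finset Ω) (r : Setoid Ω) (π₀ : Ω) (h : π₀ ∈ Q) {t : ℕ}
    (l₀ l : Fin t) (g : Ω → ℝ) (hg : ∀ π ∈ Q, r π₀ π → g π = g π₀) :
    ∑ π ∈ Q, uu Q r π₀ l₀ l π * g π = if l = l₀ then g π₀ else av Q g := by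
  classical
  have hpos : (0 : ℝ) < ((cls Q r π₀).card : ℝ) := by exact_mod_cast cls_card_pos h
  unfold uu av
  by_cases hl : l = l₀
  · simp only [if_pos hl, ite_mul, zero_mul]
    rw [← sum_filter, ← cls_filter]
    have : ∑ π ∈ cls Q r π₀, 1 / ((cls Q r π₀).card : ℝ) * g π =
        ∑ π ∈ cls Q r π₀, 1 / ((cls Q r π₀).card : ℝ) * g π₀ := by
      apply sum_congr rfl
      intro π hπ
      obtain ⟨h1, h2⟩ := mem_cls.1 hπ
      rw [hg π h1 h2]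
    rw [this, sum_const, nsmul_eq_mul]
    field_simp
  · simp only [if_neg hl]
    rw [← mul_sum]
    ring

private lemma uu_sum (Q : Finset Ω) (r : Setoid Ω) (π₀ : Ω) (h : π₀ ∈ Q) {t : ℕ}
    (l₀ l : Fin t) : ∑ π ∈ Q, uu Q r π₀ l₀ l π = 1 := by
  have h1 := uu_mul_sum Q r π₀ h l₀ l (fun _ => 1) (fun _ _ _ => rfl)
  simp only [mul_one] at h1
  rw [h1]
  have hQ : (0 : ℝ) < (Q.card : ℝ) := by exact_mod_cast card_pos.2 ⟨π₀, h⟩
  by_cases hl : l = l₀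
  · rw [if_pos hl]
  · rw [if_neg hl]
    unfold av
    rw [sum_const, nsmul_eq_mul]
    field_simp

private lemma wt_eq (Q : Finset Ω) (r : Setoid Ω) (t : ℕ) (π₀ : Ω) (τ : Fin t → Ω) :
    wt Q r t π₀ τ = (1 / (t : ℝ)) * ∑ l₀ : Fin t, ∏ l, uu Q r π₀ l₀ l (τ l) := by
  classical
  have h1 : ∀ l₀ : Fin t, ∏ l, uu Q r π₀ l₀ l (τ l) =
      (if r π₀ (τ l₀) then (1 : ℝ) else 0) * (1 / (((cls Q r π₀).card : ℝ) * (Q.card : ℝ) ^ (t - 1))) := by
    intro l₀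
    rw [← mul_prod_erase univ _ (mem_univ l₀)]
    have h2 : ∏ l ∈ univ.erase l₀, uu Q r π₀ l₀ l (τ l) = (1 / (Q.card : ℝ)) ^ (t - 1) := by
      rw [prod_congr rfl (g := fun _ => 1 / (Q.card : ℝ))]
      · rw [prod_const, card_erase_of_mem (mem_univ _), card_univ, Fintype.card_fin]
      · intro l hl
        unfold uu
        rw [if_neg (mem_erase.1 hl).1]
    rw [h2]
    unfold uu
    rw [if_pos rfl]
    by_cases hr : r π₀ (τ l₀)
    · rw [if_pos hr, if_pos hr, one_div_pow, one_mul, one_div_mul_one_div]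
    · rw [if_neg hr, if_neg hr, zero_mul, zero_mul]
  simp_rw [h1]
  rw [← sum_mul]
  unfold wt
  rw [card_filter]
  push_cast
  ring

private lemma wt_one (Q : Finset Ω) (r : Setoid Ω) (t : ℕ) (π₀ : Ω) (h : π₀ ∈ Q) (l : Fin t)
    (f : Ω → ℝ) :
    ∑ τ ∈ tup Q t, wt Q r t π₀ τ * f (τ l) =
      (1 / (t : ℝ)) * ∑ l₀ : Fin t, ∑ π ∈ Q, uu Q r π₀ l₀ l π * f π := by
  classical
  have h1 : ∀ τ : Fin t → Ω, wt Q r t π₀ τ * f (τ l) =
      (1 / (t : ℝ)) * ∑ l₀ : Fin t, (∏ j, uu Q r π₀ l₀ j (τ j)) * f (τ l) := by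
    intro τ
    rw [wt_eq, mul_assoc, sum_mul]
  simp_rw [h1]
  rw [← mul_sum, sum_comm]
  congr 1
  apply sum_congr rfl
  intro l₀ _
  have := marg_one Q (fun j => uu Q r π₀ l₀ j) (fun j => uu_sum Q r π₀ h l₀ j) l f
  unfold tup
  convert this using 2

private lemma wt_two (Q : Finset Ω) (r : Setoid Ω) (t : ℕ) (π₀ : Ω) (h : π₀ ∈ Q) (l l' : Fin t)
    (hl : l ≠ l') (F : Ω → Ω → ℝ) :
    ∑ τ ∈ tup Q t, wt Q r t π₀ τ * F (τ l) (τ l') =
      (1 / (t : ℝ)) * ∑ l₀ : Fin t, ∑ a ∈ Q, uu Q r π₀ l₀ l a *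
        ∑ b ∈ Q, uu Q r π₀ l₀ l' b * F a b := by
  classical
  have h1 : ∀ τ : Fin t → Ω, wt Q r t π₀ τ * F (τ l) (τ l') =
      (1 / (t : ℝ)) * ∑ l₀ : Fin t, (∏ j, uu Q r π₀ l₀ j (τ j)) * F (τ l) (τ l') := by
    intro τ
    rw [wt_eq, mul_assoc, sum_mul]
  simp_rw [h1]
  rw [← mul_sum, sum_comm]
  congr 1
  apply sum_congr rfl
  intro l₀ _
  have := marg_two Q (fun j => uu Q r π₀ l₀ j) (fun j => uu_sum Q r π₀ h l₀ j) l l' hl F
  unfold tup
  convert this using 2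

/-! ### Expectations over families -/

private def EE [Fintype ι] (Q : Finset Ω) (s : ι → Setoid Ω) (t : ℕ)
    (f : (ι → Fin t → Ω) → ℝ) : ℝ :=
  ∑ π₀ ∈ Q, ∑ σ ∈ fam (ι := ι) Q t, (∏ x, wt Q (s x) t π₀ (σ x)) * f σ

private lemma EE_sum [Fintype ι] (Q : Finset Ω) (s : ι → Setoid Ω) (t : ℕ) {K : Type*}
    (S : Finset K) (f : K → (ι → Fin t → Ω) → ℝ) :
    EE Q s t (fun σ => ∑ k ∈ S, f k σ) = ∑ k ∈ S, EE Q s t (f k) := by
  unfold EE
  rw [sum_comm (s := S)]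
  apply sum_congr rfl
  intro π₀ _
  rw [sum_comm (s := S)]
  apply sum_congr rfl
  intro σ _
  rw [mul_sum]

private lemma EE_zero [Fintype ι] (Q : Finset Ω) (s : ι → Setoid Ω) (t : ℕ) :
    EE Q s t (fun _ : ι → Fin t → Ω => 0) = 0 := by
  unfold EE
  simp

private lemma EE_one [Fintype ι] (Q : Finset Ω) (s : ι → Setoid Ω) (t : ℕ) (ht : 1 ≤ t) :
    EE Q s t (fun _ : ι → Fin t → Ω => 1) = Q.card := by
  classical
  unfold EE
  have h1 : ∀ π₀ ∈ Q, ∑ σ ∈ fam (ι := ι) Q t, (∏ x, wt Q (s x) t π₀ (σ x)) * (1 : ℝ) = 1 := by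
    intro π₀ hπ
    simp only [mul_one]
    have h2 := prod_univ_sum (fun _ : ι => tup Q t) (fun x τ => wt Q (s x) t π₀ τ)
    have h3 : ∀ x : ι, ∑ τ ∈ tup Q t, wt Q (s x) t π₀ τ = 1 := fun x => wt_sum Q (s x) t ht π₀ hπ
    rw [prod_congr rfl (fun x _ => h3 x), prod_const_one] at h2
    rw [h2]
    unfold fam
    congr!
  rw [sum_congr rfl h1, sum_const, nsmul_eq_mul, mul_one]

private lemma EE_coord [Fintype ι] (Q : Finset Ω) (s : ι → Setoid Ω) (t : ℕ) (ht : 1 ≤ t) (x : ι)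
    (g : (Fin t → Ω) → ℝ) :
    EE Q s t (fun σ => g (σ x)) = ∑ π₀ ∈ Q, ∑ τ ∈ tup Q t, wt Q (s x) t π₀ τ * g τ := by
  classical
  unfold EE
  apply sum_congr rfl
  intro π₀ hπ
  have := marg_one (tup Q t) (fun x τ => wt Q (s x) t π₀ τ)
    (fun x => wt_sum Q (s x) t ht π₀ hπ) x g
  rw [← this]
  unfold fam
  congr!

private lemma EE_coord2 [Fintype ι] (Q : Finset Ω) (s : ι → Setoid Ω) (t : ℕ) (ht : 1 ≤ t)
    (x x' : ι) (hx : x ≠ x') (G : (Fin t → Ω) → (Fin t → Ω) → ℝ) :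
    EE Q s t (fun σ => G (σ x) (σ x')) = ∑ π₀ ∈ Q, ∑ τ ∈ tup Q t, wt Q (s x) t π₀ τ *
      ∑ τ' ∈ tup Q t, wt Q (s x') t π₀ τ' * G τ τ' := by
  classical
  unfold EE
  apply sum_congr rfl
  intro π₀ hπ
  have := marg_two (tup Q t) (fun x τ => wt Q (s x) t π₀ τ)
    (fun x => wt_sum Q (s x) t ht π₀ hπ) x x' hx G
  rw [← this]
  unfold fam
  congr!

theorem exp_one [Fintype ι] (Q : Finset Ω) (s : ι → Setoid Ω) (t : ℕ) (ht : 1 ≤ t) :
    ∑ π₀ ∈ Q, ∑ σ ∈ fam (ι := ι) Q t, (∏ x, wt Q (s x) t π₀ (σ x)) = Q.card := by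
  have := EE_one Q s t ht
  unfold EE at this
  simpa only [mul_one] using this

/-! ### Two entries of the same column -/

open Classical in
private def eqI (a b : ℕ) : ℝ := if a = b then 1 else 0

private lemma eqI_nonneg (a b : ℕ) : 0 ≤ eqI a b := by
  unfold eqI
  split_ifs <;> norm_num

private lemma eqI_comm (a b : ℕ) : eqI a b = eqI b a := by
  unfold eqI
  by_cases h : a = b
  · rw [if_pos h, if_pos h.symm]
  · rw [if_neg h, if_neg (fun e => h e.symm)]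

private lemma collQ_eq (Q : Finset Ω) (ρ : Ω → ℕ) :
    collQ Q ρ = ∑ π ∈ Q, av Q (fun π' => eqI (ρ π) (ρ π')) := by
  classical
  unfold collQ av
  apply sum_congr rfl
  intro π _
  rw [card_filter]
  push_cast
  congr 1
  apply sum_congr rfl
  intro π' _
  unfold eqI
  by_cases h : ρ π' = ρ π
  · rw [if_pos h, if_pos h.symm]
  · rw [if_neg h, if_neg (fun e => h e.symm)]

private lemma collQ_nonneg (Q : Finset Ω) (ρ : Ω → ℕ) : 0 ≤ collQ Q ρ := by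
  unfold collQ
  apply sum_nonneg
  intro π _
  positivity

private lemma two_same (Q : Finset Ω) (r : Setoid Ω) (t : ℕ) (ht : 1 ≤ t) (l l' : Fin t)
    (hl : l ≠ l') (ρ : Ω → ℕ) (hρ : ∀ π ∈ Q, ∀ π' ∈ Q, r π π' → ρ π = ρ π') :
    ∑ π₀ ∈ Q, ∑ τ ∈ tup Q t, wt Q r t π₀ τ * eqI (ρ (τ l)) (ρ (τ l')) = collQ Q ρ := by
  classical
  rcases Q.eq_empty_or_nonempty with rfl | hQ
  · simp [collQ]
  have hQc : (0 : ℝ) < (Q.card : ℝ) := by exact_mod_cast card_pos.2 hQ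
  have ht0 : (0 : ℝ) < (t : ℝ) := by exact_mod_cast ht
  have h1 : ∀ π₀ ∈ Q, ∑ τ ∈ tup Q t, wt Q r t π₀ τ * eqI (ρ (τ l)) (ρ (τ l')) =
      (1 / (t : ℝ)) * ∑ l₀ : Fin t, (if l = l₀ ∨ l' = l₀ then av Q (fun b => eqI (ρ π₀) (ρ b))
        else av Q (fun a => av Q (fun b => eqI (ρ a) (ρ b)))) := by
    intro π₀ hπ
    rw [wt_two Q r t π₀ hπ l l' hl (fun a b => eqI (ρ a) (ρ b))]
    congr 1
    apply sum_congr rfl
    intro l₀ _
    have h2 : ∀ a, ∑ b ∈ Q, uu Q r π₀ l₀ l' b * eqI (ρ a) (ρ b) =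
        if l' = l₀ then eqI (ρ a) (ρ π₀) else av Q (fun b => eqI (ρ a) (ρ b)) := by
      intro a
      apply uu_mul_sum Q r π₀ hπ l₀ l' (fun b => eqI (ρ a) (ρ b))
      intro π hπ' hr
      rw [hρ π₀ hπ π hπ' hr]
    simp_rw [h2]
    by_cases hl' : l' = l₀
    · rw [if_pos (Or.inr hl' : l = l₀ ∨ l' = l₀)]
      simp only [if_pos hl']
      rw [uu_mul_sum Q r π₀ hπ l₀ l (fun a => eqI (ρ a) (ρ π₀)) (by
        intro π hπ' hr
        rw [hρ π₀ hπ π hπ' hr]), if_neg (fun e => hl (e.trans hl'.symm))]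
      unfold av
      congr 1
      apply sum_congr rfl
      intro a _
      exact eqI_comm _ _
    · simp only [if_neg hl']
      have e0 : (l = l₀ ∨ l' = l₀) = (l = l₀) := propext ⟨fun h => h.resolve_right hl', Or.inl⟩
      simp only [e0]
      rw [uu_mul_sum Q r π₀ hπ l₀ l (fun a => av Q (fun b => eqI (ρ a) (ρ b))) (by
        intro π hπ' hr
        rw [hρ π₀ hπ π hπ' hr])]
  rw [sum_congr rfl h1, ← mul_sum, sum_comm]
  have h3 : ∀ l₀ : Fin t, ∑ π₀ ∈ Q, (if l = l₀ ∨ l' = l₀ then av Q (fun b => eqI (ρ π₀) (ρ b))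
        else av Q (fun a => av Q (fun b => eqI (ρ a) (ρ b)))) = collQ Q ρ := by
    intro l₀
    rw [collQ_eq]
    by_cases h : l = l₀ ∨ l' = l₀
    · simp only [if_pos h]
    · simp only [if_neg h]
      rw [sum_const, nsmul_eq_mul]
      conv_lhs => rw [av]
      field_simp
  rw [sum_congr rfl (fun l₀ _ => h3 l₀), sum_const, card_univ, Fintype.card_fin, nsmul_eq_mul]
  field_simp

theorem exp_coll [Fintype ι] (Q : Finset Ω) (s : ι → Setoid Ω) (t : ℕ) (ht : 1 ≤ t)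
    (ρ : ι → Ω → ℕ) (hρ : ∀ x, ∀ π ∈ Q, ∀ π' ∈ Q, s x π π' → ρ x π = ρ x π') :
    ∑ π₀ ∈ Q, ∑ σ ∈ fam (ι := ι) Q t, (∏ x, wt Q (s x) t π₀ (σ x)) * (Coll ρ t σ : ℝ) ≤
      (t : ℝ) ^ 2 * ∑ x, collQ Q (ρ x) := by
  classical
  show EE Q s t (fun σ => (Coll ρ t σ : ℝ)) ≤ _
  have h1 : (fun σ : ι → Fin t → Ω => (Coll ρ t σ : ℝ)) = fun σ => ∑ p : ι × Fin t × Fin t,
      (if p.2.1 < p.2.2 then eqI (ρ p.1 (σ p.1 p.2.1)) (ρ p.1 (σ p.1 p.2.2)) else 0) := by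
    funext σ
    unfold Coll
    rw [card_filter]
    push_cast
    apply sum_congr rfl
    intro p _
    unfold eqI
    by_cases h : p.2.1 < p.2.2
    · simp only [h, true_and, if_true]
    · simp only [h, false_and, if_false]
  rw [h1, EE_sum]
  have h2 : ∀ p : ι × Fin t × Fin t, EE Q s t (fun σ =>
      (if p.2.1 < p.2.2 then eqI (ρ p.1 (σ p.1 p.2.1)) (ρ p.1 (σ p.1 p.2.2)) else 0)) ≤
      collQ Q (ρ p.1) := by
    intro p
    by_cases h : p.2.1 < p.2.2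
    · simp only [if_pos h]
      rw [EE_coord Q s t ht p.1 (fun τ => eqI (ρ p.1 (τ p.2.1)) (ρ p.1 (τ p.2.2)))]
      exact (two_same Q (s p.1) t ht _ _ h.ne (ρ p.1) (hρ p.1)).le
    · simp only [if_neg h]
      rw [EE_zero]
      exact collQ_nonneg _ _
  refine (sum_le_sum fun p _ => h2 p).trans ?_
  rw [Fintype.sum_prod_type, mul_sum]
  apply sum_le_sum
  intro x _
  simp only [sum_const, card_univ, Fintype.card_prod, Fintype.card_fin, nsmul_eq_mul]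
  push_cast
  nlinarith [collQ_nonneg Q (ρ x)]

/-! ### Two entries of different columns -/

private lemma two_diff (Q : Finset Ω) (r r' : Setoid Ω) (t : ℕ) (ht : 1 ≤ t) (l l' : Fin t)
    (ρ ρ' : Ω → ℕ) (hρ : ∀ π ∈ Q, ∀ π' ∈ Q, r π π' → ρ π = ρ π')
    (hρ' : ∀ π ∈ Q, ∀ π' ∈ Q, r' π π' → ρ' π = ρ' π') :
    ∑ π₀ ∈ Q, ∑ τ ∈ tup Q t, wt Q r t π₀ τ *
      ∑ τ' ∈ tup Q t, wt Q r' t π₀ τ' * eqI (ρ (τ l)) (ρ' (τ' l')) ≤
      (1 / (t : ℝ)) ^ 2 * ∑ π ∈ Q, eqI (ρ π) (ρ' π) +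
        ∑ a ∈ Q, av Q (fun b => eqI (ρ a) (ρ' b)) := by
  classical
  rcases Q.eq_empty_or_nonempty with rfl | hQ
  · simp
  have hQc : (0 : ℝ) < (Q.card : ℝ) := by exact_mod_cast card_pos.2 hQ
  have ht0 : (0 : ℝ) < (t : ℝ) := by exact_mod_cast ht
  -- the inner expectation
  have h1 : ∀ π₀ ∈ Q, ∑ τ ∈ tup Q t, wt Q r t π₀ τ *
      ∑ τ' ∈ tup Q t, wt Q r' t π₀ τ' * eqI (ρ (τ l)) (ρ' (τ' l')) =
      (1 / (t : ℝ)) ^ 2 * ∑ l₀ : Fin t, ∑ l₁ : Fin t,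
        (if l = l₀ then (if l' = l₁ then eqI (ρ π₀) (ρ' π₀) else av Q (fun b => eqI (ρ π₀) (ρ' b)))
          else (if l' = l₁ then av Q (fun a => eqI (ρ a) (ρ' π₀)) else
            av Q (fun a => av Q (fun b => eqI (ρ a) (ρ' b))))) := by
    intro π₀ hπ
    have h2 : ∀ τ : Fin t → Ω, ∑ τ' ∈ tup Q t, wt Q r' t π₀ τ' * eqI (ρ (τ l)) (ρ' (τ' l')) =
        (1 / (t : ℝ)) * ∑ l₁ : Fin t, (if l' = l₁ then eqI (ρ (τ l)) (ρ' π₀) else
          av Q (fun b => eqI (ρ (τ l)) (ρ' b))) := by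
      intro τ
      rw [wt_one Q r' t π₀ hπ l' (fun b => eqI (ρ (τ l)) (ρ' b))]
      congr 1
      apply sum_congr rfl
      intro l₁ _
      apply uu_mul_sum Q r' π₀ hπ l₁ l' (fun b => eqI (ρ (τ l)) (ρ' b))
      intro π hπ' hr
      rw [hρ' π₀ hπ π hπ' hr]
    simp_rw [h2]
    rw [wt_one Q r t π₀ hπ l (fun a => (1 / (t : ℝ)) * ∑ l₁ : Fin t,
      (if l' = l₁ then eqI (ρ a) (ρ' π₀) else av Q (fun b => eqI (ρ a) (ρ' b))))]
    have h3 : ∀ l₀ : Fin t, ∑ π ∈ Q, uu Q r π₀ l₀ l π * ((1 / (t : ℝ)) * ∑ l₁ : Fin t,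
        (if l' = l₁ then eqI (ρ π) (ρ' π₀) else av Q (fun b => eqI (ρ π) (ρ' b)))) =
        (1 / (t : ℝ)) * ∑ l₁ : Fin t,
        (if l = l₀ then (if l' = l₁ then eqI (ρ π₀) (ρ' π₀) else av Q (fun b => eqI (ρ π₀) (ρ' b)))
          else (if l' = l₁ then av Q (fun a => eqI (ρ a) (ρ' π₀)) else
            av Q (fun a => av Q (fun b => eqI (ρ a) (ρ' b))))) := by
      intro l₀
      have h4 : ∀ π, uu Q r π₀ l₀ l π * ((1 / (t : ℝ)) * ∑ l₁ : Fin t,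
          (if l' = l₁ then eqI (ρ π) (ρ' π₀) else av Q (fun b => eqI (ρ π) (ρ' b)))) =
          (1 / (t : ℝ)) * ∑ l₁ : Fin t, uu Q r π₀ l₀ l π *
          (if l' = l₁ then eqI (ρ π) (ρ' π₀) else av Q (fun b => eqI (ρ π) (ρ' b))) := by
        intro π
        rw [mul_left_comm, mul_sum]
      simp_rw [h4]
      rw [← mul_sum, sum_comm]
      congr 1
      apply sum_congr rfl
      intro l₁ _
      rw [uu_mul_sum Q r π₀ hπ l₀ l (fun π => if l' = l₁ then eqI (ρ π) (ρ' π₀) else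
        av Q (fun b => eqI (ρ π) (ρ' b)))]
      · by_cases hll : l' = l₁
        · simp only [if_pos hll]
        · simp only [if_neg hll]
      · intro π hπ' hr
        rw [hρ π₀ hπ π hπ' hr]
    rw [sum_congr rfl (fun l₀ _ => h3 l₀), ← mul_sum]
    ring
  rw [sum_congr rfl h1, ← mul_sum, sum_comm]
  have h5 : ∀ l₀ l₁ : Fin t, ∑ π₀ ∈ Q,
        (if l = l₀ then (if l' = l₁ then eqI (ρ π₀) (ρ' π₀) else av Q (fun b => eqI (ρ π₀) (ρ' b)))
          else (if l' = l₁ then av Q (fun a => eqI (ρ a) (ρ' π₀)) else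
            av Q (fun a => av Q (fun b => eqI (ρ a) (ρ' b))))) ≤
      (if l = l₀ then (if l' = l₁ then ∑ π ∈ Q, eqI (ρ π) (ρ' π) else 0) else 0) +
        ∑ a ∈ Q, av Q (fun b => eqI (ρ a) (ρ' b)) := by
    intro l₀ l₁
    have hnn : 0 ≤ ∑ a ∈ Q, av Q (fun b => eqI (ρ a) (ρ' b)) := by
      apply sum_nonneg
      intro a _
      unfold av
      exact div_nonneg (sum_nonneg fun b _ => eqI_nonneg _ _) hQc.le
    by_cases h : l = l₀
    · by_cases h' : l' = l₁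
      · simp only [if_pos h, if_pos h']
        linarith
      · simp only [if_pos h, if_neg h', zero_add]
        exact le_rfl
    · by_cases h' : l' = l₁
      · simp only [if_neg h, if_pos h', zero_add]
        unfold av
        rw [← sum_div, ← sum_div, sum_comm]
      · simp only [if_neg h, if_neg h', zero_add]
        rw [sum_const, nsmul_eq_mul]
        conv_lhs => rw [av]
        apply le_of_eq
        field_simp
  have h6 : ∑ l₀ : Fin t, ∑ π₀ ∈ Q, ∑ l₁ : Fin t,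
        (if l = l₀ then (if l' = l₁ then eqI (ρ π₀) (ρ' π₀) else av Q (fun b => eqI (ρ π₀) (ρ' b)))
          else (if l' = l₁ then av Q (fun a => eqI (ρ a) (ρ' π₀)) else
            av Q (fun a => av Q (fun b => eqI (ρ a) (ρ' b))))) ≤
      ∑ l₀ : Fin t, ∑ l₁ : Fin t,
      ((if l = l₀ then (if l' = l₁ then ∑ π ∈ Q, eqI (ρ π) (ρ' π) else 0) else 0) +
        ∑ a ∈ Q, av Q (fun b => eqI (ρ a) (ρ' b))) := by
    apply sum_le_sum
    intro l₀ _
    rw [sum_comm]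
    exact sum_le_sum fun l₁ _ => h5 l₀ l₁
  have h7 : ∑ l₀ : Fin t, ∑ l₁ : Fin t,
      ((if l = l₀ then (if l' = l₁ then ∑ π ∈ Q, eqI (ρ π) (ρ' π) else 0) else 0) +
        ∑ a ∈ Q, av Q (fun b => eqI (ρ a) (ρ' b))) =
      ∑ π ∈ Q, eqI (ρ π) (ρ' π) + (t : ℝ) ^ 2 * ∑ a ∈ Q, av Q (fun b => eqI (ρ a) (ρ' b)) := by
    simp only [sum_add_distrib]
    congr 1
    · have : ∀ l₀ : Fin t, (∑ l₁ : Fin t,
          (if l = l₀ then (if l' = l₁ then ∑ π ∈ Q, eqI (ρ π) (ρ' π) else 0) else 0)) =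
          if l = l₀ then ∑ π ∈ Q, eqI (ρ π) (ρ' π) else 0 := by
        intro l₀
        by_cases h : l = l₀
        · simp only [if_pos h]
          rw [sum_ite_eq, if_pos (mem_univ _)]
        · simp only [if_neg h, sum_const_zero]
      rw [sum_congr rfl (fun l₀ _ => this l₀), sum_ite_eq, if_pos (mem_univ _)]
    · simp only [sum_const, card_univ, Fintype.card_fin, nsmul_eq_mul]
      ring
  rw [h7] at h6
  calc (1 / (t : ℝ)) ^ 2 * _ ≤ (1 / (t : ℝ)) ^ 2 *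
        (∑ π ∈ Q, eqI (ρ π) (ρ' π) + (t : ℝ) ^ 2 * ∑ a ∈ Q, av Q (fun b => eqI (ρ a) (ρ' b))) :=
        mul_le_mul_of_nonneg_left h6 (by positivity)
    _ = _ := by field_simp

/-! ### Cauchy-Schwarz for coincidences -/

private lemma two_coinc [Fintype ι] (a b : ι → ℕ) :
    2 * ∑ x, ∑ x', eqI (a x) (b x') ≤ ∑ x, ∑ x', eqI (a x) (a x') + ∑ x, ∑ x', eqI (b x) (b x') := by
  classical
  set Γ : Finset ℕ := univ.image a ∪ univ.image b with hΓ
  have ha : ∀ x, a x ∈ Γ := fun x => mem_union_left _ (mem_image_of_mem _ (mem_univ x))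
  have hb : ∀ x, b x ∈ Γ := fun x => mem_union_right _ (mem_image_of_mem _ (mem_univ x))
  have key : ∀ c d : ι → ℕ, (∀ x, c x ∈ Γ) → (∀ x, d x ∈ Γ) →
      ∑ x, ∑ x', eqI (c x) (d x') = ∑ γ ∈ Γ, (∑ x, eqI (c x) γ) * ∑ x', eqI (d x') γ := by
    intro c d hc _
    have h1 : ∀ x x', eqI (c x) (d x') = ∑ γ ∈ Γ, eqI (c x) γ * eqI (d x') γ := by
      intro x x'
      unfold eqI
      simp only [ite_mul, one_mul, zero_mul]
      rw [sum_ite_eq Γ (c x) (fun γ => if d x' = γ then (1 : ℝ) else 0), if_pos (hc x)]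
      by_cases h : c x = d x'
      · rw [if_pos h, if_pos h.symm]
      · rw [if_neg h, if_neg (fun e => h e.symm)]
    simp_rw [h1, sum_mul_sum]
    calc ∑ x, ∑ x', ∑ γ ∈ Γ, eqI (c x) γ * eqI (d x') γ
        = ∑ x, ∑ γ ∈ Γ, ∑ x', eqI (c x) γ * eqI (d x') γ :=
          sum_congr rfl fun x _ => sum_comm
      _ = ∑ γ ∈ Γ, ∑ x, ∑ x', eqI (c x) γ * eqI (d x') γ := sum_comm
  rw [key a b ha hb, key a a ha ha, key b b hb hb, mul_sum, ← sum_add_distrib]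
  apply sum_le_sum
  intro γ _
  nlinarith [sq_nonneg ((∑ x, eqI (a x) γ) - ∑ x, eqI (b x) γ)]

private lemma jensen [Fintype ι] (Q : Finset Ω) (ρ : ι → Ω → ℕ) :
    ∑ x, ∑ x', ∑ a ∈ Q, av Q (fun b => eqI (ρ x a) (ρ x' b)) ≤
      ∑ π ∈ Q, ∑ x, ∑ x', eqI (ρ x π) (ρ x' π) := by
  classical
  rcases Q.eq_empty_or_nonempty with rfl | hQ
  · simp
  have hQc : (0 : ℝ) < (Q.card : ℝ) := by exact_mod_cast card_pos.2 hQ
  set T : Ω → ℝ := fun π => ∑ x, ∑ x', eqI (ρ x π) (ρ x' π) with hT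
  have h1 : ∑ x, ∑ x', ∑ a ∈ Q, av Q (fun b => eqI (ρ x a) (ρ x' b)) =
      (1 / (Q.card : ℝ)) * ∑ a ∈ Q, ∑ b ∈ Q, ∑ x, ∑ x', eqI (ρ x a) (ρ x' b) := by
    have e1 : ∀ x x', ∑ a ∈ Q, av Q (fun b => eqI (ρ x a) (ρ x' b)) =
        (1 / (Q.card : ℝ)) * ∑ a ∈ Q, ∑ b ∈ Q, eqI (ρ x a) (ρ x' b) := by
      intro x x'
      unfold av
      rw [← sum_div]
      ring
    simp_rw [e1, ← mul_sum]
    congr 1
    calc ∑ x, ∑ x', ∑ a ∈ Q, ∑ b ∈ Q, eqI (ρ x a) (ρ x' b)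
        = ∑ x, ∑ a ∈ Q, ∑ x', ∑ b ∈ Q, eqI (ρ x a) (ρ x' b) :=
          sum_congr rfl fun x _ => sum_comm
      _ = ∑ a ∈ Q, ∑ x, ∑ x', ∑ b ∈ Q, eqI (ρ x a) (ρ x' b) := sum_comm
      _ = ∑ a ∈ Q, ∑ x, ∑ b ∈ Q, ∑ x', eqI (ρ x a) (ρ x' b) :=
          sum_congr rfl fun a _ => sum_congr rfl fun x _ => sum_comm
      _ = ∑ a ∈ Q, ∑ b ∈ Q, ∑ x, ∑ x', eqI (ρ x a) (ρ x' b) :=
          sum_congr rfl fun a _ => sum_comm
  have h2 : ∑ a ∈ Q, ∑ b ∈ Q, ∑ x, ∑ x', eqI (ρ x a) (ρ x' b) ≤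
      ∑ a ∈ Q, ∑ b ∈ Q, (T a + T b) / 2 := by
    apply sum_le_sum
    intro a _
    apply sum_le_sum
    intro b _
    have := two_coinc (fun x => ρ x a) (fun x => ρ x b)
    simp only [hT]
    linarith
  have h3 : ∑ a ∈ Q, ∑ b ∈ Q, (T a + T b) / 2 = Q.card * ∑ π ∈ Q, T π := by
    simp only [add_div, sum_add_distrib, sum_const, nsmul_eq_mul, ← mul_sum, ← sum_div]
    ring
  rw [h1]
  calc (1 / (Q.card : ℝ)) * ∑ a ∈ Q, ∑ b ∈ Q, ∑ x, ∑ x', eqI (ρ x a) (ρ x' b)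
      ≤ (1 / (Q.card : ℝ)) * (Q.card * ∑ π ∈ Q, T π) :=
        mul_le_mul_of_nonneg_left (h3 ▸ h2) (by positivity)
    _ = ∑ π ∈ Q, T π := by field_simp

private lemma SS_eq [Fintype ι] [DecidableEq ι] (ρ : ι → Ω → ℕ) (π : Ω) :
    (SS ρ π : ℝ) = ∑ x, ∑ x', (if x ≠ x' then eqI (ρ x π) (ρ x' π) else 0) := by
  unfold SS
  rw [card_filter]
  push_cast
  rw [Fintype.sum_prod_type]
  apply sum_congr rfl
  intro x _
  apply sum_congr rfl
  intro x' _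
  unfold eqI
  by_cases h : x = x'
  · simp [h]
  · by_cases h' : ρ x π = ρ x' π
    · simp [h, h']
    · simp [h, h']

private lemma all_eq [Fintype ι] (ρ : ι → Ω → ℕ) (π : Ω) :
    ∑ x, ∑ x', eqI (ρ x π) (ρ x' π) = Fintype.card ι + (SS ρ π : ℝ) := by
  classical
  rw [SS_eq]
  have h1 : (Fintype.card ι : ℝ) = ∑ x : ι, ∑ x' : ι, (if x = x' then (1 : ℝ) else 0) := by
    simp
  rw [h1, ← sum_add_distrib]
  apply sum_congr rfl
  intro x _
  rw [← sum_add_distrib]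
  apply sum_congr rfl
  intro x' _
  by_cases h : x = x'
  · subst h
    simp [eqI]
  · simp [h]

theorem exp_pairs [Fintype ι] (Q : Finset Ω) (s : ι → Setoid Ω) (t : ℕ) (ht : 1 ≤ t)
    (ρ : ι → Ω → ℕ) (hρ : ∀ x, ∀ π ∈ Q, ∀ π' ∈ Q, s x π π' → ρ x π = ρ x π') :
    ∑ π₀ ∈ Q, ∑ σ ∈ fam (ι := ι) Q t, (∏ x, wt Q (s x) t π₀ (σ x)) * (Pairs ρ t σ : ℝ) ≤
      (t : ℝ) * Fintype.card ι * Q.card + (t : ℝ) ^ 2 * ∑ x, collQ Q (ρ x) +
        (t : ℝ) ^ 2 * Fintype.card ι * Q.card + ((t : ℝ) ^ 2 + 1) * ∑ π ∈ Q, (SS ρ π : ℝ) := by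
  classical
  have ht0 : (0 : ℝ) < (t : ℝ) := by exact_mod_cast ht
  show EE Q s t (fun σ => (Pairs ρ t σ : ℝ)) ≤ _
  have h1 : (fun σ : ι → Fin t → Ω => (Pairs ρ t σ : ℝ)) = fun σ => ∑ x : ι, ∑ x' : ι,
      ∑ l : Fin t, ∑ l' : Fin t, eqI (ρ x (σ x l)) (ρ x' (σ x' l')) := by
    funext σ
    unfold Pairs
    rw [card_filter]
    push_cast
    rw [Fintype.sum_prod_type, Fintype.sum_prod_type]
    apply sum_congr rfl
    intro x _
    simp_rw [Fintype.sum_prod_type]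
    rw [sum_comm]
    apply sum_congr rfl
    intro x' _
    rfl
  rw [h1, EE_sum]
  have h2 : ∀ x : ι, EE Q s t (fun σ => ∑ x' : ι,
      ∑ l : Fin t, ∑ l' : Fin t, eqI (ρ x (σ x l)) (ρ x' (σ x' l'))) =
      ∑ x' : ι, ∑ l : Fin t, ∑ l' : Fin t,
        EE Q s t (fun σ => eqI (ρ x (σ x l)) (ρ x' (σ x' l'))) := by
    intro x
    rw [EE_sum]
    apply sum_congr rfl
    intro x' _
    rw [EE_sum]
    apply sum_congr rfl
    intro l _
    rw [EE_sum]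
  simp_rw [h2]
  -- the bound for each pair of columns
  have h3 : ∀ x x' : ι, ∑ l : Fin t, ∑ l' : Fin t,
      EE Q s t (fun σ => eqI (ρ x (σ x l)) (ρ x' (σ x' l'))) ≤
      (if x = x' then (t : ℝ) * Q.card + (t : ℝ) ^ 2 * collQ Q (ρ x) else 0) +
      ∑ π ∈ Q, (if x ≠ x' then eqI (ρ x π) (ρ x' π) else 0) +
      (t : ℝ) ^ 2 * ∑ a ∈ Q, av Q (fun b => eqI (ρ x a) (ρ x' b)) := by
    intro x x'
    have hnn : 0 ≤ ∑ a ∈ Q, av Q (fun b => eqI (ρ x a) (ρ x' b)) := by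
      apply sum_nonneg
      intro a _
      unfold av
      exact div_nonneg (sum_nonneg fun b _ => eqI_nonneg _ _) (Nat.cast_nonneg _)
    by_cases hx : x = x'
    · subst hx
      simp only [if_true, ne_eq, not_true_eq_false, if_false, sum_const_zero, add_zero]
      have h4 : ∀ l l' : Fin t, EE Q s t (fun σ => eqI (ρ x (σ x l)) (ρ x (σ x l'))) ≤
          (if l = l' then (Q.card : ℝ) else 0) + collQ Q (ρ x) := by
        intro l l'
        by_cases hl : l = l'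
        · subst hl
          simp only [if_true]
          have : (fun σ : ι → Fin t → Ω => eqI (ρ x (σ x l)) (ρ x (σ x l))) = fun _ => 1 := by
            funext σ
            simp [eqI]
          rw [this, EE_one Q s t ht]
          linarith [collQ_nonneg Q (ρ x)]
        · simp only [if_neg hl, zero_add]
          rw [EE_coord Q s t ht x (fun τ => eqI (ρ x (τ l)) (ρ x (τ l')))]
          exact (two_same Q (s x) t ht l l' hl (ρ x) (hρ x)).le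
      refine (sum_le_sum fun l _ => sum_le_sum fun l' _ => h4 l l').trans ?_
      have h5 : ∑ l : Fin t, ∑ l' : Fin t, ((if l = l' then (Q.card : ℝ) else 0) + collQ Q (ρ x)) =
          (t : ℝ) * Q.card + (t : ℝ) ^ 2 * collQ Q (ρ x) := by
        simp only [sum_add_distrib, sum_ite_eq, mem_univ, if_true, sum_const, card_univ,
          Fintype.card_fin, nsmul_eq_mul]
        ring
      rw [h5]
      have := mul_nonneg (sq_nonneg (t : ℝ)) hnn
      linarith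
    · rw [if_neg hx]
      simp only [ne_eq, hx, not_false_eq_true, if_true, zero_add]
      have h4 : ∀ l l' : Fin t, EE Q s t (fun σ => eqI (ρ x (σ x l)) (ρ x' (σ x' l'))) ≤
          (1 / (t : ℝ)) ^ 2 * ∑ π ∈ Q, eqI (ρ x π) (ρ x' π) +
            ∑ a ∈ Q, av Q (fun b => eqI (ρ x a) (ρ x' b)) := by
        intro l l'
        rw [EE_coord2 Q s t ht x x' hx (fun τ τ' => eqI (ρ x (τ l)) (ρ x' (τ' l')))]
        exact two_diff Q (s x) (s x') t ht l l' (ρ x) (ρ x') (hρ x) (hρ x')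
      refine (sum_le_sum fun l _ => sum_le_sum fun l' _ => h4 l l').trans ?_
      apply le_of_eq
      simp only [sum_const, card_univ, Fintype.card_fin, nsmul_eq_mul]
      field_simp
  refine (sum_le_sum fun x _ => sum_le_sum fun x' _ => h3 x x').trans ?_
  have h6 : ∑ x : ι, ∑ x' : ι,
      ((if x = x' then (t : ℝ) * Q.card + (t : ℝ) ^ 2 * collQ Q (ρ x) else 0) +
      ∑ π ∈ Q, (if x ≠ x' then eqI (ρ x π) (ρ x' π) else 0) +
      (t : ℝ) ^ 2 * ∑ a ∈ Q, av Q (fun b => eqI (ρ x a) (ρ x' b))) =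
      (t : ℝ) * Fintype.card ι * Q.card + (t : ℝ) ^ 2 * ∑ x, collQ Q (ρ x) +
      ∑ π ∈ Q, (SS ρ π : ℝ) +
      (t : ℝ) ^ 2 * ∑ x, ∑ x', ∑ a ∈ Q, av Q (fun b => eqI (ρ x a) (ρ x' b)) := by
    simp only [sum_add_distrib]
    congr 1
    · congr 1
      · simp only [sum_ite_eq, mem_univ, if_true, sum_add_distrib, sum_const, card_univ,
          nsmul_eq_mul, ← mul_sum]
        ring
      · calc ∑ x : ι, ∑ x' : ι, ∑ π ∈ Q, (if x ≠ x' then eqI (ρ x π) (ρ x' π) else 0)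
            = ∑ x : ι, ∑ π ∈ Q, ∑ x' : ι, (if x ≠ x' then eqI (ρ x π) (ρ x' π) else 0) :=
              sum_congr rfl fun x _ => sum_comm
          _ = ∑ π ∈ Q, ∑ x : ι, ∑ x' : ι, (if x ≠ x' then eqI (ρ x π) (ρ x' π) else 0) := sum_comm
          _ = ∑ π ∈ Q, (SS ρ π : ℝ) := sum_congr rfl fun π _ => (SS_eq ρ π).symm
    · simp only [← mul_sum]
  rw [h6]
  have h7 := jensen Q ρ
  have h8 : ∑ π ∈ Q, ∑ x, ∑ x', eqI (ρ x π) (ρ x' π) =
      (Fintype.card ι : ℝ) * Q.card + ∑ π ∈ Q, (SS ρ π : ℝ) := by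
    rw [sum_congr rfl (fun π _ => all_eq ρ π), sum_add_distrib, sum_const, nsmul_eq_mul]
    ring
  rw [h8] at h7
  nlinarith [sq_nonneg (t : ℝ), mul_le_mul_of_nonneg_left h7 (sq_nonneg (t : ℝ))]

end

end Pool.Agent.Work.MP_8eaa9c_co.Red
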